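import Pool.Agent.N179.DB.DefsA
import Pool.Agent.Y133.Half.PerDefs

/-!
# Algebras with complex coefficients
-/

set_option autoImplicit false

open CategoryTheory AlgebraicGeometry TensorProduct

namespace Pool.Agent.N179.DB.S

open Pool.Agent.Y133.Per

section Lin

variable {K : Type} [Field K] [Algebra K ℂ]

/-- The extension of a linear map. -/
noncomputable def bc {V V' : Type} [AddCommGroup V] [Module K V] [AddCommGroup V'] [Module K V']
    (f : V →ₗ[K] V') : Cx K V →ₗ[ℂ] Cx K V' := f.baseChange ℂ

/-- The extension of the linear map `f` maps `S` into `T`. -/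
def Respects {V V' : Type} [AddCommGroup V] [Module K V] [AddCommGroup V'] [Module K V']
    (S : Set (Cx K V)) (T : Set (Cx K V')) (f : V →ₗ[K] V') : Prop := ∀ x ∈ S, bc f x ∈ T

end Lin

section Alg

variable {K : Type} [Field K] [Algebra K ℂ] {A B C : Type} [Ring A] [Algebra K A] [Ring B]
  [Algebra K B] [Ring C] [Algebra K C]

/-- The set of the vectors of the space `A` with complex coefficients as a set of elements of the
algebra. -/
def toBase (S : Set (Cx K A)) : Set (Base K A) := S

/-- The algebra `A` is generated by the set `S`. -/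
def GeneratesK (K : Type) [Field K] {A : Type} [Ring A] [Algebra K A] (S : Set A) : Prop :=
  Algebra.adjoin K S = ⊤

/-- The algebra `A` with complex coefficients is generated by the set `S`. -/
def Generates (S : Set (Cx K A)) : Prop := GeneratesK ℂ (toBase S)

/-- Every element of `S` is a linear combination of the products `f a * g b` with `a ∈ SA` and
`b ∈ SB`. -/
def ProductsSpan (R : Type) [Field R] {A B C : Type} [Ring C] [Algebra R C] (f : A → C) (g : B → C)
    (SA : Set A) (SB : Set B) (S : Set C) : Prop :=
  ∀ z ∈ S, z ∈ Submodule.span R {x | ∃ a ∈ SA, ∃ b ∈ SB, x = f a * g b}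

/-- Every element of `S` is a linear combination of the products of the images of elements of `SA`
and of `SB`. -/
def IsKunneth' (p : A →ₐ[K] C) (q : B →ₐ[K] C) (SA : Set (Cx K A)) (SB : Set (Cx K B))
    (S : Set (Cx K C)) : Prop :=
  ProductsSpan ℂ (fun a => baseMap p a) (fun b => baseMap q b) (toBase SA) (toBase SB) (toBase S)

/-- Every element of `S` is a linear combination of elements of `T`. -/
def IsSpanned (S : Set (Cx K A)) (T : Set A) : Prop :=
  ∀ z ∈ S, z ∈ Submodule.span ℂ {x | ∃ c ∈ T, x = tens 1 c}

end Alg

section Alg

variable {K : Type} [Field K] [Algebra K ℂ] {A V : Type} [Ring A] [Algebra K A] [AddCommGroup V]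
  [Module K V]

/-- The images of the linear maps from `V` to the subspace `U` of `A` which respect the de Rham
structures. -/
def homImages (S : Set (Cx K V)) (T : Set (Cx K A)) (U : Submodule K A) : Set A :=
  {x | ∃ (f : V →ₗ[K] A) (v : V), (∀ w, f w ∈ U) ∧ Respects S T f ∧ x = f v}

end Alg

end Pool.Agent.N179.DB.S
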