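import Pool.Agent.N179.DB.CohForm

/-!
# The de Rham-Betti structure on the cohomology of a variety
-/

set_option autoImplicit false
set_option linter.unusedSectionVars false

open CategoryTheory AlgebraicGeometry TensorProduct

universe u

namespace Pool.Agent.N179.DB.S

open Module Pool.Agent.Y133.Per Pool.Agent.N179.DB Pool.Agent.N179.GR.S
open Pool.Agent.H914 Pool.Agent.H914.VarClass Pool.Agent.H914.VarClass.Obj
  Pool.Agent.H914.WeilCohomology

variable {k : Type u} [Field k] {𝒱 : VarClass k} {ops : CycleOps 𝒱}
  {W : WeilCohomology.{u, 0} ops} [Algebra W.K ℂ] {F : Subfield ℂ}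

/-- The de Rham cohomology as a subset of the space with complex coefficients. -/
def dRSet (D : DeRham W F) (X : 𝒱.Obj) : Set (Cx W.K (W.H X)) := D.dR X

theorem form_set (D : DeRham W F) (X : 𝒱.Obj) : IsFormCx F (dRSet D X) := form_dR D X

/-- The cohomology of the variety `X` as a de Rham-Betti structure. -/
noncomputable def coh (D : DeRham W F) (X : 𝒱.Obj) : DRB W.K F where
  V := W.H X
  dR := dRSet D X
  form := form_set D X

end Pool.Agent.N179.DB.S
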