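import Pool.Agent.N179.DB.Op
import Pool.Agent.Y133.Half.Per

/-!
# The de Rham structure on the cohomology of a variety
-/

set_option autoImplicit false
set_option linter.unusedSectionVars false

open CategoryTheory AlgebraicGeometry TensorProduct

universe u

namespace Pool.Agent.N179.DB.S

open Module Pool.Agent.Y133.Per Pool.Agent.N179.DB Pool.Agent.N179.GR.S
open Pool.Agent.H914 Pool.Agent.H914.VarClass Pool.Agent.H914.VarClass.Obj
  Pool.Agent.H914.WeilCohomology

variable {k : Type u} [Field k] {𝒱 : VarClass k} {ops : CycleOps 𝒱}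
  {W : WeilCohomology.{u, 0} ops} [Algebra W.K ℂ] {F : Subfield ℂ}

/-- The de Rham cohomology is an `F`-structure. -/
theorem form_dR (D : DeRham W F) (X : 𝒱.Obj) :
    ∃ (n : ℕ) (e : Basis (Fin n) ℂ (Base W.K (W.H X))), ∀ x, x ∈ D.dR X ↔ ∀ i, e.repr x i ∈ F := by
  classical
  obtain ⟨s, hs, hspan, hli⟩ := exists_linearIndependent ℂ (D.dR X)
  rw [(D.form X).span] at hspan
  have hfin : Finite s := hli.finite
  have : Fintype s := Fintype.ofFinite s
  let e0 : Basis s ℂ (Base W.K (W.H X)) := Basis.mk hli (by rw [Subtype.range_coe, hspan])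
  let e : Basis (Fin (Fintype.card s)) ℂ (Base W.K (W.H X)) := e0.reindex (Fintype.equivFin s)
  have heS : ∀ i, e i ∈ D.dR X := by
    intro i
    rw [Basis.reindex_apply, Basis.mk_apply]
    exact hs ((Fintype.equivFin s).symm i).2
  refine ⟨_, e, fun x => ⟨fun hx i => ?_, fun hx => ?_⟩⟩
  · have h0 : twoPiI ^ X.dim ≠ 0 := pow_ne_zero _ twoPiI_ne
    let B : Base W.K (W.H X) →ₗ[ℂ] Base W.K (W.H X) →ₗ[ℂ] ℂ :=
      (twoPiI ^ X.dim)⁻¹ • ((LinearMap.mul ℂ (Base W.K (W.H X))).compr₂ (baseTr (W.tr X)))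
    have hBe : ∀ v w, B v w = (twoPiI ^ X.dim)⁻¹ * baseTr (W.tr X) (v * w) := fun v w => rfl
    have key : ∀ v ∈ D.dR X, ∀ w ∈ D.dR X, B v w ∈ F := by
      intro v hv w hw
      obtain ⟨r, hr, h⟩ := (D.form X).tr _ ((D.form X).mul v hv w hw)
      rw [hBe, h, ← mul_assoc, inv_mul_cancel₀ h0, one_mul]
      exact hr
    have hU : Submodule.span F (Set.range e) ≤ dRSub D X := Submodule.span_le.2 (by
      rintro _ ⟨i, rfl⟩
      exact heS i)
    have h1 : x ∈ Submodule.span F (Set.range e) := by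
      refine mem_of_pair _ ?_ B ?_ (fun v hv w hw => key v (hU hv) w (hU hw))
        (fun w hw => key x hx w (hU hw))
      · rw [eq_top_iff, ← e.span_eq]
        exact Submodule.span_mono Submodule.subset_span
      · intro v hv
        apply baseTr_nondeg _ (Pool.Agent.Y133.Half.exists_dual_class W)
        intro b
        have h1 := hv b
        rw [hBe] at h1
        exact (mul_eq_zero.1 h1).resolve_left (inv_ne_zero h0)
    obtain ⟨c, hc⟩ := (Submodule.mem_span_range_iff_exists_fun F).1 h1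
    have h2 : x = ∑ i, (c i : ℂ) • e i := hc.symm
    rw [h2, e.repr_sum_self]
    exact (c i).2
  · rw [← e.sum_repr x]
    have h1 : ∀ i ∈ Finset.univ, e.repr x i • e i ∈ dRSub D X := fun i _ =>
      (D.form X).smul _ (hx i) _ (heS i)
    exact Submodule.sum_mem _ h1

end Pool.Agent.N179.DB.S
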