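import Pool.Agent.N179.DB.Coh
import Pool.Agent.N179.DB.AlgDefs

/-!
# Independent families of de Rham-Betti structures and the varieties generated by them: definitions
-/

set_option autoImplicit false

open CategoryTheory AlgebraicGeometry TensorProduct

universe u

namespace Pool.Agent.N179.DB.S

open Pool.Agent.Y133.Per Pool.Agent.N179.DB Pool.Agent.N179.GR.S

section Gen

variable {K V : Type} [Field K] [AddCommGroup V] [Module K V]

/-- The linear automorphisms. -/
def LAut (K V : Type) [Field K] [AddCommGroup V] [Module K V] : Type := V ≃ₗ[K] V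

instance LAut.group : Group (LAut K V) := LinearEquiv.automorphismGroup (R := K) (M := V)

/-- The linear map. -/
def LAut.lin (T : LAut K V) : V →ₗ[K] V := (show V ≃ₗ[K] V from T).toLinearMap

/-- The image of a vector. -/
def LAut.ap (T : LAut K V) (x : V) : V := T.lin x

/-- The representation given by a homomorphism to the group of the linear automorphisms. -/
def ofAut {Γ : Type} [Group Γ] (fd : FiniteDimensional K V) (ρ : Γ →* LAut K V) : GRep K Γ where
  V := V
  act g := (ρ g).lin
  one := fun x => by rw [map_one]; rfl
  mul := fun g h x => by rw [map_mul]; rfl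

/-- All semi-invariant vectors are multiplied by scalars by all elements of the group. -/
def LinesStable {Γ : Type} [Group Γ] (M : GRep K Γ) : Prop :=
  ∀ x : M.V, SemiInv x → ∀ g, ∃ c : K, M.ap g x = c • x

/-- The linear map `f` is a linear combination of elements of `H`. -/
def IsCombination {Γ : Type} [Group Γ] {M N : GRep K Γ} (H : Set (Lin M N)) (f : Lin M N) : Prop :=
  ∃ (n : ℕ) (c : Fin n → K) (h : Fin n → Lin M N), (∀ i, h i ∈ H) ∧
    ∀ x, f.ev x = ∑ i, c i • (h i).ev x

end Gen

noncomputable section Rep

variable {K : Type} [Field K] [Algebra K ℂ] {F : Subfield ℂ}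

/-- The linear automorphisms of the space with complex coefficients. -/
def Aut (M : DRB K F) : Type := LAut ℂ (Cx K M.V)

instance Aut.group (M : DRB K F) : Group (Aut M) := LAut.group

/-- The image of a vector. -/
def Aut.ap {M : DRB K F} (T : Aut M) (x : Cx K M.V) : Cx K M.V := LAut.ap T x

/-- The operator `T` satisfies `T (β s) = α s` for all elements `s` of the de Rham structure. -/
def IsPeriodOp (M : DRB K F) (p : Pair K F) (T : Aut M) : Prop :=
  ∀ s ∈ M.dR, T.ap (gal p.β p.fixβ s) = gal p.α p.fixα s

theorem exists_period_op (M : DRB K F) (p : Pair K F) : ∃ T : Aut M, IsPeriodOp M p T :=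
  exists_op M p

/-- The period operator of the pair `(α, β)` on the space with complex coefficients: the linear
automorphism `T` with `T (β s) = α s` for all elements `s` of the de Rham structure. (If `M` is the
matrix of the periods, this is the operator with the matrix `α(M) β(M)⁻¹`.) -/
def op (M : DRB K F) (p : Pair K F) : Aut M := (exists_period_op M p).choose

/-- The extension of a map to the free group. -/
def liftFree {P G : Type} [Group G] (f : P → G) : FreeGroup P →* G := FreeGroup.lift f

/-- The action of the free group of the pairs by period operators. -/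
def action (M : DRB K F) : PG K F →* Aut M := liftFree (op M)

theorem Cx.fd (V : Type) [AddCommGroup V] [Module K V] [FiniteDimensional K V] :
    FiniteDimensional ℂ (Cx K V) :=
  inferInstanceAs (FiniteDimensional ℂ (ℂ ⊗[K] V))

/-- The representation of the free group of the pairs on the space with complex coefficients. -/
def rep (M : DRB K F) : GRep ℂ (PG K F) := ofAut (Cx.fd M.V) (action M)

/-- The semi-invariant vectors. -/
def semi (M : DRB K F) : Set (Cx K M.V) := {x | SemiInv (M := rep M) x}

/-- The images of the equivariant linear maps from the `U a`. -/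
def imgs {κ : Type} (U : κ → DRB K F) (M : DRB K F) : Set (Cx K M.V) :=
  {x | ∃ (a : κ) (f : Lin (rep (U a)) (rep M)) (v : (rep (U a)).V), Equivariant f ∧ x = f.ev v}

/-- A homomorphism of de Rham-Betti structures: a linear map which respects the de Rham
structures. -/
def IsHom {M N : DRB K F} (f : M.V →ₗ[K] N.V) : Prop := Respects M.dR N.dR f

end Rep

open Pool.Agent.H914 Pool.Agent.H914.VarClass Pool.Agent.H914.VarClass.Obj
  Pool.Agent.H914.WeilCohomology

variable {k : Type u} [Field k] {𝒱 : VarClass k} {ops : CycleOps 𝒱}
  {W : WeilCohomology.{u, 0} ops} [Algebra W.K ℂ] {F : Subfield ℂ}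

/-- The semi-invariant classes in the cohomology of `X` with complex coefficients. -/
def semiCl (D : DeRham W F) (X : 𝒱.Obj) : Set (Cx W.K (W.H X)) := semi (coh D X)

/-- The images of the equivariant linear maps from the `U a` to the cohomology of `Y`. -/
def imgCl (D : DeRham W F) {κ : Type} (U : κ → DRB W.K F) (Y : 𝒱.Obj) :
    Set (Cx W.K (W.H Y)) := imgs U (coh D Y)

/-- The cohomology algebra of `Y` with complex coefficients is generated by the semi-invariant
classes and by the images of equivariant linear maps from the `U a`. -/
def GeneratedBy (D : DeRham W F) {κ : Type} (U : κ → DRB W.K F) (Y : 𝒱.Obj) : Prop :=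
  Generates (semiCl D Y ∪ imgCl D U Y)

/-- The de Rham-Betti classes. -/
def periodClasses (D : DeRham W F) (P : 𝒱.Obj) : Set (W.H P) := {c | ∃ j, IsDRB D P j c}

/-- The variety `P` is generated by `V`, and its cohomology is semisimple. -/
def OfType (D : DeRham W F) (V : DRB W.K F) (P : 𝒱.Obj) : Prop :=
  GeneratedBy D (fun _ : Unit => V) P ∧ Semisimple (rep (coh D P))

/-- The product `P_1 × (P_2 × (⋯ × Z))`, where `L` is the list of the pairs `(i_a, P_a)`. -/
noncomputable def prodList {ι : Type} (L : List (ι × 𝒱.Obj)) (Z : 𝒱.Obj) : 𝒱.Obj :=
  L.foldr (fun x Y => x.2.prod Y) Z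

/-- The indices `i_a` are pairwise different and not in `E`, and the variety `P_a` is of the type
`V i_a`. -/
def Good (D : DeRham W F) {ι : Type} (V : ι → DRB W.K F) (E : Set ι) (L : List (ι × 𝒱.Obj)) :
    Prop :=
  (L.map Prod.fst).Nodup ∧ ∀ x ∈ L, x.1 ∉ E ∧ OfType D (V x.1) x.2

/-- Every semi-invariant class on `P × Y` is a linear combination of the products of the pull-backs
of semi-invariant classes on `P` and on `Y`. -/
def Kunneth (D : DeRham W F) (P Y : 𝒱.Obj) : Prop :=
  IsKunneth' (W.map (fst P Y)) (W.map (snd P Y)) (semiCl D P) (semiCl D Y) (semiCl D (P.prod Y))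

/-- Every semi-invariant class on `P` is a complex linear combination of de Rham-Betti classes. -/
def Twisted (D : DeRham W F) (P : 𝒱.Obj) : Prop := IsSpanned (semiCl D P) (periodClasses D P)

/-- There is a zero-cycle of degree different from `0`. -/
def HasPoint (W : WeilCohomology.{u, 0} ops) (P : 𝒱.Obj) : Prop :=
  PointIn (algClasses W P P.dim) (W.tr P)

/-- The Grothendieck period conjecture for `X`, in all codimensions. -/
def PeriodConjecture (D : DeRham W F) (X : 𝒱.Obj) : Prop := ∀ j, GPC D X j

/-- The Künneth formula for the semi-invariant classes, and the period conjecture, on the products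
of `Z` with varieties of the types `V i`, `i ∉ E`. -/
structure Outside (D : DeRham W F) {ι : Type} (V : ι → DRB W.K F) (Z : 𝒱.Obj) (E : Set ι) :
    Prop where
  kunneth : ∀ (i : ι) (P : 𝒱.Obj) (L : List (ι × 𝒱.Obj)), Good D V E ((i, P) :: L) →
    Kunneth D P (prodList L Z)
  periods : ∀ L : List (ι × 𝒱.Obj), Good D V E L → (∀ x ∈ L, Twisted D x.2 ∧ HasPoint W x.2) →
    HasPoint W Z →
    (PeriodConjecture D (prodList L Z) ↔
      PeriodConjecture D Z ∧ ∀ x ∈ L, PeriodConjecture D x.2)

/-- `E U` is the set of the exceptional indices with respect to the de Rham-Betti structure `U`.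

* It has the properties `Exceptional`; in particular it is finite.
* No `j ≠ i` is exceptional with respect to `V i`.
* For every variety `Z`, the number of the exceptional indices with respect to the cohomology of `Z`
  is at most one half of `b - b'`, where `b` is the sum of the Betti numbers and `b'` is the dimension
  of the span of the semi-invariant classes.
* If `Z` is generated by finitely many structures `U a` (for instance by its own cohomology), then
  the theorem `Outside` holds for the products with `Z` without indices in the `E (U a)`. -/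
structure Splitting (D : DeRham W F) {ι : Type} (V : ι → DRB W.K F) (E : DRB W.K F → Set ι) :
    Prop where
  exceptional : ∀ U, Exceptional (fun i => rep (V i)) (rep U) (E U)
  self : ∀ i, E (V i) ⊆ {i}
  variety : ∀ Z : 𝒱.Obj, 2 * (E (coh D Z)).ncard + (semiSpan (rep (coh D Z))).dim ≤
    Module.finrank W.K (W.H Z)
  outside : ∀ (m : ℕ) (U : Fin m → DRB W.K F) (Z : 𝒱.Obj), GeneratedBy D U Z →
    Outside D V Z (⋃ a, E (U a))

end Pool.Agent.N179.DB.S
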