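import Mathlib

/-!
# Pairs of automorphisms of the field of complex numbers
-/

set_option autoImplicit false

namespace Pool.Agent.N179.DB

/-- Two automorphisms of `ℂ` over `K` which agree on the subfield `F`. -/
structure Pair (K : Type) [Field K] [Algebra K ℂ] (F : Subfield ℂ) where
  /-- the first automorphism -/
  α : ℂ ≃+* ℂ
  /-- the second automorphism -/
  β : ℂ ≃+* ℂ
  fixα : ∀ r : K, α (algebraMap K ℂ r) = algebraMap K ℂ r
  fixβ : ∀ r : K, β (algebraMap K ℂ r) = algebraMap K ℂ r
  agree : ∀ x ∈ F, α x = β x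

end Pool.Agent.N179.DB
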