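import Pool.Agent.N179.DB.Two
import Pool.Agent.N179.DB.PairDefs
import Pool.Agent.Y133.Half.PerDefs

/-!
# The group generated by the period operators
-/

set_option autoImplicit false
set_option linter.unusedSectionVars false

namespace Pool.Agent.N179.DB

open Module Pool.Agent.Y133.Per

noncomputable section

/-- The free group of the pairs. -/
abbrev PG (K : Type) [Field K] [Algebra K ℂ] (F : Subfield ℂ) : Type := FreeGroup (Pair K F)

theorem twoPiI_ne : twoPiI ≠ 0 := by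
  unfold twoPiI
  exact Complex.two_pi_I_ne_zero

/-- The character `(α, β) ↦ α(2πi) / β(2πi)`. -/
def chi (K : Type) [Field K] [Algebra K ℂ] (F : Subfield ℂ) : PG K F →* ℂˣ :=
  FreeGroup.lift fun p => Units.mk0 (p.α twoPiI / p.β twoPiI)
    (div_ne_zero (by simpa using twoPiI_ne) (by simpa using twoPiI_ne))

variable {K : Type} [Field K] [Algebra K ℂ] {F : Subfield ℂ}

theorem chi_of (p : Pair K F) : (chi K F (FreeGroup.of p) : ℂ) = p.α twoPiI / p.β twoPiI := by
  rw [chi, FreeGroup.lift_apply_of]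
  rfl

theorem pg_ind {C : PG K F → Prop} (g : PG K F) (one : C 1) (of : ∀ p, C (FreeGroup.of p))
    (inv : ∀ x, C x → C x⁻¹) (mul : ∀ x y, C x → C y → C (x * y)) : C g :=
  FreeGroup.induction_on g one of (fun _ h => inv _ h) mul

/-- the automorphisms over `K` -/
def FixK (K : Type) [Field K] [Algebra K ℂ] (τ : ℂ ≃+* ℂ) : Prop :=
  ∀ r : K, τ (algebraMap K ℂ r) = algebraMap K ℂ r

/-- the subfield `K` -/
abbrev KF (K : Type) [Field K] [Algebra K ℂ] : Subfield ℂ := (algebraMap K ℂ).fieldRange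

theorem fixK_iff {τ : ℂ ≃+* ℂ} : FixK K τ ↔ ∀ x ∈ KF K, τ x = x := by
  constructor
  · rintro h _ ⟨r, rfl⟩
    exact h r
  · intro h r
    exact h _ ⟨r, rfl⟩

theorem FixK.symm {τ : ℂ ≃+* ℂ} (h : FixK K τ) : FixK K τ.symm := fun r => by
  rw [RingEquiv.symm_apply_eq, h r]

section rep

variable {V : Type*} [AddCommGroup V] [Module ℂ V] {ι κ : Type*} [Fintype ι] [Fintype κ]
  (b : Basis ι ℂ V) (e : Basis κ ℂ V)

/-- the representation of the group on a space with two bases -/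
def rho (K : Type) [Field K] [Algebra K ℂ] (F : Subfield ℂ) : PG K F →* (V ≃ₗ[ℂ] V) :=
  FreeGroup.lift fun p => P b e p.α p.β

theorem rho_of (p : Pair K F) : rho b e K F (FreeGroup.of p) = P b e p.α p.β := by
  rw [rho, FreeGroup.lift_apply_of]

theorem inv_apply' (g : PG K F) (x : V) : rho b e K F g⁻¹ (rho b e K F g x) = x := by
  rw [← LinearEquiv.mul_apply, ← map_mul, inv_mul_cancel, map_one]; rfl

theorem apply_inv' (g : PG K F) (x : V) : rho b e K F g (rho b e K F g⁻¹ x) = x := by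
  rw [← LinearEquiv.mul_apply, ← map_mul, mul_inv_cancel, map_one]; rfl

/-- the functoriality -/
theorem rho_map {V' : Type*} [AddCommGroup V'] [Module ℂ V'] {ι' κ' : Type*} [Fintype ι']
    [Fintype κ'] (b' : Basis ι' ℂ V') (e' : Basis κ' ℂ V') (f : V →ₗ[ℂ] V')
    (h1 : ∀ τ, FixK K τ → ∀ x, f (sl b τ x) = sl b' τ (f x)) (h2 : ∀ k, InF e' F (f (e k)))
    (g : PG K F) : ∀ x, f (rho b e K F g x) = rho b' e' K F g (f x) := by
  refine pg_ind (C := fun g => ∀ x, f (rho b e K F g x) = rho b' e' K F g (f x)) g (fun x => by rw [map_one, map_one]; rfl) (fun p x => ?_) (fun g hg x => ?_)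
    (fun g h hg hh x => ?_)
  · rw [rho_of, rho_of]
    have h3 : f.comp (P b e p.α p.β : V →ₗ[ℂ] V) =
        (P b' e' p.α p.β : V' →ₗ[ℂ] V').comp f := by
      refine eq_of_basis b e p.β fun k => ?_
      change f (P b e p.α p.β (sl b p.β (e k))) = P b' e' p.α p.β (f (sl b p.β (e k)))
      rw [P_basis, h1 _ p.fixα, h1 _ p.fixβ, P_inF b' e' p.agree (h2 k)]
    exact LinearMap.congr_fun h3 x
  · have h3 := hg (rho b e K F g⁻¹ x)
    rw [apply_inv'] at h3
    rw [h3, inv_apply']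
  · rw [map_mul, map_mul, LinearEquiv.mul_apply, LinearEquiv.mul_apply, hg, hh]

/-- the action of the automorphisms on the group -/
def shift {τ : ℂ ≃+* ℂ} (hτ : FixK K τ) : PG K F →* PG K F :=
  FreeGroup.map fun p => ⟨p.α.trans τ, p.β.trans τ,
    fun r => by rw [RingEquiv.coe_trans, Function.comp_apply, p.fixα, hτ],
    fun r => by rw [RingEquiv.coe_trans, Function.comp_apply, p.fixβ, hτ],
    fun x hx => by
      rw [RingEquiv.coe_trans, Function.comp_apply, RingEquiv.coe_trans, Function.comp_apply,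
        p.agree x hx]⟩

theorem shift_symm {τ : ℂ ≃+* ℂ} (hτ : FixK K τ) (g : PG K F) :
    shift hτ (shift hτ.symm g) = g := by
  have h1 : (shift (F := F) hτ).comp (shift hτ.symm) = MonoidHom.id (PG K F) := by
    refine FreeGroup.ext_hom _ _ fun p => ?_
    rw [MonoidHom.comp_apply, shift, shift, FreeGroup.map.of, FreeGroup.map.of, MonoidHom.id_apply]
    congr 1
    cases p
    congr 1 <;>
    · ext x
      simp
  exact DFunLike.congr_fun h1 g

theorem rho_shift {τ : ℂ ≃+* ℂ} (hτ : FixK K τ) (g : PG K F) :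
    ∀ x, rho b e K F (shift hτ g) (sl b τ x) = sl b τ (rho b e K F g x) := by
  refine pg_ind (C := fun g => ∀ x, rho b e K F (shift hτ g) (sl b τ x) =
    sl b τ (rho b e K F g x)) g (fun x => by rw [map_one, map_one]; rfl) (fun p x => ?_) (fun g hg x => ?_)
    (fun g h hg hh x => ?_)
  · rw [rho_of, shift, FreeGroup.map.of, rho_of]
    exact P_sl b e τ p.α p.β x
  · have h3 := hg (rho b e K F g⁻¹ x)
    rw [apply_inv'] at h3
    rw [← h3, map_inv, inv_apply']
  · rw [map_mul, map_mul, map_mul, LinearEquiv.mul_apply, LinearEquiv.mul_apply, hh, hg]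

theorem chi_shift {τ : ℂ ≃+* ℂ} (hτ : FixK K τ) (g : PG K F) :
    (chi K F (shift hτ g) : ℂ) = τ (chi K F g) := by
  refine pg_ind (C := fun g => (chi K F (shift hτ g) : ℂ) = τ (chi K F g)) g
    (by rw [map_one, map_one, Units.val_one, map_one]) (fun p => ?_) (fun g hg => ?_) (fun g h hg hh => ?_)
  · rw [chi_of, shift, FreeGroup.map.of, chi_of, map_div₀]
    rfl
  · rw [map_inv, map_inv, map_inv, Units.val_inv_eq_inv_val, Units.val_inv_eq_inv_val, hg, map_inv₀]
  · rw [map_mul, map_mul, map_mul, Units.val_mul, Units.val_mul, hg, hh, map_mul]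

theorem comap_shift {τ : ℂ ≃+* ℂ} (hτ : FixK K τ) {Δ : Subgroup (PG K F)} (hΔ : Δ.FiniteIndex) :
    (Δ.comap (shift hτ.symm)).FiniteIndex := by
  rw [Subgroup.finiteIndex_iff, Subgroup.index_comap_of_surjective]
  · exact hΔ.index_ne_zero
  · intro g
    refine ⟨shift hτ g, ?_⟩
    exact shift_symm hτ.symm g

/-- the vectors which are multiplied by the `j`-th power of the character by the elements of a
subgroup of finite index -/
def pot (K : Type) [Field K] [Algebra K ℂ] (F : Subfield ℂ) (j : ℕ) : Submodule ℂ V where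
  carrier := {z | ∃ Δ : Subgroup (PG K F), Δ.FiniteIndex ∧
    ∀ g ∈ Δ, rho b e K F g z = (chi K F g : ℂ) ^ j • z}
  zero_mem' := ⟨⊤, inferInstance, fun g _ => by rw [map_zero, smul_zero]⟩
  add_mem' := by
    rintro x y ⟨Δ, hΔ, hx⟩ ⟨Δ', hΔ', hy⟩
    exact ⟨Δ ⊓ Δ', inferInstance, fun g hg => by rw [map_add, hx g hg.1, hy g hg.2, smul_add]⟩
  smul_mem' := by
    rintro c x ⟨Δ, hΔ, hx⟩
    exact ⟨Δ, hΔ, fun g hg => by rw [map_smul, hx g hg, smul_comm]⟩

variable {b e}

theorem pot_sl {j : ℕ} {τ : ℂ ≃+* ℂ} (hτ : FixK K τ) {z : V} (hz : z ∈ pot b e K F j) :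
    sl b τ z ∈ pot b e K F j := by
  obtain ⟨Δ, hΔ, hz⟩ := hz
  refine ⟨_, comap_shift hτ hΔ, fun g hg => ?_⟩
  have h1 := rho_shift b e hτ (shift hτ.symm g) z
  rw [shift_symm, hz _ hg, sl_smul, map_pow, ← chi_shift hτ, shift_symm] at h1
  exact h1

/-- the twisted action has finite orbits -/
theorem finite_orbit {j : ℕ} {z : V} (hz : z ∈ pot b e K F j) :
    (Set.range fun g : PG K F => ((chi K F g : ℂ)⁻¹) ^ j • rho b e K F g z).Finite := by
  obtain ⟨Δ, hΔ, hz⟩ := hz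
  have hfin : Finite (PG K F ⧸ Δ) := inferInstance
  refine (Set.finite_range fun q : PG K F ⧸ Δ =>
    ((chi K F q.out : ℂ)⁻¹) ^ j • rho b e K F q.out z).subset ?_
  rintro _ ⟨g, rfl⟩
  obtain ⟨h, hh⟩ := QuotientGroup.mk_out_eq_mul Δ g
  refine ⟨(g : PG K F ⧸ Δ), ?_⟩
  have hc : (chi K F (h : PG K F) : ℂ) ≠ 0 := Units.ne_zero _
  change ((chi K F (g : PG K F ⧸ Δ).out : ℂ)⁻¹) ^ j • rho b e K F (g : PG K F ⧸ Δ).out z = _
  rw [hh, map_mul, map_mul, LinearEquiv.mul_apply, hz _ h.2, map_smul, smul_smul, Units.val_mul,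
    mul_inv, mul_pow, mul_assoc, ← mul_pow, inv_mul_cancel₀ hc, one_pow, mul_one]

/-- The rational vectors in `pot` give de Rham-Betti classes. -/
theorem inF_of_pot [IsAlgClosed F] (hKF : ∀ r : K, algebraMap K ℂ r ∈ F) {j : ℕ} {z : V}
    (hz : z ∈ pot b e K F j) (hb : InF b (KF K) z) : InF e F (twoPiI ^ j • z) := by
  intro k
  refine mem_of_finite_orbit F ?_
  refine ((finite_orbit hz).image fun v => e.repr (twoPiI ^ j • v) k).subset ?_
  rintro _ ⟨σ, hσ, rfl⟩
  let p : Pair K F := ⟨σ, RingEquiv.refl ℂ, fun r => hσ _ (hKF r), fun r => rfl, fun x hx => hσ x hx⟩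
  refine ⟨((chi K F (FreeGroup.of p)⁻¹ : ℂ)⁻¹) ^ j • rho b e K F (FreeGroup.of p)⁻¹ z,
    ⟨_, rfl⟩, ?_⟩
  have h1 := P_one_sl b e σ (twoPiI ^ j • z)
  have h2 : sl b σ (twoPiI ^ j • z) = σ twoPiI ^ j • z := by
    rw [sl_smul, map_pow, sl_eq_of_inF b σ (F := KF K) (fun x hx => ?_) hb]
    obtain ⟨r, rfl⟩ := hx
    exact hσ _ (hKF r)
  have h3 : rho b e K F (FreeGroup.of p) (sl e σ (twoPiI ^ j • z)) = σ twoPiI ^ j • z := by
    rw [rho_of, ← h2, ← h1]
  have h4 : sl e σ (twoPiI ^ j • z) = σ twoPiI ^ j • rho b e K F (FreeGroup.of p)⁻¹ z := by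
    rw [← map_smul, ← h3, inv_apply']
  change e.repr (twoPiI ^ j • ((chi K F (FreeGroup.of p)⁻¹ : ℂ)⁻¹) ^ j •
    rho b e K F (FreeGroup.of p)⁻¹ z) k = σ (e.repr (twoPiI ^ j • z) k)
  rw [← repr_sl, h4]
  congr 2
  rw [smul_smul]
  congr 1
  rw [map_inv, Units.val_inv_eq_inv_val, inv_inv, chi_of, ← mul_pow]
  congr 1
  change twoPiI * (σ twoPiI / twoPiI) = σ twoPiI
  rw [mul_div_cancel₀ _ twoPiI_ne]

/-- **Potential invariants are combinations of de Rham-Betti classes.** -/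
theorem pot_le [IsAlgClosed F] (hKF : ∀ r : K, algebraMap K ℂ r ∈ F) {j : ℕ}
    (N : Submodule ℂ V) (hN : ∀ τ, FixK K τ → ∀ x ∈ N, sl b τ x ∈ N) (hle : N ≤ pot b e K F j) :
    N ≤ Submodule.span ℂ {x | x ∈ N ∧ InF b (KF K) x ∧ InF e F (twoPiI ^ j • x)} := by
  refine (desc b (KF K) N fun τ hτ x hx => hN τ (fixK_iff.2 hτ) x hx).trans ?_
  exact Submodule.span_mono fun x hx => ⟨hx.1, hx.2, inF_of_pot hKF (hle hx.1) hx.2⟩

/-- De Rham-Betti classes are multiplied by the powers of the character. -/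
theorem rho_of_inF {j : ℕ} {z : V} (hb : InF b (KF K) z) (he : InF e F (twoPiI ^ j • z))
    (g : PG K F) : rho b e K F g z = (chi K F g : ℂ) ^ j • z := by
  refine pg_ind (C := fun g => rho b e K F g z = (chi K F g : ℂ) ^ j • z) g (by rw [map_one, map_one, Units.val_one, one_pow, one_smul]; rfl)
    (fun p => ?_) (fun g hg => ?_) (fun g h hg hh => ?_)
  · have h1 : ∀ τ : ℂ ≃+* ℂ, FixK K τ → sl b τ (twoPiI ^ j • z) = τ twoPiI ^ j • z := by
      intro τ hτ
      rw [sl_smul, map_pow, sl_eq_of_inF b τ (F := KF K) (fixK_iff.1 hτ) hb]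
    have h2 := P_inF b e p.agree he
    rw [h1 _ p.fixα, h1 _ p.fixβ, map_smul] at h2
    have h3 : p.β twoPiI ≠ 0 := by simpa using twoPiI_ne
    have h4 : P b e p.α p.β z = (p.β twoPiI ^ j)⁻¹ • p.β twoPiI ^ j • P b e p.α p.β z := by
      rw [smul_smul, inv_mul_cancel₀ (pow_ne_zero _ h3), one_smul]
    rw [rho_of, h4, h2, smul_smul, chi_of, div_pow, div_eq_mul_inv, mul_comm]
  · have h1 := inv_apply' b e g z
    rw [hg, map_smul] at h1
    have hc : (chi K F g : ℂ) ≠ 0 := Units.ne_zero _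
    rw [map_inv (chi K F), Units.val_inv_eq_inv_val, inv_pow]
    conv_rhs => rw [← h1]
    rw [smul_smul, inv_mul_cancel₀ (pow_ne_zero _ hc), one_smul]
  · rw [map_mul, map_mul, LinearEquiv.mul_apply, hh, map_smul, hg, smul_smul, Units.val_mul, mul_pow,
      mul_comm]

end rep

end

end Pool.Agent.N179.DB
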