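import Pool.Agent.N179.GR.Defs
import Pool.Agent.N179.DB.Grp

/-!
# De Rham-Betti structures, their period operators, and the varieties generated by them: definitions
-/

set_option autoImplicit false

open CategoryTheory AlgebraicGeometry TensorProduct

universe u

namespace Pool.Agent.N179.DB.S

open Pool.Agent.Y133.Per Pool.Agent.N179.DB Pool.Agent.N179.GR.S

/-- `S` is a structure over the field `F` on the complex vector space `U`: the set of the vectors
with coordinates in `F` for some basis. -/
def IsForm (F : Subfield ℂ) {U : Type} [AddCommGroup U] [Module ℂ U] (S : Set U) : Prop :=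
  ∃ (n : ℕ) (e : Module.Basis (Fin n) ℂ U), ∀ x, x ∈ S ↔ ∀ i, e.repr x i ∈ F

section

variable {K : Type} [Field K] [Algebra K ℂ]

/-- The vector space `V` with complex coefficients. -/
def Cx (K V : Type) [Field K] [Algebra K ℂ] [AddCommGroup V] [Module K V] : Type := ℂ ⊗[K] V

variable {V : Type} [AddCommGroup V] [Module K V]

noncomputable instance Cx.ac : AddCommGroup (Cx K V) := TensorProduct.addCommGroup

noncomputable instance Cx.md : Module ℂ (Cx K V) := TensorProduct.leftModule

/-- The vector `c ⊗ v`. -/
noncomputable def tens (c : ℂ) (v : V) : Cx K V := c ⊗ₜ[K] v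

/-- The automorphism `τ` as a linear map. -/
def autLin (τ : ℂ ≃+* ℂ) (h : ∀ r : K, τ (algebraMap K ℂ r) = algebraMap K ℂ r) : ℂ →ₗ[K] ℂ where
  toFun := τ
  map_add' := map_add τ
  map_smul' := fun r x => by
    rw [Algebra.smul_def, map_mul, h, ← Algebra.smul_def]
    rfl

/-- The action of the automorphism `τ` on the coefficients: `c ⊗ v ↦ τ(c) ⊗ v`. -/
noncomputable def gal (τ : ℂ ≃+* ℂ) (h : ∀ r : K, τ (algebraMap K ℂ r) = algebraMap K ℂ r)
    (x : Cx K V) : Cx K V :=
  (autLin τ h).rTensor V x

/-- `S` is a structure over the field `F` on the space with complex coefficients. -/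
def IsFormCx (F : Subfield ℂ) (S : Set (Cx K V)) : Prop := IsForm F S

end

/-- A de Rham-Betti structure: a vector space over `K` of finite dimension (for `K = ℚ`) and an
`F`-structure (for the field `F` of algebraic numbers) on the space with complex coefficients. -/
structure DRB (K : Type) [Field K] [Algebra K ℂ] (F : Subfield ℂ) where
  /-- the space -/
  V : Type
  [ac : AddCommGroup V]
  [md : Module K V]
  [fd : FiniteDimensional K V]
  /-- the de Rham structure -/
  dR : Set (Cx K V)
  form : IsFormCx F dR

attribute [instance] DRB.ac DRB.md DRB.fd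

end Pool.Agent.N179.DB.S
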