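import Pool.Agent.N179.DB.Main

/-!
# The theorem for de Rham-Betti classes: the assembly
-/

set_option autoImplicit false
set_option linter.unusedSectionVars false

open CategoryTheory AlgebraicGeometry TensorProduct

universe u

namespace Pool.Agent.N179.DB.S

open Module Pool.Agent.Y133.Per Pool.Agent.N179.DB Pool.Agent.N179.GR.S
open Pool.Agent.H914 Pool.Agent.H914.VarClass Pool.Agent.H914.VarClass.Obj
  Pool.Agent.H914.WeilCohomology Pool.Agent.TH125.Gal

variable {k : Type u} [Field k] {𝒱 : VarClass k} {ops : CycleOps 𝒱}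
  {W : WeilCohomology.{u, 0} ops} [Algebra W.K ℂ] {F : Subfield ℂ} (D : DeRham W F)

noncomputable section

theorem mem_semiCl {X : 𝒱.Obj} {x : Base W.K (W.H X)} :
    x ∈ semiCl D X ↔ (show (baseW W ℂ).H X from x) ∈ semis (var D X).act := by
  refine exists_congr fun Δ => and_congr Iff.rfl (forall₂_congr fun g _ => exists_congr fun c => ?_)
  rw [rep_act]
  rfl

theorem images_of_imgs {κ : Type} (U : κ → DRB W.K F) {X : 𝒱.Obj} {x : Base W.K (W.H X)}
    (h : x ∈ (imgs U (coh D X) : Set (Base W.K (W.H X)))) :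
    (show (baseW W ℂ).H X from x) ∈ images (K := (baseW W ℂ).K)
      (fun a => (rep (U a) : GRep (baseW W ℂ).K (PG W.K F))) (var D X).act := by
  obtain ⟨a, f, v, hf, rfl⟩ := h
  refine ⟨a, f, v, ⟨⊤, inferInstance, fun g _ y => ?_⟩, rfl⟩
  have h1 := hf g y
  rw [rep_act (coh D X)] at h1
  exact h1

theorem gen_var {κ : Type} {U : κ → DRB W.K F} {X : 𝒱.Obj} (h : GeneratedBy D U X) :
    GR.S.GeneratedBy (W := baseW W ℂ)
      (fun a => (rep (U a) : GRep (baseW W ℂ).K (PG W.K F))) (var D X) := by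
  have h1 : Algebra.adjoin (baseW W ℂ).K (semis (var D X).act ∪ images (K := (baseW W ℂ).K)
      (fun a => (rep (U a) : GRep (baseW W ℂ).K (PG W.K F))) (var D X).act) = ⊤ := by
    rw [eq_top_iff]
    have h2 : (⊤ : Subalgebra (baseW W ℂ).K ((baseW W ℂ).H X)) =
      Algebra.adjoin (baseW W ℂ).K (show Set ((baseW W ℂ).H X) from
        (semiCl D X ∪ imgs U (coh D X) : Set (Base W.K (W.H X)))) := h.symm
    refine le_trans (le_of_eq h2) (Algebra.adjoin_mono ?_)
    rintro x (hx | hx)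
    · exact Or.inl ((mem_semiCl D).1 hx)
    · exact Or.inr (images_of_imgs D U hx)
  exact h1

theorem ss_var {X : 𝒱.Obj} (h : Semisimple (rep (coh D X))) :
    Semisimple (GR.S.coh (var D X)) := by
  rw [coh_var D X]
  exact h

theorem type_var {V : DRB W.K F} {P : 𝒱.Obj} (h : OfType D V P) :
    GR.S.OfType (W := baseW W ℂ) (rep V : GRep (baseW W ℂ).K (PG W.K F)) (var D P) :=
  ⟨gen_var D h.1, ss_var D h.2⟩

theorem prodAct (P Y : 𝒱.Obj) :
    ProdAct (var D P) (var D Y) (show Acts (var D P) (var D Y) from (var D (P.prod Y)).act) :=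
  ⟨intertwines D (fst P Y), intertwines D (snd P Y)⟩

/-- the list of the varieties with an action -/
def lst {ι : Type} (L : List (ι × 𝒱.Obj)) : List (ι × GVar (baseW W ℂ) (PG W.K F)) :=
  L.map fun x => (x.1, var D x.2)

theorem tower {ι : Type} (V : ι → DRB W.K F) (Z : 𝒱.Obj) : ∀ (L : List (ι × 𝒱.Obj)),
    (L.map Prod.fst).Nodup → (∀ x ∈ L, OfType D (V x.1) x.2) →
    Tower (W := baseW W ℂ) (fun i => (rep (V i) : GRep (baseW W ℂ).K (PG W.K F))) (var D Z)
      (lst D L) (var D (prodList L Z))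
  | [], _, _ => Tower.base
  | (i, P) :: L, h1, h2 => by
    rw [List.map_cons, List.nodup_cons] at h1
    refine Tower.step i (var D P) _ (tower V Z L h1.2 fun x hx => h2 x (List.mem_cons_of_mem _ hx))
      ?_ (type_var D (h2 (i, P) List.mem_cons_self)) (prodAct D P (prodList L Z))
    intro x hx hxi
    obtain ⟨y, hy, rfl⟩ := List.mem_map.1 hx
    exact h1.1 (List.mem_map.2 ⟨y, hy, hxi⟩)

theorem kunneth_of {P Y : 𝒱.Obj} (h : KunnethSemi (W := baseW W ℂ) (var D P) (var D Y)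
    (show Acts (var D P) (var D Y) from (var D (P.prod Y)).act)) : Kunneth D P Y := by
  intro z hz
  have h1 := h z ((mem_semiCl D).1 hz)
  refine (Submodule.span_mono ?_) h1
  rintro x ⟨a, ha, b, hb, rfl⟩
  exact ⟨a, (mem_semiCl D).2 ha, b, (mem_semiCl D).2 hb, rfl⟩

theorem twisted_of {P : 𝒱.Obj} (h : Twisted D P) :
    GR.S.Twisted (W := baseW W ℂ) (ch W F) (var D P) := by
  intro z hz
  have h1 := h z ((mem_semiCl D).2 hz)
  refine (Submodule.span_mono ?_) h1
  rintro _ ⟨c, ⟨j, hc⟩, rfl⟩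
  refine ⟨j, ?_, ⊤, inferInstance, fun g _ => ?_⟩
  · exact Submodule.tmul_mem_baseChange_of_mem (1 : ℂ) hc.1
  · have h1 : InF (coh D P).b (KF W.K) (tens 1 c : Cx W.K (W.H P)) := inF_tens (coh D P).bK c
    have h2 : InF (coh D P).e F (twoPiI ^ j • (tens 1 c : Cx W.K (W.H P))) := by
      rw [← (coh D P).mem, smul_tens, mul_one]
      exact hc.2
    exact rho_of_inF (K := W.K) (b := (coh D P).b) (e := (coh D P).e) h1 h2 g

theorem point_of {P : 𝒱.Obj} (h : HasPoint W P) :
    GR.S.HasPoint (W := baseW W ℂ) (Γ := PG W.K F) (var D P) := by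
  obtain ⟨c, ⟨z, hz, rfl⟩, hc⟩ := h
  refine ⟨(tm 1 (W.cl P z) : Base W.K (W.H P)), ⟨z, hz, rfl⟩, ?_⟩
  have h1 : baseTr (W.tr P) (tm 1 (W.cl P z)) = algebraMap W.K ℂ (W.tr P (W.cl P z)) := by
    rw [baseTr_tm, one_mul]
  intro h0
  have h2 : baseTr (W.tr P) (tm 1 (W.cl P z)) = 0 := h0
  rw [h1] at h2
  exact hc ((map_eq_zero_iff _ (algebraMap W.K ℂ).injective).1 h2)

theorem dim_coh (Z : 𝒱.Obj) : dim (rep (coh D Z)) = finrank W.K (W.H Z) :=
  Module.finrank_baseChange

/-- **The theorem.** -/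
theorem split [IsAlgClosed F] {ι : Type} {V : ι → DRB W.K F}
    (hV : Family (fun i => rep (V i))) : ∃ E : DRB W.K F → Set ι, Splitting D V E := by
  obtain ⟨E, hE⟩ := GR.S.final (W := baseW W ℂ) ⟨RingEquiv.refl ℂ⟩ (ch W F)
    (V := fun i => (rep (V i) : GRep (baseW W ℂ).K (PG W.K F))) hV
  refine ⟨fun U => E (rep U), fun U => hE.exceptional (rep U), fun i => hE.self i, fun Z => ?_,
    fun m U Z hZ => ⟨fun i P L hL => ?_, fun L hL hT hZp => ?_⟩⟩
  · have h1 := hE.variety (var D Z) (traceInv D Z)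
    rw [coh_var D Z] at h1
    rw [← dim_coh D Z]
    exact h1
  · obtain ⟨h1, h2⟩ := hL
    have h3 := h1
    rw [List.map_cons, List.nodup_cons] at h3
    have hT := tower D V Z L h3.2 fun x hx => (h2 x (List.mem_cons_of_mem _ hx)).2
    refine kunneth_of D ?_
    refine (hE.outside m (fun a => rep (U a)) (var D Z) (gen_var D hZ)).semi (lst D L) _ hT ?_ i
      (var D P) _ (h2 (i, P) List.mem_cons_self).1 ?_ (type_var D (h2 (i, P) List.mem_cons_self).2)
      (prodAct D P (prodList L Z))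
    · intro x hx
      obtain ⟨y, hy, rfl⟩ := List.mem_map.1 hx
      exact (h2 y (List.mem_cons_of_mem _ hy)).1
    · intro x hx hxi
      obtain ⟨y, hy, rfl⟩ := List.mem_map.1 hx
      exact h3.1 (List.mem_map.2 ⟨y, hy, hxi⟩)
  · have hT' := tower D V Z L hL.1 fun x hx => (hL.2 x hx).2
    have h1 := (hE.outside m (fun a => rep (U a)) (var D Z) (gen_var D hZ)).tate (lst D L) _ hT'
      (by
        intro x hx
        obtain ⟨y, hy, rfl⟩ := List.mem_map.1 hx
        exact ⟨(hL.2 y hy).1, twisted_of D (hT y hy).1, point_of D (hT y hy).2⟩)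
      (point_of D hZp)
    rw [tate_iff, tate_iff] at h1
    rw [h1]
    refine and_congr Iff.rfl ⟨fun h x hx => ?_, fun h x hx => ?_⟩
    · rw [← tate_iff]
      exact h (x.1, var D x.2) (List.mem_map.2 ⟨x, hx, rfl⟩)
    · obtain ⟨y, hy, rfl⟩ := List.mem_map.1 hx
      rw [tate_iff]
      exact h y hy

end

end Pool.Agent.N179.DB.S
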