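import Pool.Agent.N179.DB.Rk2
import Pool.Agent.N179.DB.Fin

/-!
# The group generated by the period operators and de Rham-Betti structures: the dictionary
-/

set_option autoImplicit false
set_option linter.unusedSectionVars false

open CategoryTheory AlgebraicGeometry TensorProduct

namespace Pool.Agent.N179.DB.S

open Module Pool.Agent.Y133.Per Pool.Agent.N179.DB Pool.Agent.N179.GR.S

noncomputable section

variable {K : Type} [Field K] [Algebra K ℂ] {F : Subfield ℂ}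

theorem semi_all [IsAlgClosed F] (hKF : ∀ r : K, algebraMap K ℂ r ∈ F) (M : DRB K F)
    {x : Cx K M.V} (h : SemiInv (M := rep M) x) (g : PG K F) :
    ∃ c : ℂ, (rep M).ap g x = c • x := by
  have : FiniteDimensional ℂ (Cx K M.V) := Cx.fd M.V
  obtain ⟨Δ, hΔ, h⟩ := h
  have h1 : Eqv M.b M.e K F x x := by
    refine ⟨Δ, hΔ, fun g hg => ?_⟩
    obtain ⟨c, hc⟩ := h g hg
    rw [rep_act] at hc
    exact ⟨c, hc, hc⟩
  rw [rep_act]
  exact eig_all hKF h1 g

theorem semi_all_endo [IsAlgClosed F] (hKF : ∀ r : K, algebraMap K ℂ r ∈ F) (M : DRB K F)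
    {x : Cx K M.V →ₗ[ℂ] Cx K M.V} (h : SemiInv (M := endo (rep M)) x) (g : PG K F) :
    ∃ c : ℂ, (endo (rep M)).ap g x = (c • x : Cx K M.V →ₗ[ℂ] Cx K M.V) := by
  classical
  have : FiniteDimensional ℂ (Cx K M.V) := Cx.fd M.V
  have key : ∀ (g : PG K F) (x : Cx K M.V →ₗ[ℂ] Cx K M.V),
      (show Cx K M.V →ₗ[ℂ] Cx K M.V from (endo (rep M)).ap g x) =
        rho (M.b.linearMap M.b) (M.e.linearMap M.e) K F g x := by
    intro g x
    refine LinearMap.ext fun v => ?_
    rw [rho_hom' M.b M.e M.b M.e]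
    change (rep M).ap g (x ((rep M).ap g⁻¹ v)) = _
    rw [rep_act, rep_act]
  obtain ⟨Δ, hΔ, h⟩ := h
  have h1 : Eqv (M.b.linearMap M.b) (M.e.linearMap M.e) K F x x := by
    refine ⟨Δ, hΔ, fun g hg => ?_⟩
    obtain ⟨c, hc⟩ := h g hg
    have h2 := (key g x).symm.trans hc
    exact ⟨c, h2, h2⟩
  obtain ⟨c, hc⟩ := eig_all hKF h1 g
  exact ⟨c, (key g x).trans hc⟩

end

end Pool.Agent.N179.DB.S
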