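import Pool.Agent.N179.DB.Grp

/-!
# Vectors which are semi-invariant under a subgroup of finite index are semi-invariant
-/

set_option autoImplicit false
set_option linter.unusedSectionVars false

namespace Pool.Agent.N179.DB

open Module Pool.Agent.Y133.Per

noncomputable section

section Gr

variable {V : Type*} [AddCommGroup V] [Module ℂ V] {κ : Type*} [Fintype κ] (e : Basis κ ℂ V)

/-- A coordinate complement. -/
theorem exists_compl (N : Submodule ℂ V) : ∃ C : Submodule ℂ V, IsCompl N C ∧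
    ∀ σ : ℂ ≃+* ℂ, ∀ x ∈ C, sl e σ x ∈ C := by
  obtain ⟨κ', a, -, hsp, hli⟩ := exists_linearIndependent' ℂ (fun k => N.mkQ (e k))
  have htop : Submodule.span ℂ (Set.range fun k => N.mkQ (e k)) = ⊤ := by
    have h1 : (Set.range fun k => N.mkQ (e k)) = N.mkQ '' Set.range e := by
      rw [← Set.range_comp]; rfl
    rw [h1, Submodule.span_image, e.span_eq, Submodule.map_top, Submodule.range_mkQ]
  rw [htop] at hsp
  refine ⟨Submodule.span ℂ (Set.range (e ∘ a)), ⟨?_, ?_⟩, ?_⟩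
  · rw [Submodule.disjoint_def]
    intro x hxN hxC
    obtain ⟨c, rfl⟩ := (Finsupp.mem_span_range_iff_exists_finsupp).1 hxC
    have h1 : N.mkQ (c.sum fun i a_1 => a_1 • (e ∘ a) i) = 0 := by
      rw [Submodule.mkQ_apply, Submodule.Quotient.mk_eq_zero]
      exact hxN
    rw [map_finsuppSum] at h1
    have h2 : Finsupp.linearCombination ℂ ((fun k => N.mkQ (e k)) ∘ a) c = 0 := by
      rw [Finsupp.linearCombination_apply, ← h1]
      refine Finsupp.sum_congr fun i _ => ?_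
      rw [map_smul]
      rfl
    have h3 := linearIndependent_iff.1 hli c h2
    rw [h3, Finsupp.sum_zero_index]
  · rw [codisjoint_iff, eq_top_iff]
    intro x _
    have h1 : N.mkQ x ∈ (Submodule.span ℂ (Set.range (e ∘ a))).map N.mkQ := by
      rw [Submodule.map_span, ← Set.range_comp]
      have h2 : (N.mkQ ∘ e ∘ a) = (fun k => N.mkQ (e k)) ∘ a := rfl
      rw [h2, hsp]
      trivial
    obtain ⟨y, hy, hxy⟩ := h1
    rw [Submodule.mkQ_apply, Submodule.mkQ_apply] at hxy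
    have h3 : x - y ∈ N := (Submodule.Quotient.eq N).1 hxy.symm
    have h4 : x = (x - y) + y := by abel
    rw [h4]
    exact Submodule.add_mem_sup h3 hy
  · intro σ x hx
    induction hx using Submodule.span_induction with
    | mem x hx =>
      obtain ⟨i, rfl⟩ := hx
      rw [Function.comp_apply, sl_basis]
      exact Submodule.subset_span ⟨i, rfl⟩
    | zero => rw [map_zero]; exact Submodule.zero_mem _
    | add x y _ _ hx hy => rw [map_add]; exact Submodule.add_mem _ hx hy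
    | smul c x _ hx => rw [sl_smul]; exact Submodule.smul_mem _ _ hx

/-- **Subspaces with a finite orbit are stable.** -/
theorem stable_of_finite (F : Subfield ℂ) [IsAlgClosed F] (N : Submodule ℂ V)
    (S : Set (Submodule ℂ V)) (hS : S.Finite)
    (h : ∀ σ : ℂ ≃+* ℂ, (∀ x ∈ F, σ x = x) → ∃ N' ∈ S, ∀ y, y ∈ N' ↔ sl e σ.symm y ∈ N) :
    ∀ σ : ℂ ≃+* ℂ, (∀ x ∈ F, σ x = x) → ∀ x ∈ N, sl e σ x ∈ N := by
  classical
  obtain ⟨C, ⟨hdis, hcod⟩, hC⟩ := exists_compl e N
  have hex : ∀ x : V, ∃ y ∈ N, x - y ∈ C := by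
    intro x
    have hx : x ∈ N ⊔ C := by rw [codisjoint_iff.1 hcod]; trivial
    obtain ⟨y, hy, z, hz, rfl⟩ := Submodule.mem_sup.1 hx
    exact ⟨y, hy, by rwa [add_sub_cancel_left]⟩
  choose y hyN hyC using fun k => hex (e k)
  let z : κ → Submodule ℂ V → V := fun k N' =>
    if h : ∃ w ∈ N', e k - w ∈ C then h.choose else 0
  have hyF : ∀ k, InF e F (y k) := by
    intro k i
    refine mem_of_finite_orbit F ?_
    refine (hS.image fun N' => e.repr (z k N') i).subset ?_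
    rintro _ ⟨σ, hσ, rfl⟩
    obtain ⟨N', hN', hN⟩ := h σ hσ
    refine ⟨N', hN', ?_⟩
    have h1 : sl e σ (y k) ∈ N' := by
      rw [hN, sl_symm]
      exact hyN k
    have h2 : e k - sl e σ (y k) ∈ C := by
      have h3 := hC σ _ (hyC k)
      rwa [map_sub, sl_basis] at h3
    have h3 : ∃ w ∈ N', e k - w ∈ C := ⟨_, h1, h2⟩
    have h4 : z k N' = h3.choose := dif_pos h3
    have h5 : sl e σ (y k) - z k N' = 0 := by
      have h6 : sl e σ (y k) - z k N' ∈ N' := by
        rw [h4]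
        exact Submodule.sub_mem _ h1 h3.choose_spec.1
      have h7 : sl e σ (y k) - z k N' ∈ C := by
        have h8 : sl e σ (y k) - z k N' = (e k - z k N') - (e k - sl e σ (y k)) := by abel
        rw [h8, h4]
        exact Submodule.sub_mem _ h3.choose_spec.2 h2
      have h9 : sl e σ.symm (sl e σ (y k) - z k N') ∈ N := (hN _).1 h6
      have h10 : sl e σ.symm (sl e σ (y k) - z k N') ∈ C := hC _ _ h7
      have h11 := Submodule.disjoint_def.1 hdis _ h9 h10
      apply sl_inj e σ.symm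
      rw [h11, map_zero]
    change e.repr (z k N') i = σ (e.repr (y k) i)
    rw [← repr_sl, ← sub_eq_zero.1 h5]
  intro σ hσ x hx
  have h1 : x = ∑ k, e.repr x k • y k := by
    have h2 : x - ∑ k, e.repr x k • y k ∈ N :=
      Submodule.sub_mem _ hx (Submodule.sum_mem _ fun k _ => Submodule.smul_mem _ _ (hyN k))
    have h3 : x - ∑ k, e.repr x k • y k ∈ C := by
      have h4 : x - ∑ k, e.repr x k • y k = ∑ k, e.repr x k • (e k - y k) := by
        have h5 : ∑ k, e.repr x k • (e k - y k) =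
            ∑ k, e.repr x k • e k - ∑ k, e.repr x k • y k := by
          rw [← Finset.sum_sub_distrib]
          exact Finset.sum_congr rfl fun k _ => smul_sub _ _ _
        rw [h5, e.sum_repr x]
      rw [h4]
      exact Submodule.sum_mem _ fun k _ => Submodule.smul_mem _ _ (hyC k)
    exact sub_eq_zero.1 (Submodule.disjoint_def.1 hdis _ h2 h3)
  rw [h1, sl_sum]
  refine Submodule.sum_mem _ fun k _ => Submodule.smul_mem _ _ ?_
  rw [sl_eq_of_inF e σ hσ (hyF k)]
  exact hyN k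

end Gr

section rep

variable {K : Type} [Field K] [Algebra K ℂ] {F : Subfield ℂ}
  {V : Type*} [AddCommGroup V] [Module ℂ V] {ι κ : Type*} [Fintype ι] [Fintype κ]
  (b : Basis ι ℂ V) (e : Basis κ ℂ V)

/-- a subgroup of finite index acts on `x` and `y` by the same character -/
def Eqv (K : Type) [Field K] [Algebra K ℂ] (F : Subfield ℂ) (x y : V) : Prop :=
  ∃ Δ : Subgroup (PG K F), Δ.FiniteIndex ∧
    ∀ g ∈ Δ, ∃ c : ℂ, rho b e K F g x = c • x ∧ rho b e K F g y = c • y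

variable {b e}

theorem Eqv.rho {x y : V} (h : Eqv b e K F x y) (g : PG K F) :
    Eqv b e K F (rho b e K F g x) (rho b e K F g y) := by
  obtain ⟨Δ, hΔ, h⟩ := h
  refine ⟨Δ.normalCore, inferInstance, fun d hd => ?_⟩
  have h1 : g⁻¹ * d * g ∈ Δ := by
    have h2 := (inferInstance : Δ.normalCore.Normal).conj_mem d hd g⁻¹
    rw [inv_inv] at h2
    exact Subgroup.normalCore_le _ h2
  obtain ⟨c, hx, hy⟩ := h _ h1
  refine ⟨c, ?_, ?_⟩
  · rw [← map_smul, ← hx, map_mul, map_mul, LinearEquiv.mul_apply, LinearEquiv.mul_apply, apply_inv']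
  · rw [← map_smul, ← hy, map_mul, map_mul, LinearEquiv.mul_apply, LinearEquiv.mul_apply, apply_inv']

theorem Eqv.sl {x y : V} (h : Eqv b e K F x y) {τ : ℂ ≃+* ℂ} (hτ : FixK K τ) :
    Eqv b e K F (sl b τ x) (sl b τ y) := by
  obtain ⟨Δ, hΔ, h⟩ := h
  refine ⟨_, comap_shift hτ hΔ, fun d hd => ?_⟩
  obtain ⟨c, hx, hy⟩ := h _ hd
  have h1 := rho_shift b e hτ (shift hτ.symm d) x
  have h2 := rho_shift b e hτ (shift hτ.symm d) y
  rw [shift_symm, hx, sl_smul] at h1
  rw [shift_symm, hy, sl_smul] at h2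
  exact ⟨τ c, h1, h2⟩

theorem Eqv.symm {x y : V} (h : Eqv b e K F x y) : Eqv b e K F y x := by
  obtain ⟨Δ, hΔ, h⟩ := h
  exact ⟨Δ, hΔ, fun d hd => (h d hd).imp fun c hc => ⟨hc.2, hc.1⟩⟩

theorem Eqv.trans {x y z : V} (hy : y ≠ 0) (h : Eqv b e K F x y) (h' : Eqv b e K F y z) :
    Eqv b e K F x z := by
  obtain ⟨Δ, hΔ, h⟩ := h
  obtain ⟨Δ', hΔ', h'⟩ := h'
  refine ⟨Δ ⊓ Δ', inferInstance, fun d hd => ?_⟩
  obtain ⟨c, h1, h2⟩ := h d hd.1
  obtain ⟨c', h3, h4⟩ := h' d hd.2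
  have h5 : (c - c') • y = 0 := by rw [sub_smul, ← h2, ← h3, sub_self]
  rcases smul_eq_zero.1 h5 with h6 | h6
  · obtain rfl := sub_eq_zero.1 h6
    exact ⟨c, h1, h4⟩
  · exact absurd h6 hy

/-- the vectors with the same character as `x` -/
def NN (K : Type) [Field K] [Algebra K ℂ] (F : Subfield ℂ) {x : V} (hx : x ≠ 0)
    (h : Eqv b e K F x x) : Submodule ℂ V where
  carrier := {y | Eqv b e K F x y}
  zero_mem' := by
    obtain ⟨Δ, hΔ, h⟩ := h
    exact ⟨Δ, hΔ, fun g hg => (h g hg).imp fun c hc => ⟨hc.1, by rw [map_zero, smul_zero]⟩⟩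
  add_mem' := by
    rintro y z ⟨Δ, hΔ, hy⟩ ⟨Δ', hΔ', hz⟩
    refine ⟨Δ ⊓ Δ', inferInstance, fun d hd => ?_⟩
    obtain ⟨c, h1, h2⟩ := hy d hd.1
    obtain ⟨c', h3, h4⟩ := hz d hd.2
    have h5 : (c - c') • x = 0 := by rw [sub_smul, ← h1, ← h3, sub_self]
    rcases smul_eq_zero.1 h5 with h6 | h6
    · obtain rfl := sub_eq_zero.1 h6
      exact ⟨c, h1, by rw [map_add, h2, h4, smul_add]⟩
    · exact absurd h6 hx
  smul_mem' := by
    rintro a y ⟨Δ, hΔ, hy⟩
    exact ⟨Δ, hΔ, fun d hd => (hy d hd).imp fun c hc =>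
      ⟨hc.1, by rw [map_smul, hc.2, smul_comm]⟩⟩

theorem mem_NN {x : V} {hx : x ≠ 0} {h : Eqv b e K F x x} {y : V} :
    y ∈ NN K F hx h ↔ Eqv b e K F x y := Iff.rfl

variable (b e) in
/-- there are finitely many subspaces `NN` -/
theorem finite_NN [FiniteDimensional ℂ V] : {N : Submodule ℂ V | ∃ (x : V) (hx : x ≠ 0)
    (h : Eqv b e K F x x), N = NN K F hx h}.Finite := by
  classical
  obtain ⟨B, hBS, hsp, hli⟩ := exists_linearIndependent ℂ {x | Eqv b e K F x x}
  have hfin : Finite B := hli.finite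
  have hB0 : ∀ y : B, (y : V) ≠ 0 := fun y => hli.ne_zero y
  refine (Set.finite_range fun y : B => NN K F (hB0 y) (hBS y.2)).subset ?_
  rintro _ ⟨x, hx, h, rfl⟩
  have _ : Fintype B := Fintype.ofFinite B
  have hxB : x ∈ Submodule.span ℂ (Set.range ((↑) : B → V)) := by
    rw [Subtype.range_coe, hsp]
    exact Submodule.subset_span h
  obtain ⟨a, ha⟩ := (Submodule.mem_span_range_iff_exists_fun ℂ).1 hxB
  obtain ⟨y, hy⟩ : ∃ y, a y ≠ 0 := by
    by_contra hcon
    push Not at hcon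
    apply hx
    rw [← ha]
    exact Finset.sum_eq_zero fun y _ => by rw [hcon y, zero_smul]
  have hxy : Eqv b e K F x (y : V) := by
    obtain ⟨Δ, hΔ, hxx⟩ := h
    choose Δ' hΔ' hyy using fun y : B => hBS y.2
    have hinf : (Δ ⊓ ⨅ y, Δ' y).FiniteIndex := by
      have : (⨅ y, Δ' y).FiniteIndex := by
        refine Subgroup.finiteIndex_iInf fun y => hΔ' y
      infer_instance
    refine ⟨_, hinf, fun d hd => ?_⟩
    obtain ⟨c, hc, -⟩ := hxx d hd.1
    choose c' hc' _ using fun y => hyy y d (Subgroup.mem_iInf.1 hd.2 y)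
    have h1 : ∑ y, (a y * (c' y - c)) • (y : V) = 0 := by
      have h2 : rho b e K F d x = ∑ y, (a y * c' y) • (y : V) := by
        rw [← ha, map_sum]
        refine Finset.sum_congr rfl fun y _ => ?_
        rw [map_smul, hc', smul_smul]
      have h3 : c • x = ∑ y, (a y * c) • (y : V) := by
        rw [← ha, Finset.smul_sum]
        refine Finset.sum_congr rfl fun y _ => ?_
        rw [smul_smul, mul_comm]
      rw [h2, h3] at hc
      have h4 : ∀ y, (a y * (c' y - c)) • (y : V) = (a y * c' y) • (y : V) - (a y * c) • (y : V) :=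
        fun y => by rw [← sub_smul, mul_sub]
      rw [Finset.sum_congr rfl fun y _ => h4 y, Finset.sum_sub_distrib, hc, sub_self]
    have h2 := Fintype.linearIndependent_iff.1 hli _ h1 y
    rcases mul_eq_zero.1 h2 with h3 | h3
    · exact absurd h3 hy
    · exact ⟨c, hc, by rw [hc', sub_eq_zero.1 h3]⟩
  refine ⟨y, ?_⟩
  ext z
  exact ⟨fun hz => hxy.trans (hB0 y) hz, fun hz => hxy.symm.trans hx hz⟩

variable [FiniteDimensional ℂ V] [IsAlgClosed F] (hKF : ∀ r : K, algebraMap K ℂ r ∈ F)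

include hKF

theorem fixK_of_fixF {σ : ℂ ≃+* ℂ} (hσ : ∀ x ∈ F, σ x = x) : FixK K σ := fun r => hσ _ (hKF r)

/-- the pair `(σ, 1)` -/
def one1 {σ : ℂ ≃+* ℂ} (hσ : ∀ x ∈ F, σ x = x) : Pair K F :=
  ⟨σ, RingEquiv.refl ℂ, fixK_of_fixF hKF hσ, fun _ => rfl, hσ⟩

theorem rho_one1 {σ : ℂ ≃+* ℂ} (hσ : ∀ x ∈ F, σ x = x) (x : V) :
    rho b e K F (FreeGroup.of (one1 hKF hσ)) (sl e σ x) = sl b σ x := by
  rw [rho_of]
  exact P_one_sl b e σ x

theorem sl_e_eq {σ : ℂ ≃+* ℂ} (hσ : ∀ x ∈ F, σ x = x) (x : V) :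
    sl e σ x = rho b e K F (FreeGroup.of (one1 hKF hσ))⁻¹ (sl b σ x) := by
  rw [← rho_one1 (b := b) (e := e) hKF hσ, inv_apply']

theorem fix_symm {σ : ℂ ≃+* ℂ} (hσ : ∀ x ∈ F, σ x = x) : ∀ x ∈ F, σ.symm x = x := fun x hx => by
  rw [RingEquiv.symm_apply_eq, hσ x hx]

theorem NN_b {x : V} {hx : x ≠ 0} {h : Eqv b e K F x x} :
    ∀ σ : ℂ ≃+* ℂ, (∀ x ∈ F, σ x = x) → ∀ y ∈ NN K F hx h, sl b σ y ∈ NN K F hx h := by
  refine stable_of_finite b F _ _ (finite_NN b e (K := K) (F := F)) fun σ hσ => ?_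
  have hσK := fixK_of_fixF (K := K) hKF hσ
  have h0 : sl b σ x ≠ 0 := fun h0 => hx (sl_inj b σ (by rw [h0, map_zero]))
  refine ⟨NN K F h0 (h.sl hσK), ⟨_, h0, _, rfl⟩, fun y => ?_⟩
  rw [mem_NN, mem_NN]
  constructor
  · intro h1
    have h2 := h1.sl hσK.symm
    rwa [sl_symm] at h2
  · intro h1
    have h2 := h1.sl hσK
    rwa [sl_symm'] at h2

theorem NN_e {x : V} {hx : x ≠ 0} {h : Eqv b e K F x x} :
    ∀ σ : ℂ ≃+* ℂ, (∀ x ∈ F, σ x = x) → ∀ y ∈ NN K F hx h, sl e σ y ∈ NN K F hx h := by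
  refine stable_of_finite e F _ _ (finite_NN b e (K := K) (F := F)) fun σ hσ => ?_
  have key : ∀ {τ : ℂ ≃+* ℂ} (hτ : ∀ x ∈ F, τ x = x) {y z : V}, Eqv b e K F y z →
      Eqv b e K F (sl e τ y) (sl e τ z) := by
    intro τ hτ y z hyz
    rw [sl_e_eq (b := b) (e := e) hKF hτ y, sl_e_eq (b := b) (e := e) hKF hτ z]
    exact (hyz.sl (fixK_of_fixF hKF hτ)).rho _
  have h0 : sl e σ x ≠ 0 := fun h0 => hx (sl_inj e σ (by rw [h0, map_zero]))
  refine ⟨NN K F h0 (key hσ h), ⟨_, h0, _, rfl⟩, fun y => ?_⟩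
  rw [mem_NN, mem_NN]
  constructor
  · intro h1
    have h2 := key (fix_symm hKF hσ) h1
    rwa [sl_symm] at h2
  · intro h1
    have h2 := key hσ h1
    rwa [sl_symm'] at h2

/-- the operator `(σ, 1)` respects the lines of the semi-invariant vectors which are rational
over `F` -/
theorem line_of_inF {y : V} (h : Eqv b e K F y y) (hy : InF b F y) {σ : ℂ ≃+* ℂ}
    (hσ : ∀ x ∈ F, σ x = x) :
    ∃ c : ℂ, rho b e K F (FreeGroup.of (one1 hKF hσ)) y = c • y := by
  have hfin : (Set.range fun g : PG K F => Submodule.span ℂ {rho b e K F g y}).Finite := by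
    obtain ⟨Δ, hΔ, hz⟩ := h
    have hfin : Finite (PG K F ⧸ Δ) := inferInstance
    refine (Set.finite_range fun q : PG K F ⧸ Δ =>
      Submodule.span ℂ {rho b e K F q.out y}).subset ?_
    rintro _ ⟨g, rfl⟩
    obtain ⟨d, hd⟩ := QuotientGroup.mk_out_eq_mul Δ g
    refine ⟨(g : PG K F ⧸ Δ), ?_⟩
    obtain ⟨c, hc, -⟩ := hz _ d.2
    have hcy : c ≠ 0 ∨ y = 0 := by
      by_contra hcon
      push Not at hcon
      rw [hcon.1, zero_smul] at hc
      exact hcon.2 ((rho b e K F (d : PG K F)).map_eq_zero_iff.1 hc)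
    change Submodule.span ℂ {rho b e K F (g : PG K F ⧸ Δ).out y} = _
    rw [hd, map_mul, LinearEquiv.mul_apply, hc, map_smul]
    rcases hcy with hc0 | rfl
    · exact Submodule.span_singleton_smul_eq (IsUnit.mk0 c hc0) _
    · rw [map_zero, smul_zero]
      simp
  have h1 := stable_of_finite e F (Submodule.span ℂ {y}) _ hfin (fun σ hσ => by
    refine ⟨_, ⟨(FreeGroup.of (one1 hKF hσ))⁻¹, rfl⟩, fun w => ?_⟩
    have h2 : rho b e K F (FreeGroup.of (one1 hKF hσ))⁻¹ y = sl e σ y := by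
      rw [sl_e_eq (b := b) hKF hσ, sl_eq_of_inF b σ hσ hy]
    change w ∈ Submodule.span ℂ {rho b e K F (FreeGroup.of (one1 hKF hσ))⁻¹ y} ↔ _
    rw [h2, Submodule.mem_span_singleton, Submodule.mem_span_singleton]
    constructor
    · rintro ⟨c, rfl⟩
      exact ⟨σ.symm c, by rw [sl_smul, sl_symm]⟩
    · rintro ⟨c, hc⟩
      refine ⟨σ c, ?_⟩
      rw [← sl_smul, hc, sl_symm'])
  have h2 := h1 σ hσ y (Submodule.mem_span_singleton_self y)
  obtain ⟨c, hc⟩ := Submodule.mem_span_singleton.1 h2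
  rw [sl_e_eq (b := b) hKF hσ, sl_eq_of_inF b σ hσ hy] at hc
  by_cases hy0 : y = 0
  · exact ⟨0, by rw [hy0, map_zero, smul_zero]⟩
  have hc0 : c ≠ 0 := by
    rintro rfl
    rw [zero_smul] at hc
    exact hy0 ((rho b e K F (FreeGroup.of (one1 hKF hσ))⁻¹).map_eq_zero_iff.1 hc.symm)
  refine ⟨c⁻¹, ?_⟩
  have h3 := apply_inv' b e (FreeGroup.of (one1 hKF hσ)) y
  rw [← hc, map_smul] at h3
  rw [← h3, smul_smul, h3, inv_mul_cancel₀ hc0, one_smul]

theorem eig_one1 {x : V} (h : Eqv b e K F x x) {σ : ℂ ≃+* ℂ} (hσ : ∀ x ∈ F, σ x = x) :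
    ∃ c : ℂ, rho b e K F (FreeGroup.of (one1 hKF hσ)) x = c • x := by
  by_cases hx : x = 0
  · exact ⟨0, by rw [hx, map_zero, smul_zero]⟩
  -- the rational vectors span
  have h1 := desc b F (NN K F hx h) (NN_b hKF)
  set g := FreeGroup.of (one1 hKF hσ) with hg
  set S : Set V := {x_1 | x_1 ∈ NN K F hx h ∧ InF b F x_1} with hS
  have hself : ∀ y ∈ S, Eqv b e K F y y := by
    intro y hy
    have h2 : Eqv b e K F x y := hy.1
    obtain ⟨Δ, hΔ, h2⟩ := h2
    exact ⟨Δ, hΔ, fun d hd => (h2 d hd).imp fun c hc => ⟨hc.2, hc.2⟩⟩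
  have hev : ∀ y ∈ S, ∃ c : ℂ, rho b e K F g y = c • y := fun y hy =>
    line_of_inF hKF (hself y hy) hy.2 hσ
  have hadd : ∀ y ∈ S, ∀ z ∈ S, y + z ∈ S := fun y hy z hz =>
    ⟨Submodule.add_mem _ hy.1 hz.1, hy.2.add hz.2⟩
  -- one scalar
  obtain ⟨y₀, hy₀, hy₀0⟩ : ∃ y ∈ S, y ≠ 0 := by
    by_contra hcon
    push Not at hcon
    apply hx
    have h2 : Submodule.span ℂ S ≤ ⊥ := Submodule.span_le.2 fun y hy => by
      rw [hcon y hy]; exact Submodule.zero_mem _
    exact (Submodule.mem_bot ℂ).1 (h2 (h1 (show Eqv b e K F x x from h)))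
  obtain ⟨c, hc⟩ := hev y₀ hy₀
  have hall : ∀ y ∈ S, rho b e K F g y = c • y := by
    intro y hy
    obtain ⟨c', hc'⟩ := hev y hy
    obtain ⟨c'', hc''⟩ := hev _ (hadd y hy y₀ hy₀)
    rw [map_add, hc, hc', smul_add] at hc''
    by_cases hli : LinearIndependent ℂ ![y, y₀]
    · have h2 : (c' - c'') • y + (c - c'') • y₀ = 0 := by
        rw [sub_smul, sub_smul]
        have h3 : c' • y + c • y₀ - (c'' • y + c'' • y₀) = 0 := sub_eq_zero.2 hc''
        rw [← h3]
        abel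
      have h3 := LinearIndependent.pair_iff.1 hli _ _ h2
      rw [hc', sub_eq_zero.1 h3.1, sub_eq_zero.1 h3.2]
    · rw [LinearIndependent.pair_iff] at hli
      push Not at hli
      obtain ⟨s, t, hst, hne⟩ := hli
      by_cases hs : s = 0
      · exfalso
        rw [hs, zero_smul, zero_add] at hst
        rcases smul_eq_zero.1 hst with h4 | h4
        · exact hne hs h4
        · exact hy₀0 h4
      · have h4 : y = (-(s⁻¹ * t)) • y₀ := by
          have h5 : s • y = -(t • y₀) := eq_neg_of_add_eq_zero_left hst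
          have h6 : y = s⁻¹ • s • y := by rw [smul_smul, inv_mul_cancel₀ hs, one_smul]
          rw [h6, h5, smul_neg, smul_smul, neg_smul]
        rw [h4, map_smul, hc, smul_comm]
  refine ⟨c, ?_⟩
  have h2 : Submodule.span ℂ S ≤
      LinearMap.ker ((rho b e K F g : V →ₗ[ℂ] V) - c • LinearMap.id) := by
    refine Submodule.span_le.2 fun y hy => ?_
    rw [SetLike.mem_coe, LinearMap.mem_ker, LinearMap.sub_apply, LinearMap.smul_apply,
      LinearMap.id_apply, sub_eq_zero]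
    exact hall y hy
  have h3 := h2 (h1 (show Eqv b e K F x x from h))
  rw [LinearMap.mem_ker, LinearMap.sub_apply, LinearMap.smul_apply, LinearMap.id_apply,
    sub_eq_zero] at h3
  exact h3

/-- **Semi-invariant vectors for subgroups of finite index are semi-invariant.** -/
theorem eig_all {x : V} (h : Eqv b e K F x x) (g : PG K F) :
    ∃ c : ℂ, rho b e K F g x = c • x := by
  refine pg_ind (C := fun g => ∃ c : ℂ, rho b e K F g x = c • x) g
    ⟨1, by rw [map_one, one_smul]; rfl⟩ (fun p => ?_) (fun g hg => ?_) (fun g g' hg hg' => ?_)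
  · have hσ : ∀ x ∈ F, (p.α.trans p.β.symm) x = x := fun x hx => by
      rw [RingEquiv.coe_trans, Function.comp_apply, p.agree x hx, RingEquiv.symm_apply_apply]
    have hβ : FixK K p.β := p.fixβ
    obtain ⟨c, hc⟩ := eig_one1 hKF (h.sl hβ.symm) hσ
    refine ⟨p.β c, ?_⟩
    have h1 := P_sl b e p.β (p.α.trans p.β.symm) (RingEquiv.refl ℂ) (sl b p.β.symm x)
    rw [rho_of] at hc
    have h2 : P b e (one1 hKF hσ).α (one1 hKF hσ).β (sl b p.β.symm x) =
      P b e (p.α.trans p.β.symm) (RingEquiv.refl ℂ) (sl b p.β.symm x) := rfl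
    rw [h2] at hc
    rw [hc, sl_smul, sl_symm'] at h1
    rw [rho_of]
    have h3 : (p.α.trans p.β.symm).trans p.β = p.α := by
      ext x; simp
    have h4 : (RingEquiv.refl ℂ).trans p.β = p.β := by
      ext x; simp
    rw [h3, h4] at h1
    exact h1
  · obtain ⟨c, hc⟩ := hg
    by_cases hx : x = 0
    · exact ⟨0, by rw [hx, map_zero, smul_zero]⟩
    have hc0 : c ≠ 0 := by
      rintro rfl
      rw [zero_smul] at hc
      exact hx ((rho b e K F g).map_eq_zero_iff.1 hc)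
    refine ⟨c⁻¹, ?_⟩
    have h3 := inv_apply' b e g x
    rw [hc, map_smul] at h3
    conv_rhs => rw [← h3]
    rw [smul_smul, inv_mul_cancel₀ hc0, one_smul]
  · obtain ⟨c, hc⟩ := hg
    obtain ⟨c', hc'⟩ := hg'
    exact ⟨c' * c, by rw [map_mul, LinearEquiv.mul_apply, hc', map_smul, hc, smul_smul]⟩

end rep

end

end Pool.Agent.N179.DB
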