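import Pool.Agent.N179.DB.EllForm

/-!
# The de Rham-Betti structures of elliptic curves
-/

set_option autoImplicit false

namespace Pool.Agent.N179.DB.S

open Pool.Agent.Y102

variable (K : Type) [Field K] [Algebra K ℂ] (A : AbVar 1)

theorem form_ell : IsFormCx QF (dREll K A) := form_ell0 K A

/-- The de Rham-Betti structure of the elliptic curve: the vector space with the two coordinates
given by the basis of the lattice of periods, with the de Rham structure given by the
differential forms. -/
noncomputable def ell : DRB K QF where
  V := Fin 2 → K
  dR := dREll K A
  form := form_ell K A

end Pool.Agent.N179.DB.S
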