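import Pool.Agent.N179.DB.Rk2
import Pool.Agent.N179.DB.EllStr

/-!
# The de Rham-Betti structures of elliptic curves
-/

set_option autoImplicit false
set_option linter.unusedSectionVars false

open CategoryTheory AlgebraicGeometry TensorProduct

namespace Pool.Agent.N179.DB.S

open Module Pool.Agent.Y133.Per Pool.Agent.N179.DB Pool.Agent.N179.GR.S Pool.Agent.N179.DB.Rk
open Pool.Agent.Y102

noncomputable section

section det

variable {K : Type} [Field K] [Algebra K ℂ] {F : Subfield ℂ}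
variable {V : Type*} [AddCommGroup V] [Module ℂ V] {ι : Type*} [Fintype ι] [DecidableEq ι]
  (b e : Basis ι ℂ V)

theorem det_mv (τ : ℂ ≃+* ℂ) : b.det (mv b e τ) = τ (b.det e) := by
  rw [Basis.det_apply, Basis.det_apply]
  have h1 : b.toMatrix (mv b e τ) = (b.toMatrix e).map τ := by
    ext i j
    rw [Basis.toMatrix_apply, Matrix.map_apply, Basis.toMatrix_apply, mv_apply, repr_sl]
  rw [h1]
  exact (RingHom.map_det (τ : ℂ →+* ℂ) (b.toMatrix e)).symm

theorem det_P (α β : ℂ ≃+* ℂ) :
    LinearMap.det (P b e α β : V →ₗ[ℂ] V) = α (b.det e) / β (b.det e) := by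
  have h1 := Basis.det_comp b (P b e α β : V →ₗ[ℂ] V) (mv b e β)
  have h2 : ((P b e α β : V →ₗ[ℂ] V) ∘ (mv b e β)) = mv b e α := by
    funext k
    rw [Function.comp_apply, mv_apply, mv_apply]
    exact P_basis b e α β k
  rw [h2, det_mv, det_mv] at h1
  have h3 : b.det e ≠ 0 := (Basis.isUnit_det b e).ne_zero
  rw [h1, mul_div_cancel_right₀]
  simpa using h3

/-- the determinant of the period operators -/
theorem det_rho {c : ℂ} (hc : c ∈ KF K) (h : b.det e = c * twoPiI) (g : PG K F) :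
    LinearMap.det (rho b e K F g : V →ₗ[ℂ] V) = chi K F g := by
  refine pg_ind (C := fun g => LinearMap.det (rho b e K F g : V →ₗ[ℂ] V) = chi K F g) g ?_
    (fun p => ?_) (fun g hg => ?_) (fun g g' hg hg' => ?_)
  · rw [map_one, map_one, Units.val_one]
    exact LinearMap.det_id
  · rw [rho_of, det_P, chi_of, h, map_mul, map_mul, fixK_iff.1 p.fixα c hc,
      fixK_iff.1 p.fixβ c hc, mul_div_mul_left]
    rintro rfl
    rw [zero_mul] at h
    exact (Basis.isUnit_det b e).ne_zero h
  · have h1 : ((rho b e K F g⁻¹ : V ≃ₗ[ℂ] V) : V →ₗ[ℂ] V) ∘ₗ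
        ((rho b e K F g : V ≃ₗ[ℂ] V) : V →ₗ[ℂ] V) = LinearMap.id :=
      LinearMap.ext fun x => inv_apply' b e g x
    have h2 := congrArg LinearMap.det h1
    rw [LinearMap.det_comp, hg, LinearMap.det_id] at h2
    rw [map_inv (chi K F), Units.val_inv_eq_inv_val]
    exact eq_inv_of_mul_eq_one_left h2
  · rw [map_mul, map_mul, Units.val_mul, ← hg, ← hg', ← LinearMap.det_comp]
    rfl

end det

variable (K : Type) [Field K] [Algebra K ℂ] (A : AbVar 1)

/-- the determinant of the periods -/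
theorem legendre' : ∃ n : ℤ, om A 0 * et A 1 - om A 1 * et A 0 = n * twoPiI := by
  obtain ⟨n, hn⟩ := A.legendre 0 1
  have h0 : ∀ (i : Fin (2 * 1)) (k : Fin 1),
      (∑ j, (A.lam.repr (A.lam i) j : ℂ) * A.η j k) = A.η i k := by
    intro i k
    rw [Finset.sum_eq_single i]
    · rw [A.lam.repr_self, Finsupp.single_eq_same]
      simp
    · intro j _ hj
      rw [A.lam.repr_self, Finsupp.single_eq_of_ne hj]
      simp
    · intro h
      exact absurd (Finset.mem_univ _) h
  unfold riemannForm at hn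
  rw [Finset.univ_unique, Finset.sum_singleton, h0, h0,
    div_eq_iff Complex.two_pi_I_ne_zero] at hn
  refine ⟨-n, ?_⟩
  have h1 : (A.η 0 default * A.lam 1 default - A.η 1 default * A.lam 0 default : ℂ) =
      et A 0 * om A 1 - et A 1 * om A 0 := rfl
  rw [h1] at hn
  push_cast
  have h2 : twoPiI = 2 * Real.pi * Complex.I := rfl
  rw [h2]
  linear_combination -hn

theorem det_e0 : ∃ c ∈ KF K, (bx (b0 K)).det (e0 K A) = c * twoPiI := by
  obtain ⟨n, hn⟩ := legendre' A
  refine ⟨n, ⟨n, by simp⟩, ?_⟩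
  rw [Basis.det_apply, Matrix.det_fin_two]
  simp only [Basis.toMatrix_apply, e0_zero, e0_one, repr_vec]
  rw [← hn]
  ring

theorem det_ell (g : PG K QF) : LinearMap.det ((rep (ell K A)).act g) = chi K QF g := by
  obtain ⟨c, hc, h⟩ := det_e0 K A
  have h1 := det_rho (F := QF) (bx (b0 K)) (e0 K A) hc h g
  have h2 := action_eq' (M := ell K A) (b0 K) (e0 K A) (mem_e0 K A)
  have h3 : act0 (ell K A) g = rho (bx (b0 K)) (e0 K A) K QF g := DFunLike.congr_fun h2 g
  exact (congrArg (fun T : Cx K (Fin 2 → K) ≃ₗ[ℂ] Cx K (Fin 2 → K) =>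
    LinearMap.det T.toLinearMap) h3).trans h1

end

end Pool.Agent.N179.DB.S
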