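import Pool.Agent.N179.DB.PubDefs

/-!
# Elliptic curves without complex multiplication
-/

set_option autoImplicit false
set_option linter.unusedSectionVars false

open CategoryTheory AlgebraicGeometry TensorProduct

namespace Pool.Agent.N179.DB.S

open Module Pool.Agent.Y133.Per Pool.Agent.N179.DB Pool.Agent.N179.GR.S Pool.Agent.N179.DB.Rk
open Pool.Agent.Y102 Pool.Agent.W516.DR

noncomputable section

theorem per_eq (A : AbVar 1) (w : A.H1) : A.per w 0 = ∑ k, (w k : ℂ) * om A k := by
  rw [AbVar.per_apply, Finset.sum_apply]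
  refine Finset.sum_congr rfl fun k _ => ?_
  rw [Pi.smul_apply, Rat.smul_def]
  rfl

theorem eta_eq (A : AbVar 1) (w : A.H1) : A.eta w 0 = ∑ k, (w k : ℂ) * et A k := by
  rw [AbVar.eta_apply, Finset.sum_apply]
  refine Finset.sum_congr rfl fun k _ => ?_
  rw [Pi.smul_apply, Rat.smul_def]
  rfl

theorem per_inj (A : AbVar 1) {w : A.H1} (h : ∑ k, (w k : ℂ) * om A k = 0) : w = 0 := by
  have h1 : ∑ k, (w k : ℝ) • A.lam k = 0 := by
    funext i
    obtain rfl : i = 0 := Subsingleton.elim _ _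
    rw [Finset.sum_apply, Pi.zero_apply, ← h]
    refine Finset.sum_congr rfl fun k _ => ?_
    rw [Pi.smul_apply, Complex.real_smul, Complex.ofReal_ratCast]
    rfl
  funext k
  have h2 := Fintype.linearIndependent_iff.1 A.lam.linearIndependent _ h1 k
  exact_mod_cast h2

/-- **A line in the homology is not a de Rham-Betti substructure.** -/
theorem no_line (A : AbVar 1) {w : A.H1} (hw : w ≠ 0) {a b : ℂ} (ha : a ∈ QF) (hb : b ∈ QF)
    (h : a * ∑ k, (w k : ℂ) * om A k + b * ∑ k, (w k : ℂ) * et A k = 0) : a = 0 ∧ b = 0 := by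
  have h0 : ∑ k, (w k : ℂ) * om A k ≠ 0 := fun h0 => hw (per_inj A h0)
  by_cases hb0 : b = 0
  · refine ⟨?_, hb0⟩
    rw [hb0, zero_mul, add_zero] at h
    exact (mul_eq_zero.1 h).resolve_right h0
  exfalso
  let U : Submodule ℚ A.H1 := Submodule.span ℚ {w}
  have hU : finrank ℚ U = 1 := finrank_span_singleton hw
  let f : Fin 1 ⊕ Fin 1 → U → ℂ := fun i u => A.dR i u
  have hf0 : f (Sum.inl 0) ≠ 0 := by
    intro hf
    have h1 := congrFun hf ⟨w, Submodule.mem_span_singleton_self w⟩
    apply h0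
    rw [← per_eq]
    exact h1
  -- the second function is a multiple of the first one
  have hf1 : f (Sum.inr 0) = (⟨-(b⁻¹ * a), neg_mem (mul_mem (inv_mem hb) ha)⟩ : QBar) •
      f (Sum.inl 0) := by
    funext u
    obtain ⟨r, hr⟩ := Submodule.mem_span_singleton.1 u.2
    have h1 : (f (Sum.inl 0) u : ℂ) = r * ∑ k, (w k : ℂ) * om A k := by
      rw [← per_eq]
      change A.per (u : A.H1) 0 = _
      rw [← hr, map_smul, Pi.smul_apply, Rat.smul_def]
    have h2 : (f (Sum.inr 0) u : ℂ) = r * ∑ k, (w k : ℂ) * et A k := by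
      rw [← eta_eq]
      change A.eta (u : A.H1) 0 = _
      rw [← hr, map_smul, Pi.smul_apply, Rat.smul_def]
    rw [Pi.smul_apply, Algebra.smul_def, h1, h2]
    change _ = -(b⁻¹ * a) * (r * _)
    field_simp
    linear_combination r * h
  have hspan : Submodule.span QBar (Set.range f) = Submodule.span QBar {f (Sum.inl 0)} := by
    apply le_antisymm
    · refine Submodule.span_le.2 ?_
      rintro _ ⟨i, rfl⟩
      rcases i with i | i
      · obtain rfl : i = 0 := Subsingleton.elim _ _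
        exact Submodule.mem_span_singleton_self _
      · obtain rfl : i = 0 := Subsingleton.elim _ _
        rw [hf1]
        exact Submodule.smul_mem _ _ (Submodule.mem_span_singleton_self _)
    · refine Submodule.span_mono ?_
      rintro _ rfl
      exact ⟨_, rfl⟩
  have hsub : IsDeRhamBettiSubspace QBar A.dR U := by
    unfold IsDeRhamBettiSubspace
    change finrank QBar (Submodule.span QBar (Set.range f)) = _
    rw [hspan, hU]
    exact finrank_span_singleton hf0
  obtain ⟨T, hT, -⟩ := A.hodge_sub hsub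
  rw [hU] at hT
  omega

variable {K : Type} [Field K] [Algebra K ℂ] (hK : Rationals K)

include hK

theorem ell_line (A : AbVar 1) (c : ℂ) (v : (ell K A).V) (h : tens c v ∈ (ell K A).dR) :
    c = 0 ∨ v = 0 := by
  by_contra hcon
  push Not at hcon
  obtain ⟨hc, hv⟩ := hcon
  let v' : Fin 2 → K := v
  obtain ⟨a, ha, b, hb, hab⟩ := (show tens c v' ∈ dREll K A from h)
  rw [tens_vec] at hab
  have h1 := vec_inj K hab
  choose q hq using fun i => hK (v' i)
  have hq' : ∀ i, algebraMap K ℂ (v' i) = q i := fun i => by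
    rw [← hq]
    simp
  let w : A.H1 := ![q 1, -q 0]
  have hw : w ≠ 0 := by
    intro hw
    apply hv
    have h2 := congrFun hw 0
    have h3 := congrFun hw 1
    have h4 : q 1 = 0 := h2
    have h5 : q 0 = 0 := by
      have h5 : -q 0 = 0 := h3
      linarith
    change v' = 0
    funext i
    rw [← hq i]
    fin_cases i
    · simp [h5]
    · simp [h4]
  have h2 := congrFun h1 0
  have h3 := congrFun h1 1
  simp only [hq'] at h2 h3
  have hw0 : w 0 = q 1 := rfl
  have hw1 : w 1 = -q 0 := rfl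
  have h4 : a * ∑ k, (w k : ℂ) * om A k + b * ∑ k, (w k : ℂ) * et A k = 0 := by
    rw [Fin.sum_univ_two, Fin.sum_univ_two, hw0, hw1]
    push_cast
    linear_combination (q 0 : ℂ) * h3 - (q 1 : ℂ) * h2
  obtain ⟨ha0, hb0⟩ := no_line A hw ha hb h4
  rw [ha0, hb0] at h1
  apply hv
  change v' = 0
  funext i
  have h5 := congrFun h1 i
  simp only [zero_mul, add_zero] at h5
  have h6 := (mul_eq_zero.1 h5).resolve_left hc
  rw [map_eq_zero] at h6
  exact h6

/-- Homomorphisms of the de Rham-Betti structures come from multiplications. -/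
theorem hom_ell (A B : AbVar 1) (P : (ell K A).V →ₗ[K] (ell K B).V)
    (hP : IsHom (M := ell K A) (N := ell K B) P) :
    ∃ (q : Fin 2 → Fin 2 → ℚ) (c : ℂ), (∀ i j, (show (Fin 2 → K) →ₗ[K] (Fin 2 → K) from P)
      (Pi.single j 1) i = q i j) ∧ ∀ i, c * om B i = ∑ j, (q i j : ℂ) * om A j := by
  let P' : (Fin 2 → K) →ₗ[K] (Fin 2 → K) := P
  choose q hq using fun i j => hK (P' (Pi.single j 1) i)
  have hq' : ∀ i j, algebraMap K ℂ (P' (Pi.single j 1) i) = q i j := fun i j => by
    rw [← hq]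
    simp
  have hbc : ∀ x : Fin 2 → ℂ, bc P' (vec K x) = vec K (fun i => ∑ j, (q i j : ℂ) * x j) := by
    intro x
    unfold vec
    rw [map_sum]
    refine (bx (b0 K)).ext_elem fun i => ?_
    have h1 := repr_vec K (fun i => ∑ j, (q i j : ℂ) * x j) i
    unfold vec at h1
    rw [h1, map_sum, Finsupp.finsetSum_apply]
    refine Finset.sum_congr rfl fun j _ => ?_
    rw [bc_tens, bx_repr, Pi.basisFun_repr, hq']
    ring
  have h1 : ∀ a ∈ QF, ∀ b ∈ QF, ∃ a' ∈ QF, ∃ b' ∈ QF, ∀ i,
      ∑ j, (q i j : ℂ) * (a * om A j + b * et A j) = a' * om B i + b' * et B i := by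
    intro a ha b hb
    obtain ⟨a', ha', b', hb', h⟩ := (show bc P' (vec K (fun j => a * om A j + b * et A j)) ∈
      dREll K B from hP _ ⟨a, ha, b, hb, rfl⟩)
    rw [hbc] at h
    exact ⟨a', ha', b', hb', fun i => congrFun (vec_inj K h) i⟩
  obtain ⟨a, ha, b, hb, h2⟩ := h1 1 QF.one_mem 0 QF.zero_mem
  obtain ⟨c, hc, d, hd, h3⟩ := h1 0 QF.zero_mem 1 QF.one_mem
  simp only [one_mul, zero_mul, add_zero, zero_add] at h2 h3
  -- the transposed map
  let T : B.H1 →ₗ[ℚ] A.H1 := Matrix.mulVecLin (Matrix.of fun j i => q i j)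
  have hT : ∀ w j, T w j = ∑ i, q i j * w i := fun w j => rfl
  have hTp : ∀ (w : B.H1) (x : Fin 2 → ℂ), ∑ j, ((T w j : ℚ) : ℂ) * x j =
      ∑ i, (w i : ℂ) * ∑ j, (q i j : ℂ) * x j := by
    intro w x
    simp only [hT]
    push_cast
    simp only [Finset.sum_mul, Finset.mul_sum]
    rw [Finset.sum_comm]
    exact Finset.sum_congr rfl fun i _ => Finset.sum_congr rfl fun j _ => by ring
  have hom : ∃ m : Fin 1 ⊕ Fin 1 → Fin 1 ⊕ Fin 1 → QBar, ∀ i w, A.dR i (T w) =
      ∑ j, algebraMap QBar ℂ (m i j) * B.dR j w := by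
    refine ⟨Sum.elim (fun _ => Sum.elim (fun _ => ⟨a, ha⟩) (fun _ => ⟨b, hb⟩))
      (fun _ => Sum.elim (fun _ => ⟨c, hc⟩) (fun _ => ⟨d, hd⟩)), fun i w => ?_⟩
    rw [Fintype.sum_sum_type, Finset.univ_unique, Finset.sum_singleton, Finset.sum_singleton]
    have hBl : B.dR (Sum.inl default) w = ∑ k, (w k : ℂ) * om B k := per_eq B w
    have hBr : B.dR (Sum.inr default) w = ∑ k, (w k : ℂ) * et B k := eta_eq B w
    rw [hBl, hBr]
    rcases i with i | i
    · obtain rfl : i = 0 := Subsingleton.elim _ _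
      have hAl : A.dR (Sum.inl 0) (T w) = ∑ k, ((T w k : ℚ) : ℂ) * om A k := per_eq A (T w)
      rw [hAl, hTp]
      change _ = a * _ + b * _
      simp only [h2, Finset.mul_sum]
      rw [← Finset.sum_add_distrib]
      exact Finset.sum_congr rfl fun i _ => by ring
    · obtain rfl : i = 0 := Subsingleton.elim _ _
      have hAl : A.dR (Sum.inr 0) (T w) = ∑ k, ((T w k : ℚ) : ℂ) * et A k := eta_eq A (T w)
      rw [hAl, hTp]
      change _ = c * _ + d * _
      simp only [h3, Finset.mul_sum]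
      rw [← Finset.sum_add_distrib]
      exact Finset.sum_congr rfl fun i _ => by ring
  obtain ⟨Q, hQ⟩ := B.hodge_hom A hom
  refine ⟨q, Q (fun _ => 1) 0, fun i j => (hq i j).symm, fun i => ?_⟩
  have h4 : B.per (Pi.single i 1) = om B i • (fun _ => (1 : ℂ)) := by
    funext k
    obtain rfl : k = 0 := Subsingleton.elim _ _
    exact (dR0 B (Sum.inl 0) i).trans (mul_one _).symm
  have h5 := congrFun (hQ (Pi.single i 1)) 0
  rw [h4, map_smul, Pi.smul_apply, smul_eq_mul, per_eq, hTp] at h5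
  rw [mul_comm, ← h5, Finset.sum_eq_single i]
  · rw [Pi.single_eq_same, Rat.cast_one, one_mul]
  · intro j _ hj
    rw [Pi.single_eq_of_ne hj, Rat.cast_zero, zero_mul]
  · intro h
    exact absurd (Finset.mem_univ _) h

theorem end_ell (A : AbVar 1) (hA : NoCM A) (P : (ell K A).V →ₗ[K] (ell K A).V)
    (hP : IsHom (M := ell K A) (N := ell K A) P) : ∃ r : K, P = r • LinearMap.id := by
  obtain ⟨q, c, hq, hc⟩ := hom_ell hK A A P hP
  obtain ⟨r, rfl⟩ := hA c fun i => ⟨q i, hc i⟩
  refine ⟨r, ?_⟩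
  have h1 : ∀ i, q i = Pi.single i r := by
    intro i
    have h2 : q i - Pi.single i r = 0 := per_inj A (by
      simp only [Pi.sub_apply, Rat.cast_sub, sub_mul, Finset.sum_sub_distrib]
      rw [← hc, Finset.sum_eq_single i]
      · rw [Pi.single_eq_same, sub_self]
      · intro j _ hj
        rw [Pi.single_eq_of_ne hj, Rat.cast_zero, zero_mul]
      · intro h
        exact absurd (Finset.mem_univ _) h)
    exact sub_eq_zero.1 h2
  refine (b0 K).ext fun j => ?_
  rw [Pi.basisFun_apply]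
  funext i
  refine (hq i j).trans ?_
  rw [h1]
  change _ = (r : K) • (Pi.single j (1 : K) : Fin 2 → K) i
  rw [smul_eq_mul]
  rcases eq_or_ne i j with rfl | h
  · rw [Pi.single_eq_same, Pi.single_eq_same, mul_one]
  · rw [Pi.single_eq_of_ne h.symm, Pi.single_eq_of_ne h, mul_zero, Rat.cast_zero]

theorem hom_zero (A B : AbVar 1) (hAB : NonIsogenous B A) (P : (ell K A).V →ₗ[K] (ell K B).V)
    (hP : IsHom (M := ell K A) (N := ell K B) P) : P = 0 := by
  obtain ⟨q, c, hq, hc⟩ := hom_ell hK A B P hP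
  obtain rfl := hAB c fun i => ⟨q i, hc i⟩
  have h1 : ∀ i, q i = 0 := fun i => per_inj A (by rw [← hc, zero_mul])
  refine (b0 K).ext fun j => ?_
  rw [Pi.basisFun_apply]
  funext i
  refine (hq i j).trans ?_
  rw [h1, Pi.zero_apply, Rat.cast_zero]
  rfl

theorem mem_QF (r : K) : algebraMap K ℂ r ∈ QF := by
  obtain ⟨q, rfl⟩ := hK r
  rw [map_ratCast]
  exact SubfieldClass.ratCast_mem QF q

theorem noSemi_ell (A : AbVar 1) (hA : NoCM A) : NoSemi (rep (ell K A)) :=
  noSemi_of (mem_QF hK) (ell K A) (b0 K) (ell_line hK A) (end_ell hK A hA)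

/-- **Elliptic curves without complex multiplication form an independent family.** -/
theorem family_ell {ι : Type} (A : ι → AbVar 1) (h1 : ∀ i, NoCM (A i))
    (h2 : ∀ i j, i ≠ j → NonIsogenous (A i) (A j)) :
    Family (fun i => rep (ell K (A i))) where
  semisimple i := (noSemi_ell hK (A i) (h1 i)).semisimple (bx (b0 K))
  independent i j hij := independent_of (mem_QF hK) (ell K (A i)) (ell K (A j)) (b0 K) (b0 K)
    (noSemi_ell hK (A i) (h1 i)) (noSemi_ell hK (A j) (h1 j))
    (fun g => by rw [det_ell, det_ell])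
    (fun P hP => hom_zero hK (A i) (A j) (h2 j i hij.symm) P hP)

end

end Pool.Agent.N179.DB.S
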