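import Pool.Agent.N179.DB.DefsA
import Pool.Agent.Y102.AV1

/-!
# The de Rham-Betti structures of elliptic curves: definitions
-/

set_option autoImplicit false

open TensorProduct

namespace Pool.Agent.N179.DB.S

open Module Pool.Agent.Y102

noncomputable section

/-- The field of algebraic numbers. -/
def QF : Subfield ℂ := (algebraicClosure ℚ ℂ).toSubfield

instance QF.closed : IsAlgClosed QF :=
  inferInstanceAs (IsAlgClosed (algebraicClosure ℚ ℂ))

/-- The periods of the invariant differential of the elliptic curve. -/
def om (A : AbVar 1) (j : Fin 2) : ℂ := A.lam j 0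

/-- The periods of the differential of the second kind of the elliptic curve. -/
def et (A : AbVar 1) (j : Fin 2) : ℂ := A.η j 0

variable {K : Type} [Field K] [Algebra K ℂ]

/-- The vector with the coordinates `x`. -/
def vec (K : Type) [Field K] [Algebra K ℂ] (x : Fin 2 → ℂ) : Cx K (Fin 2 → K) :=
  ∑ j, tens (x j) (Pi.single j 1)

/-- The de Rham cohomology of the elliptic curve, in terms of the periods. -/
def dREll (K : Type) [Field K] [Algebra K ℂ] (A : AbVar 1) : Set (Cx K (Fin 2 → K)) :=
  {x | ∃ a ∈ QF, ∃ b ∈ QF, x = vec K (fun j => a * om A j + b * et A j)}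

/-- The multiplication by `c` maps the rational span of the lattice of `A` to that of `B`. -/
def Multiplies (A B : AbVar 1) (c : ℂ) : Prop :=
  ∀ j, ∃ r : Fin 2 → ℚ, c * om A j = ∑ k, (r k : ℂ) * om B k

/-- The elliptic curve has no complex multiplication. -/
def NoCM (A : AbVar 1) : Prop := ∀ c, Multiplies A A c → ∃ q : ℚ, c = q

/-- The elliptic curves are not isogenous. -/
def NonIsogenous (A B : AbVar 1) : Prop := ∀ c, Multiplies A B c → c = 0

/-- The field `K` consists of the rational numbers. -/
def Rationals (K : Type) [Field K] : Prop := Function.Surjective (fun q : ℚ => (q : K))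

end

end Pool.Agent.N179.DB.S
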