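import Pool.Agent.N179.DB.Eig

/-!
# Spaces of homomorphisms
-/

set_option autoImplicit false
set_option linter.unusedSectionVars false

namespace Pool.Agent.N179.DB

open Module Pool.Agent.Y133.Per

noncomputable section

section pot

variable {K : Type} [Field K] [Algebra K ℂ] {F : Subfield ℂ}
  {V : Type*} [AddCommGroup V] [Module ℂ V] {ι κ : Type*} [Fintype ι] [Fintype κ]
  {b : Basis ι ℂ V} {e : Basis κ ℂ V} [IsAlgClosed F] (hKF : ∀ r : K, algebraMap K ℂ r ∈ F)

include hKF

/-- **Potential invariants are invariants.** -/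
theorem pot_fixed {j : ℕ} {z : V} (hz : z ∈ pot b e K F j) (g : PG K F) :
    rho b e K F g z = (chi K F g : ℂ) ^ j • z := by
  have h1 := pot_le (b := b) (e := e) (F := F) hKF (pot b e K F j) (fun τ hτ x hx => pot_sl hτ hx)
    le_rfl hz
  have h2 : Submodule.span ℂ {x | x ∈ pot b e K F j ∧ InF b (KF K) x ∧
      InF e F (twoPiI ^ j • x)} ≤
      LinearMap.ker ((rho b e K F g : V →ₗ[ℂ] V) - (chi K F g : ℂ) ^ j • LinearMap.id) := by
    refine Submodule.span_le.2 fun y hy => ?_
    rw [SetLike.mem_coe, LinearMap.mem_ker, LinearMap.sub_apply, LinearMap.smul_apply,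
      LinearMap.id_apply, sub_eq_zero]
    exact rho_of_inF hy.2.1 hy.2.2 g
  have h3 := h2 h1
  rw [LinearMap.mem_ker, LinearMap.sub_apply, LinearMap.smul_apply, LinearMap.id_apply,
    sub_eq_zero] at h3
  exact h3

end pot

section hom

variable {V V' : Type*} [AddCommGroup V] [Module ℂ V] [AddCommGroup V'] [Module ℂ V']
  {ι κ ι' κ' : Type*} [Fintype ι] [Fintype κ] [Fintype ι'] [Fintype κ'] [DecidableEq ι]
  [DecidableEq κ] (b : Basis ι ℂ V) (e : Basis κ ℂ V) (b' : Basis ι' ℂ V') (e' : Basis κ' ℂ V')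

theorem hb_repr (f : V →ₗ[ℂ] V') (i : ι') (j : ι) :
    (b.linearMap b').repr f (i, j) = b'.repr (f (b j)) i := by
  rw [Basis.linearMap_repr_apply, ← LinearMap.toMatrix_apply]
  simp [Matrix.stdBasis, Pi.basis_repr]

theorem inF_hom {F : Subfield ℂ} {f : V →ₗ[ℂ] V'} :
    InF (b.linearMap b') F f ↔ ∀ k, InF b' F (f (b k)) := by
  constructor
  · intro h k i
    rw [← hb_repr]
    exact h (i, k)
  · rintro h ⟨i, k⟩
    rw [hb_repr]
    exact h k i

theorem sl_hom_basis (τ : ℂ ≃+* ℂ) (f : V →ₗ[ℂ] V') (k : ι) :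
    (sl (b.linearMap b') τ f) (b k) = sl b' τ (f (b k)) := by
  refine b'.ext_elem fun i => ?_
  rw [← hb_repr, repr_sl, hb_repr, repr_sl]

theorem sl_hom (τ : ℂ ≃+* ℂ) (f : V →ₗ[ℂ] V') (x : V) :
    (sl (b.linearMap b') τ f) (sl b τ x) = sl b' τ (f x) := by
  have h1 : x = ∑ i, b.repr x i • b i := (b.sum_repr x).symm
  rw [h1, sl_sum, map_sum, map_sum, map_sum]
  refine Finset.sum_congr rfl fun i _ => ?_
  rw [map_smul, map_smul, sl_smul, sl_basis, sl_hom_basis]

theorem P_hom (α β : ℂ ≃+* ℂ) (f : V →ₗ[ℂ] V') (x : V) :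
    P (b.linearMap b') (e.linearMap e') α β f (P b e α β x) = P b' e' α β (f x) := by
  -- the linear map `f ↦ P' f P⁻¹`
  let T : (V →ₗ[ℂ] V') →ₗ[ℂ] (V →ₗ[ℂ] V') :=
    (LinearMap.compRight ℂ (P b' e' α β : V' →ₗ[ℂ] V')).comp
      (LinearMap.lcomp ℂ V' ((P b e α β).symm : V →ₗ[ℂ] V))
  have hT : (P (b.linearMap b') (e.linearMap e') α β : (V →ₗ[ℂ] V') →ₗ[ℂ] (V →ₗ[ℂ] V')) = T := by
    refine eq_of_basis (b.linearMap b') (e.linearMap e') β fun k => ?_
    change P (b.linearMap b') (e.linearMap e') α β (sl (b.linearMap b') β (e.linearMap e' k)) = _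
    rw [P_basis]
    refine (mv b e α).ext fun l => ?_
    rw [mv_apply, sl_hom]
    change _ = P b' e' α β ((sl (b.linearMap b') β ((e.linearMap e') k))
      ((P b e α β).symm (sl b α (e l))))
    have h1 : (P b e α β).symm (sl b α (e l)) = sl b β (e l) := by
      rw [LinearEquiv.symm_apply_eq, P_basis]
    rw [h1, sl_hom, Basis.linearMap_apply_apply]
    split
    · rw [P_basis]
    · rw [map_zero, map_zero, map_zero]
  have h2 : P (b.linearMap b') (e.linearMap e') α β f = T f := LinearMap.congr_fun hT f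
  rw [h2]
  change P b' e' α β (f ((P b e α β).symm (P b e α β x))) = _
  rw [LinearEquiv.symm_apply_apply]

variable {K : Type} [Field K] [Algebra K ℂ] {F : Subfield ℂ}

theorem rho_hom (g : PG K F) : ∀ (f : V →ₗ[ℂ] V') (x : V),
    rho (b.linearMap b') (e.linearMap e') K F g f (rho b e K F g x) =
      rho b' e' K F g (f x) := by
  refine pg_ind (C := fun g => ∀ (f : V →ₗ[ℂ] V') (x : V),
    rho (b.linearMap b') (e.linearMap e') K F g f (rho b e K F g x) =
      rho b' e' K F g (f x)) g (fun f x => by rw [map_one, map_one, map_one]; rfl)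
    (fun p f x => ?_) (fun g hg f x => ?_) (fun g g' hg hg' f x => ?_)
  · rw [rho_of, rho_of, rho_of]
    exact P_hom b e b' e' p.α p.β f x
  · have h3 := hg (rho (b.linearMap b') (e.linearMap e') K F g⁻¹ f) (rho b e K F g⁻¹ x)
    rw [apply_inv', apply_inv'] at h3
    rw [h3, inv_apply']
  · rw [map_mul, map_mul, map_mul, LinearEquiv.mul_apply, LinearEquiv.mul_apply,
      LinearEquiv.mul_apply, hg, hg']

theorem rho_hom' (g : PG K F) (f : V →ₗ[ℂ] V') (x : V) :
    rho (b.linearMap b') (e.linearMap e') K F g f x =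
      rho b' e' K F g (f (rho b e K F g⁻¹ x)) := by
  rw [← rho_hom b e b' e', apply_inv']

end hom

end

end Pool.Agent.N179.DB
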