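import Pool.Agent.N179.DB.DefsA
import Pool.Agent.N179.DB.Hom

/-!
# The period operators of de Rham-Betti structures
-/

set_option autoImplicit false
set_option linter.unusedSectionVars false

open CategoryTheory AlgebraicGeometry TensorProduct

namespace Pool.Agent.N179.DB.S

open Module Pool.Agent.Y133.Per Pool.Agent.N179.DB Pool.Agent.N179.GR.S

noncomputable section

section

variable {K : Type} [Field K] [Algebra K ℂ] {V : Type} [AddCommGroup V] [Module K V]

theorem gal_tens (τ : ℂ ≃+* ℂ) (h : ∀ r : K, τ (algebraMap K ℂ r) = algebraMap K ℂ r) (c : ℂ)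
    (v : V) : gal τ h (tens (K := K) c v) = tens (τ c) v := rfl

theorem gal_add (τ : ℂ ≃+* ℂ) (h : ∀ r : K, τ (algebraMap K ℂ r) = algebraMap K ℂ r)
    (x y : Cx K V) : gal τ h (x + y) = gal τ h x + gal τ h y :=
  map_add ((autLin τ h).rTensor V) x y

theorem cx_ind {p : Cx K V → Prop} (h0 : p 0) (h1 : ∀ (r : ℂ) (c : V), p (tens r c))
    (h2 : ∀ a b, p a → p b → p (a + b)) (a : Cx K V) : p a :=
  TensorProduct.induction_on (motive := p) a h0 h1 h2

theorem smul_tens (r s : ℂ) (v : V) : r • tens (K := K) s v = tens (r * s) v :=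
  TensorProduct.smul_tmul' _ _ _

theorem tens_smul (r : K) (v : V) (c : ℂ) :
    tens (K := K) c (r • v) = tens (algebraMap K ℂ r * c) v := by
  rw [← Algebra.smul_def]
  exact (TensorProduct.smul_tmul r c v).symm

theorem tens_add (c : ℂ) (v w : V) : tens (K := K) c (v + w) = tens c v + tens c w :=
  TensorProduct.tmul_add _ _ _

/-- the basis given by a basis of `V` -/
def bx {ι : Type} [Fintype ι] (b : Basis ι K V) : Basis ι ℂ (Cx K V) := b.baseChange ℂ

theorem bx_apply {ι : Type} [Fintype ι] (b : Basis ι K V) (i : ι) : bx b i = tens 1 (b i) :=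
  Basis.baseChange_apply ℂ b i

theorem bx_repr {ι : Type} [Fintype ι] (b : Basis ι K V) (c : ℂ) (v : V) (i : ι) :
    (bx b).repr (tens c v) i = c * algebraMap K ℂ (b.repr v i) := by
  have h1 := Basis.baseChange_repr_tmul ℂ b c v i
  rw [Algebra.smul_def, mul_comm] at h1
  exact h1

theorem gal_eq {ι : Type} [Fintype ι] (b : Basis ι K V) (τ : ℂ ≃+* ℂ)
    (h : ∀ r : K, τ (algebraMap K ℂ r) = algebraMap K ℂ r) (x : Cx K V) :
    gal τ h x = sl (bx b) τ x := by
  refine cx_ind (p := fun x => gal τ h x = sl (bx b) τ x) ?_ ?_ ?_ x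
  · rw [map_zero]
    exact map_zero ((autLin τ h).rTensor V)
  · intro r c
    rw [gal_tens]
    refine (bx b).ext_elem fun i => ?_
    rw [repr_sl, bx_repr, bx_repr, map_mul, h]
  · intro x y hx hy
    rw [gal_add, hx, hy, map_add]

/-- the elements of `V` -/
theorem inF_tens {ι : Type} [Fintype ι] (b : Basis ι K V) (v : V) :
    InF (bx b) (KF K) (tens 1 v) := fun i => by
  rw [bx_repr, one_mul]
  exact ⟨_, rfl⟩

theorem exists_tens {ι : Type} [Fintype ι] (b : Basis ι K V) {x : Cx K V}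
    (h : InF (bx b) (KF K) x) : ∃ v : V, x = tens 1 v := by
  choose r hr using h
  refine ⟨∑ i, r i • b i, (bx b).ext_elem fun i => ?_⟩
  rw [bx_repr, one_mul, b.repr_sum_self, hr]

theorem tens_inj {ι : Type} [Fintype ι] (b : Basis ι K V) {v w : V}
    (h : tens (K := K) 1 v = tens 1 w) : v = w := by
  refine b.ext_elem fun i => ?_
  have h1 := congrArg (fun x => (bx b).repr x i) h
  simp only [bx_repr, one_mul] at h1
  exact (algebraMap K ℂ).injective h1

end

variable {K : Type} [Field K] [Algebra K ℂ] {F : Subfield ℂ}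

/-- the basis of the Betti side -/
def DRB.bK (M : DRB K F) : Basis (Fin (finrank K M.V)) K M.V := finBasis K M.V

/-- the basis of the complex space -/
def DRB.b (M : DRB K F) : Basis (Fin (finrank K M.V)) ℂ (Cx K M.V) := bx M.bK

/-- the number of elements of the basis of the de Rham side -/
def DRB.n (M : DRB K F) : ℕ := M.form.choose

/-- the basis of the de Rham side -/
def DRB.e (M : DRB K F) : Basis (Fin M.n) ℂ (Cx K M.V) := M.form.choose_spec.choose

theorem DRB.mem (M : DRB K F) (x : Cx K M.V) : x ∈ M.dR ↔ InF M.e F x :=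
  M.form.choose_spec.choose_spec x

theorem DRB.gal_eq (M : DRB K F) {τ : ℂ ≃+* ℂ}
    (h : ∀ r : K, τ (algebraMap K ℂ r) = algebraMap K ℂ r) (x : Cx K M.V) :
    gal τ h x = sl M.b τ x := S.gal_eq M.bK τ h x

/-- The period operators exist. -/
theorem exists_op (M : DRB K F) (p : Pair K F) : ∃ T : Cx K M.V ≃ₗ[ℂ] Cx K M.V,
    ∀ s ∈ M.dR, T (gal p.β p.fixβ s) = gal p.α p.fixα s :=
  ⟨P M.b M.e p.α p.β, fun s hs => by
    rw [M.gal_eq, M.gal_eq, P_inF M.b M.e p.agree ((M.mem s).1 hs)]⟩

/-- They are unique. -/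
theorem op_unique (M : DRB K F) (p : Pair K F) {T : Cx K M.V ≃ₗ[ℂ] Cx K M.V}
    (h : ∀ s ∈ M.dR, T (gal p.β p.fixβ s) = gal p.α p.fixα s) : T = P M.b M.e p.α p.β := by
  apply LinearEquiv.toLinearMap_injective
  refine eq_of_basis M.b M.e p.β fun k => ?_
  have h1 := h (M.e k) ((M.mem _).2 (InF.basis k))
  rw [M.gal_eq, M.gal_eq] at h1
  exact h1.trans (P_basis M.b M.e p.α p.β k).symm

end

end Pool.Agent.N179.DB.S
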