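import Pool.Agent.N179.DB.EllDefs
import Pool.Agent.N179.DB.Op

/-!
# The de Rham-Betti structures of elliptic curves: bases
-/

set_option autoImplicit false
set_option linter.unusedSectionVars false

open CategoryTheory AlgebraicGeometry TensorProduct

namespace Pool.Agent.N179.DB.S

open Module Pool.Agent.Y133.Per Pool.Agent.N179.DB Pool.Agent.N179.GR.S
open Pool.Agent.Y102

noncomputable section

theorem dR0 (A : AbVar 1) (k : Fin 1 ⊕ Fin 1) (j : Fin 2) :
    A.dR k (Pi.single j 1) = Sum.elim (fun _ => om A j) (fun _ => et A j) k := by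
  rcases k with k | k
  · obtain rfl : k = 0 := Subsingleton.elim _ _
    change (Fintype.linearCombination ℚ (fun j => A.lam j)) (Pi.single j 1) 0 = om A j
    rw [Fintype.linearCombination_apply_single, one_smul]
    rfl
  · obtain rfl : k = 0 := Subsingleton.elim _ _
    change (Fintype.linearCombination ℚ A.η) (Pi.single j 1) 0 = et A j
    rw [Fintype.linearCombination_apply_single, one_smul]
    rfl

/-- the periods are linearly independent over the complex numbers -/
theorem det_ne (A : AbVar 1) : om A 0 * et A 1 - om A 1 * et A 0 ≠ 0 := by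
  intro h
  -- a relation between the functionals
  have hli := A.indep_dR
  rw [Fintype.linearIndependent_iff] at hli
  have key : ∀ a b : ℂ, (∀ j : Fin 2, a * om A j + b * et A j = 0) → a = 0 ∧ b = 0 := by
    intro a b hab
    have h1 := hli (Sum.elim (fun _ => a) (fun _ => b)) (by
      rw [Fintype.sum_sum_type]
      simp only [Finset.univ_unique, Finset.sum_singleton, Sum.elim_inl, Sum.elim_inr]
      refine LinearMap.pi_ext' fun j => ?_
      ext
      have h2 := hab j
      have h3 := dR0 A (Sum.inl default) j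
      have h4 := dR0 A (Sum.inr default) j
      simp only [Sum.elim_inl, Sum.elim_inr] at h3 h4
      rw [← h3, ← h4] at h2
      simpa using h2)
    exact ⟨h1 (Sum.inl 0), h1 (Sum.inr 0)⟩
  have h0 : om A 0 ≠ 0 := by
    intro h0
    -- `lam 0` is not zero
    apply A.lam.ne_zero (0 : Fin 2)
    funext k
    obtain rfl : k = 0 := Subsingleton.elim _ _
    exact h0
  have h1 := key (-et A 0) (om A 0) (fun j => by
    fin_cases j
    · simp only [Fin.zero_eta]; ring
    · simp only [Fin.mk_one]; linear_combination h)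
  exact h0 h1.2

variable (K : Type) [Field K] [Algebra K ℂ]

/-- the standard basis -/
abbrev b0 : Basis (Fin 2) K (Fin 2 → K) := Pi.basisFun K (Fin 2)

theorem repr_vec (x : Fin 2 → ℂ) (i : Fin 2) : (bx (b0 K)).repr (vec K x) i = x i := by
  unfold vec
  rw [map_sum, Finsupp.finsetSum_apply, Finset.sum_eq_single i]
  · rw [bx_repr, Pi.basisFun_repr, Pi.single_eq_same, map_one, mul_one]
  · intro j _ hj
    rw [bx_repr, Pi.basisFun_repr, Pi.single_eq_of_ne hj.symm, map_zero, mul_zero]
  · intro h
    exact absurd (Finset.mem_univ _) h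

theorem vec_lin (x y : Fin 2 → ℂ) (a b : ℂ) :
    vec K (fun j => a * x j + b * y j) = a • vec K x + b • vec K y := by
  refine (bx (b0 K)).ext_elem fun i => ?_
  rw [map_add, map_smul, map_smul, Finsupp.add_apply, Finsupp.smul_apply, Finsupp.smul_apply,
    repr_vec, repr_vec, repr_vec]
  rfl

theorem vec_inj {x y : Fin 2 → ℂ} (h : vec K x = vec K y) : x = y := by
  funext i
  rw [← repr_vec K x i, h, repr_vec]

theorem tens_vec (c : ℂ) (v : Fin 2 → K) :
    (tens c v : Cx K (Fin 2 → K)) = vec K (fun j => c * algebraMap K ℂ (v j)) := by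
  refine (bx (b0 K)).ext_elem fun i => ?_
  rw [bx_repr, repr_vec, Pi.basisFun_repr]

variable (A : AbVar 1)

theorem indep_e0 : LinearIndependent ℂ ![vec K (om A), vec K (et A)] := by
  rw [LinearIndependent.pair_iff]
  intro s t hst
  rw [← vec_lin] at hst
  have h0 : vec K (fun _ => 0) = 0 := by
    refine (bx (b0 K)).ext_elem fun i => ?_
    rw [repr_vec, map_zero, Finsupp.zero_apply]
  rw [← h0] at hst
  have h1 := vec_inj K hst
  have h2 := congrFun h1 0
  have h3 := congrFun h1 1
  have hd := det_ne A
  constructor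
  · have h4 : s * (om A 0 * et A 1 - om A 1 * et A 0) = 0 := by
      linear_combination (et A 1) * h2 - (et A 0) * h3
    exact (mul_eq_zero.1 h4).resolve_right hd
  · have h4 : t * (om A 0 * et A 1 - om A 1 * et A 0) = 0 := by
      linear_combination (om A 0) * h3 - (om A 1) * h2
    exact (mul_eq_zero.1 h4).resolve_right hd

/-- the basis given by the differential forms -/
def e0 : Basis (Fin 2) ℂ (Cx K (Fin 2 → K)) :=
  basisOfLinearIndependentOfCardEqFinrank (indep_e0 K A) (by
    rw [finrank_eq_card_basis (bx (b0 K))])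

theorem e0_zero : e0 K A 0 = vec K (om A) := by
  rw [e0, coe_basisOfLinearIndependentOfCardEqFinrank]
  rfl

theorem e0_one : e0 K A 1 = vec K (et A) := by
  rw [e0, coe_basisOfLinearIndependentOfCardEqFinrank]
  rfl

theorem mem_e0 (x : Cx K (Fin 2 → K)) : x ∈ dREll K A ↔ InF (e0 K A) QF x := by
  constructor
  · rintro ⟨a, ha, b, hb, rfl⟩
    rw [vec_lin, ← e0_zero, ← e0_one]
    exact (InF.smul ha (InF.basis 0)).add (InF.smul hb (InF.basis 1))
  · intro h
    refine ⟨_, h 0, _, h 1, ?_⟩
    rw [vec_lin, ← e0_zero, ← e0_one]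
    have h1 := (e0 K A).sum_repr x
    rw [Fin.sum_univ_two] at h1
    exact h1.symm

theorem form_ell0 : IsFormCx QF (dREll K A) := ⟨2, e0 K A, mem_e0 K A⟩

end

end Pool.Agent.N179.DB.S
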