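import Mathlib

/-!
# Representations in two-by-two matrices
-/

set_option autoImplicit false
set_option linter.unusedSectionVars false

namespace Pool.Agent.N179.DB.Mt

open Matrix

noncomputable section

/-- two-by-two matrices -/
abbrev M2 : Type := Matrix (Fin 2) (Fin 2) ℂ

/-- the matrices of trace zero -/
def sl : Submodule ℂ M2 := LinearMap.ker (traceLinearMap (Fin 2) ℂ ℂ)

theorem mem_sl {x : M2} : x ∈ sl ↔ x.trace = 0 := by
  rw [sl, LinearMap.mem_ker]; rfl

theorem mem_sl' {x : M2} : x ∈ sl ↔ x 1 1 = -x 0 0 := by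
  rw [mem_sl, trace_fin_two]
  constructor
  · intro h; linear_combination h
  · intro h; rw [h]; ring

theorem eq_of {x y : M2} (h1 : x 0 0 = y 0 0) (h2 : x 0 1 = y 0 1) (h3 : x 1 0 = y 1 0)
    (h4 : x 1 1 = y 1 1) : x = y := by
  ext i j
  fin_cases i <;> fin_cases j
  · exact h1
  · exact h2
  · exact h3
  · exact h4

/-- the square of a matrix of trace zero -/
theorem sq_sl {x : M2} (hx : x ∈ sl) : x * x = (-x.det) • (1 : M2) := by
  have h := mem_sl'.1 hx
  refine eq_of ?_ ?_ ?_ ?_ <;>
    simp [Matrix.mul_apply, Fin.sum_univ_two, det_fin_two, h, Matrix.one_apply] <;> ring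

/-- the standard elements -/
def e0 : M2 := !![0, 1; 0, 0]

/-- the standard elements -/
def f0 : M2 := !![0, 0; 1, 0]

/-- the standard elements -/
def h0 : M2 := !![1, 0; 0, -1]

theorem e0_mem : e0 ∈ sl := by rw [mem_sl']; simp [e0]
theorem f0_mem : f0 ∈ sl := by rw [mem_sl']; simp [f0]
theorem h0_mem : h0 ∈ sl := by rw [mem_sl']; simp [h0]

theorem expand {x : M2} (hx : x ∈ sl) : x = x 0 1 • e0 + x 1 0 • f0 + x 0 0 • h0 := by
  have h := mem_sl'.1 hx
  refine eq_of ?_ ?_ ?_ ?_ <;> simp [e0, f0, h0, h]

theorem lin3 {a b c : ℂ} (h : a • e0 + b • f0 + c • h0 = 0) : a = 0 ∧ b = 0 ∧ c = 0 := by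
  refine ⟨?_, ?_, ?_⟩
  · have := congrFun (congrFun h 0) 1
    simpa [e0, f0, h0] using this
  · have := congrFun (congrFun h 1) 0
    simpa [e0, f0, h0] using this
  · have := congrFun (congrFun h 0) 0
    simpa [e0, f0, h0] using this

/-- the commutator -/
def br (x y : M2) : M2 := x * y - y * x

theorem br_mem (x y : M2) : br x y ∈ sl := by
  rw [mem_sl, br, trace_sub, trace_mul_comm, sub_self]

/-- elements of trace zero which commute are proportional -/
theorem br_ne {x y : M2} (hx : x ∈ sl) (hy : y ∈ sl) (hx0 : x ≠ 0) (h : br x y = 0) :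
    ∃ c : ℂ, y = c • x := by
  have hx' := mem_sl'.1 hx
  have hy' := mem_sl'.1 hy
  have a1 := congrFun (congrFun h 0) 0
  have a2 := congrFun (congrFun h 0) 1
  have a3 := congrFun (congrFun h 1) 0
  simp only [br, Matrix.sub_apply, Matrix.mul_apply, Fin.sum_univ_two, Matrix.zero_apply, hx', hy'] at a1 a2 a3
  by_cases h00 : x 0 0 = 0
  · by_cases h01 : x 0 1 = 0
    · have h10 : x 1 0 ≠ 0 := by
        intro h10
        apply hx0
        refine eq_of ?_ ?_ ?_ ?_ <;> simp [h00, h01, h10, hx']
      refine ⟨y 1 0 / x 1 0, eq_of ?_ ?_ ?_ ?_⟩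
      · rw [Matrix.smul_apply, h00, smul_zero]
        rw [h00] at a3
        have : x 1 0 * y 0 0 = 0 := by linear_combination (1 / 2) * a3
        exact (mul_eq_zero.1 this).resolve_left h10
      · rw [Matrix.smul_apply, h01, smul_zero]
        rw [h01] at a1
        have : x 1 0 * y 0 1 = 0 := by linear_combination -a1
        exact (mul_eq_zero.1 this).resolve_left h10
      · rw [Matrix.smul_apply, smul_eq_mul, div_mul_cancel₀ _ h10]
      · rw [Matrix.smul_apply, hx', hy', h00, neg_zero, smul_zero]
        rw [h00] at a3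
        have : x 1 0 * y 0 0 = 0 := by linear_combination (1 / 2) * a3
        rw [(mul_eq_zero.1 this).resolve_left h10, neg_zero]
    · refine ⟨y 0 1 / x 0 1, eq_of ?_ ?_ ?_ ?_⟩
      · rw [Matrix.smul_apply, h00, smul_zero]
        rw [h00] at a2
        have : x 0 1 * y 0 0 = 0 := by linear_combination (-1 / 2) * a2
        exact (mul_eq_zero.1 this).resolve_left h01
      · rw [Matrix.smul_apply, smul_eq_mul, div_mul_cancel₀ _ h01]
      · rw [Matrix.smul_apply, smul_eq_mul, div_mul_eq_mul_div, eq_div_iff h01]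
        linear_combination a1
      · rw [Matrix.smul_apply, hx', hy', h00, neg_zero, smul_zero]
        rw [h00] at a2
        have : x 0 1 * y 0 0 = 0 := by linear_combination (-1 / 2) * a2
        rw [(mul_eq_zero.1 this).resolve_left h01, neg_zero]
  · refine ⟨y 0 0 / x 0 0, eq_of ?_ ?_ ?_ ?_⟩
    · rw [Matrix.smul_apply, smul_eq_mul, div_mul_cancel₀ _ h00]
    · rw [Matrix.smul_apply, smul_eq_mul, div_mul_eq_mul_div, eq_div_iff h00]
      linear_combination (1 / 2) * a2
    · rw [Matrix.smul_apply, smul_eq_mul, div_mul_eq_mul_div, eq_div_iff h00]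
      linear_combination (-1 / 2) * a3
    · rw [Matrix.smul_apply, smul_eq_mul, hx', hy', mul_neg, div_mul_cancel₀ _ h00]

section rep

variable {G : Type*} [Group G] (R : G →* M2)

theorem R_inv (g : G) : R g * R g⁻¹ = 1 := by rw [← map_mul, mul_inv_cancel, map_one]

theorem R_inv' (g : G) : R g⁻¹ * R g = 1 := by rw [← map_mul, inv_mul_cancel, map_one]

/-- the conjugation -/
def cn (g : G) : M2 →ₗ[ℂ] M2 := (LinearMap.mulLeft ℂ (R g)).comp (LinearMap.mulRight ℂ (R g⁻¹))

theorem cn_apply (g : G) (x : M2) : cn R g x = R g * (x * R g⁻¹) := rfl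

theorem cn_mul (g : G) (x y : M2) : cn R g (x * y) = cn R g x * cn R g y := by
  rw [cn_apply, cn_apply, cn_apply]
  calc R g * (x * y * R g⁻¹) = R g * x * (1 : M2) * (y * R g⁻¹) := by
        rw [mul_one, mul_assoc, mul_assoc]
    _ = R g * (x * R g⁻¹) * (R g * (y * R g⁻¹)) := by
        rw [← R_inv' R g]
        simp only [mul_assoc]

theorem cn_br (g : G) (x y : M2) : cn R g (br x y) = br (cn R g x) (cn R g y) := by
  rw [br, map_sub, cn_mul, cn_mul, br]

theorem cn_trace (g : G) (x : M2) : (cn R g x).trace = x.trace := by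
  rw [cn_apply, ← mul_assoc, trace_mul_comm, ← mul_assoc, R_inv', one_mul]

theorem cn_one (g : G) : cn R g 1 = 1 := by rw [cn_apply, one_mul, R_inv]

theorem cn_sl {g : G} {x : M2} (hx : x ∈ sl) : cn R g x ∈ sl := by
  rw [mem_sl, cn_trace]
  exact mem_sl.1 hx

/-- there are no semi-invariant vectors -/
def NoLine : Prop := ∀ Δ : Subgroup G, Δ.FiniteIndex → ∀ v : Fin 2 → ℂ,
  (∀ g ∈ Δ, ∃ c : ℂ, R g *ᵥ v = c • v) → v = 0

variable {R}

theorem finiteIndex_two {G : Type*} [Group G] (H : Subgroup G) (g0 : G)
    (h : ∀ g, g ∈ H ∨ g0⁻¹ * g ∈ H) : H.FiniteIndex := by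
  have h1 : Function.Surjective (fun b : Bool => if b then ((1 : G) : G ⧸ H) else (g0 : G ⧸ H)) := by
    intro q
    induction q using QuotientGroup.induction_on with
    | H g =>
      rcases h g with h1 | h1
      · refine ⟨true, ?_⟩
        simp only [if_true]
        rw [QuotientGroup.eq]
        simpa using h1
      · refine ⟨false, ?_⟩
        simp only [Bool.false_eq_true, if_false]
        rw [QuotientGroup.eq]
        exact h1
  have h2 : Finite (G ⧸ H) := Finite.of_surjective _ h1
  exact Subgroup.finiteIndex_of_finite_quotient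

/-- **There are no semi-invariant matrices of trace zero.** -/
theorem NoLine.sl (hR : NoLine R) {x : M2} (hx : x ∈ sl)
    (h : ∀ g, ∃ c : ℂ, cn R g x = c • x) : x = 0 := by
  by_contra hx0
  -- a vector which is not in the kernel
  obtain ⟨w, hw⟩ : ∃ w : Fin 2 → ℂ, x *ᵥ w ≠ 0 := by
    by_contra hcon
    push Not at hcon
    apply hx0
    ext i j
    have h1 := congrFun (hcon (Pi.single j 1)) i
    rw [mulVec_single_one] at h1
    exact h1
  have hcomm : ∀ g, ∃ c : ℂ, c ≠ 0 ∧ R g * x = c • (x * R g) := by
    intro g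
    obtain ⟨c, hc⟩ := h g
    have h1 : R g * x = c • (x * R g) := by
      have h2 := congrArg (fun y => y * R g) hc
      simp only [cn_apply, mul_assoc, R_inv', mul_one, smul_mul_assoc] at h2
      exact h2
    refine ⟨c, ?_, h1⟩
    rintro rfl
    rw [zero_smul] at h1
    apply hx0
    have h2 : R g⁻¹ * (R g * x) = 0 := by rw [h1, mul_zero]
    rwa [← mul_assoc, R_inv', one_mul] at h2
  by_cases hd : x.det = 0
  · -- nilpotent
    have hsq : x * x = 0 := by rw [sq_sl hx, hd, neg_zero, zero_smul]
    set v := x *ᵥ w with hv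
    have hxv : x *ᵥ v = 0 := by rw [hv, mulVec_mulVec, hsq, zero_mulVec]
    have hker : ∀ u : Fin 2 → ℂ, x *ᵥ u = 0 → ∃ c : ℂ, u = c • v := by
      intro u hu
      -- `v` and `w` are a basis
      have hli : LinearIndependent ℂ ![v, w] := by
        rw [LinearIndependent.pair_iff]
        intro s t hst
        have h1 : x *ᵥ (s • v + t • w) = 0 := by rw [hst, mulVec_zero]
        rw [mulVec_add, mulVec_smul, mulVec_smul, hxv, smul_zero, zero_add, ← hv] at h1
        have ht : t = 0 := (smul_eq_zero.1 h1).resolve_right hw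
        rw [ht, zero_smul, add_zero] at hst
        exact ⟨(smul_eq_zero.1 hst).resolve_right hw, ht⟩
      have hb := basisOfLinearIndependentOfCardEqFinrank hli (by simp)
      have hspan : u ∈ Submodule.span ℂ (Set.range ![v, w]) := by
        have h2 := hli.span_eq_top_of_card_eq_finrank' (by simp)
        rw [h2]; trivial
      obtain ⟨c, hc⟩ := (Submodule.mem_span_range_iff_exists_fun ℂ).1 hspan
      rw [Fin.sum_univ_two] at hc
      simp only [cons_val_zero, cons_val_one] at hc
      have h1 : x *ᵥ u = c 1 • v := by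
        rw [← hc, mulVec_add, mulVec_smul, mulVec_smul, hxv, smul_zero, zero_add, ← hv]
      rw [hu] at h1
      have h2 : c 1 = 0 := (smul_eq_zero.1 h1.symm).resolve_right hw
      exact ⟨c 0, by rw [← hc, h2, zero_smul, add_zero]⟩
    apply hw
    refine hR ⊤ inferInstance v fun g _ => ?_
    obtain ⟨c, hc0, hc⟩ := hcomm g
    refine (hker (R g *ᵥ v) ?_)
    have h1 : c • (x *ᵥ (R g *ᵥ v)) = 0 := by
      rw [mulVec_mulVec, ← smul_mulVec, ← hc, ← mulVec_mulVec, hxv, mulVec_zero]
    exact (smul_eq_zero.1 h1).resolve_left hc0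
  · -- semisimple
    obtain ⟨s, hs⟩ : ∃ s : ℂ, s ^ 2 = -x.det := IsAlgClosed.exists_pow_nat_eq _ (by norm_num)
    have hs0 : s ≠ 0 := by
      rintro rfl
      apply hd
      have : -x.det = 0 := by rw [← hs]; norm_num
      exact neg_eq_zero.1 this
    have hsq : x * x = (s ^ 2) • (1 : M2) := by rw [hs]; exact sq_sl hx
    have hc2 : ∀ g (c : ℂ), R g * x = c • (x * R g) → c = 1 ∨ c = -1 := by
      intro g c hc
      have h1 := congrArg Matrix.det hc
      rw [det_mul, det_smul, det_mul, Fintype.card_fin] at h1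
      have hg : (R g).det ≠ 0 := by
        have h2 := congrArg Matrix.det (R_inv R g)
        rw [det_mul, det_one] at h2
        exact left_ne_zero_of_mul (by rw [h2]; exact one_ne_zero)
      have h2 : c ^ 2 = 1 := by
        have h3 : (c ^ 2 - 1) * (x.det * (R g).det) = 0 := by linear_combination -h1
        have h4 := (mul_eq_zero.1 h3).resolve_right (mul_ne_zero hd hg)
        linear_combination h4
      have h3 : (c - 1) * (c + 1) = 0 := by linear_combination h2
      rcases mul_eq_zero.1 h3 with h4 | h4
      · exact Or.inl (sub_eq_zero.1 h4)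
      · exact Or.inr (eq_neg_of_add_eq_zero_left h4)
    -- the eigenvector
    obtain ⟨u, hu⟩ : ∃ u : Fin 2 → ℂ, (x + s • (1 : M2)) *ᵥ u ≠ 0 := by
      by_contra hcon
      push Not at hcon
      have h1 : x + s • (1 : M2) = 0 := by
        ext i j
        have h1 := congrFun (hcon (Pi.single j 1)) i
        rw [mulVec_single_one] at h1
        exact h1
      have h2 := congrArg Matrix.trace h1
      rw [trace_add, trace_smul, mem_sl.1 hx, trace_one, trace_zero, zero_add] at h2
      simp at h2
      exact hs0 h2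
    set v := (x + s • (1 : M2)) *ᵥ u with hv
    have hxv : x *ᵥ v = s • v := by
      have h1 : x * (x + s • (1 : M2)) = s • (x + s • (1 : M2)) := by
        rw [mul_add, hsq, Matrix.mul_smul, mul_one, smul_add, smul_smul, ← sq, add_comm]
      rw [hv, mulVec_mulVec, h1, smul_mulVec]
    -- the eigenspace is a line
    have hker : ∀ y : Fin 2 → ℂ, x *ᵥ y = s • y → ∃ c : ℂ, y = c • v := by
      intro y hy
      by_contra hcon
      push Not at hcon
      have hli : LinearIndependent ℂ ![v, y] := by
        rw [LinearIndependent.pair_iff]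
        intro a b hab
        by_cases hb : b = 0
        · rw [hb, zero_smul, add_zero] at hab
          exact ⟨(smul_eq_zero.1 hab).resolve_right hu, hb⟩
        · exfalso
          apply hcon (-(b⁻¹ * a))
          have h5 : b • y = -(a • v) := eq_neg_of_add_eq_zero_right hab
          have h6 : y = b⁻¹ • b • y := by rw [smul_smul, inv_mul_cancel₀ hb, one_smul]
          rw [h6, h5, smul_neg, smul_smul, neg_smul]
      have h2 := hli.span_eq_top_of_card_eq_finrank' (by simp)
      have h3 : x = s • (1 : M2) := by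
        have h4 : ∀ z : Fin 2 → ℂ, x *ᵥ z = s • z := by
          intro z
          have hz : z ∈ Submodule.span ℂ (Set.range ![v, y]) := by rw [h2]; trivial
          obtain ⟨c, hc⟩ := (Submodule.mem_span_range_iff_exists_fun ℂ).1 hz
          rw [Fin.sum_univ_two] at hc
          simp only [cons_val_zero, cons_val_one] at hc
          rw [← hc, mulVec_add, mulVec_smul, mulVec_smul, hxv, hy, smul_add, smul_comm s,
            smul_comm s]
        ext i j
        have h5 := congrFun (h4 (Pi.single j 1)) i
        rw [mulVec_single_one] at h5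
        rw [Matrix.smul_apply, Matrix.one_apply]
        change x i j = _ at h5
        rw [h5, Pi.smul_apply, Pi.single_apply]
      have h4 := congrArg Matrix.trace h3
      rw [mem_sl.1 hx, trace_smul, trace_one] at h4
      simp at h4
      exact hs0 h4
    -- the subgroup which commutes with `x`
    let Δ : Subgroup G :=
      { carrier := {g | R g * x = x * R g}
        one_mem' := by
          change R 1 * x = x * R 1
          rw [map_one, one_mul, mul_one]
        mul_mem' := by
          intro a b ha hb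
          change R (a * b) * x = x * R (a * b)
          rw [map_mul, mul_assoc, hb, ← mul_assoc, ha, mul_assoc]
        inv_mem' := by
          intro a ha
          change R a⁻¹ * x = x * R a⁻¹
          have h1 : R a⁻¹ * (R a * x) * R a⁻¹ = R a⁻¹ * (x * R a) * R a⁻¹ := by rw [ha]
          rw [← mul_assoc, R_inv', one_mul] at h1
          rw [mul_assoc, mul_assoc, R_inv, mul_one] at h1
          exact h1.symm }
    have hΔ : Δ.FiniteIndex := by
      by_cases hall : ∀ g, g ∈ Δ
      · have : Δ = ⊤ := eq_top_iff.2 fun g _ => hall g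
        rw [this]
        infer_instance
      push Not at hall
      obtain ⟨g0, hg0⟩ := hall
      have hg0' : R g0 * x = -(x * R g0) := by
        obtain ⟨c, -, hc⟩ := hcomm g0
        rcases hc2 g0 c hc with rfl | rfl
        · exact absurd (by rw [one_smul] at hc; exact hc) hg0
        · rw [hc, neg_one_smul]
      refine finiteIndex_two Δ g0 fun g => ?_
      obtain ⟨c, -, hc⟩ := hcomm g
      rcases hc2 g c hc with rfl | rfl
      · left
        rw [one_smul] at hc
        exact hc
      · right
        rw [neg_one_smul] at hc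
        change R (g0⁻¹ * g) * x = x * R (g0⁻¹ * g)
        have h1 : R g0⁻¹ * x = -(x * R g0⁻¹) := by
          have h2 : R g0⁻¹ * (R g0 * x) * R g0⁻¹ = R g0⁻¹ * (-(x * R g0)) * R g0⁻¹ := by rw [hg0']
          rw [← mul_assoc, R_inv', one_mul] at h2
          rw [mul_neg, neg_mul, mul_assoc, mul_assoc, R_inv, mul_one] at h2
          rw [h2, neg_neg]
        rw [map_mul, mul_assoc, hc, mul_neg, ← mul_assoc, h1, neg_mul, neg_neg, mul_assoc]
    apply hu
    refine hR Δ hΔ v fun g hg => hker _ ?_
    have hg' : R g * x = x * R g := hg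
    rw [mulVec_mulVec, ← hg', ← mulVec_mulVec, hxv, mulVec_smul]

end rep

end

end Pool.Agent.N179.DB.Mt
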