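import Pool.Agent.N179.DB.M2

/-!
# Representations in two-by-two matrices: pairs
-/

set_option autoImplicit false
set_option linter.unusedSectionVars false

namespace Pool.Agent.N179.DB.Mt

open Matrix

noncomputable section

theorem finrank_sl : Module.finrank ℂ sl = 3 := by
  have h1 := LinearMap.finrank_range_add_finrank_ker (traceLinearMap (Fin 2) ℂ ℂ)
  have h2 : LinearMap.range (traceLinearMap (Fin 2) ℂ ℂ) = ⊤ := by
    rw [LinearMap.range_eq_top]
    intro c
    refine ⟨!![c, 0; 0, 0], ?_⟩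
    simp [traceLinearMap_apply, trace_fin_two]
  have h3 : Module.finrank ℂ (Matrix (Fin 2) (Fin 2) ℂ) = 4 := by
    rw [Module.finrank_matrix]
    simp
  have h4 : Module.finrank ℂ (LinearMap.range (traceLinearMap (Fin 2) ℂ ℂ)) = 1 := by
    rw [h2, finrank_top, Module.finrank_self]
  have h5 := h1.trans h3
  rw [h4] at h5
  have h6 : Module.finrank ℂ sl = Module.finrank ℂ (LinearMap.ker (traceLinearMap (Fin 2) ℂ ℂ)) :=
    rfl
  rw [h6]
  exact Nat.add_left_cancel h5

theorem one_notMem : (1 : M2) ∉ sl := by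
  rw [mem_sl, trace_one]
  simp

section one

variable {G : Type*} [Group G] {R : G →* M2}

/-- **The matrices of trace zero are irreducible.** -/
theorem NoLine.irr (hR : NoLine R) {S : Submodule ℂ M2} (hS : S ≤ Mt.sl)
    (hst : ∀ g, ∀ x ∈ S, cn R g x ∈ S) : S = ⊥ ∨ S = Mt.sl := by
  have hle : Module.finrank ℂ S ≤ 3 := by
    rw [← finrank_sl]
    exact Submodule.finrank_mono hS
  have h3 : Module.finrank ℂ S = 3 → S = Mt.sl := fun h =>
    Submodule.eq_of_le_of_finrank_eq hS (by rw [h, finrank_sl])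
  have h0 : Module.finrank ℂ S = 0 → S = ⊥ := fun h => Submodule.finrank_eq_zero.1 h
  have h1 : Module.finrank ℂ S ≠ 1 := by
    intro h
    obtain ⟨x, hx0, hx⟩ := finrank_eq_one_iff'.1 h
    apply hx0
    apply Subtype.ext
    refine hR.sl (hS x.2) fun g => ?_
    obtain ⟨c, hc⟩ := hx ⟨cn R g x, hst g x x.2⟩
    exact ⟨c, (congrArg Subtype.val hc).symm⟩
  have h2 : Module.finrank ℂ S ≠ 2 := by
    intro h
    let b := Module.finBasisOfFinrankEq ℂ S h
    have hx := (b 0).2
    have hy := (b 1).2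
    have hx0 : (b 0 : M2) ≠ 0 := fun h0 => b.ne_zero 0 (Subtype.ext h0)
    have hz0 : br (b 0) (b 1) ≠ 0 := by
      intro hz
      obtain ⟨c, hc⟩ := br_ne (hS hx) (hS hy) hx0 hz
      have h4 := b.linearIndependent
      have h5 := Fintype.linearIndependent_iff.1 h4 ![c, -1] (by
        rw [Fin.sum_univ_two]
        apply Subtype.ext
        simp [hc]) 1
      simp at h5
    apply hz0
    refine hR.sl (br_mem _ _) fun g => ?_
    have hex : ∀ z ∈ S, ∃ a c : ℂ, z = a • (b 0 : M2) + c • (b 1 : M2) := by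
      intro z hz
      have h4 := b.sum_repr ⟨z, hz⟩
      rw [Fin.sum_univ_two] at h4
      exact ⟨_, _, (congrArg Subtype.val h4).symm⟩
    obtain ⟨a, c, hac⟩ := hex _ (hst g _ hx)
    obtain ⟨a', c', hac'⟩ := hex _ (hst g _ hy)
    refine ⟨a * c' - c * a', ?_⟩
    rw [cn_br, hac, hac']
    simp only [br, mul_add, add_mul, smul_mul_assoc, mul_smul_comm]
    module
  interval_cases h : Module.finrank ℂ S
  · exact Or.inl (h0 rfl)
  · exact absurd rfl h1
  · exact absurd rfl h2
  · exact Or.inr (h3 rfl)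

/-- **Complete reducibility.** -/
theorem NoLine.compl (hR : NoLine R) (A : Submodule ℂ M2) (hA : ∀ g, ∀ x ∈ A, cn R g x ∈ A) :
    ∃ B : Submodule ℂ M2, (∀ g, ∀ x ∈ B, cn R g x ∈ B) ∧ IsCompl A B := by
  have hone : ∀ g, ∀ x ∈ Submodule.span ℂ {(1 : M2)}, cn R g x ∈ Submodule.span ℂ {(1 : M2)} := by
    intro g x hx
    obtain ⟨c, rfl⟩ := Submodule.mem_span_singleton.1 hx
    rw [map_smul, cn_one]
    exact hx
  have hslst : ∀ g, ∀ x ∈ Mt.sl, cn R g x ∈ Mt.sl := fun g x hx => cn_sl R hx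
  -- the decomposition of a matrix
  have hdec : ∀ x : M2, x - (x.trace / 2) • (1 : M2) ∈ Mt.sl := by
    intro x
    rw [mem_sl, trace_sub, trace_smul, trace_one]
    simp
  have hcompl : IsCompl Mt.sl (Submodule.span ℂ {(1 : M2)}) := by
    constructor
    · rw [Submodule.disjoint_def]
      intro x hx hx'
      obtain ⟨c, rfl⟩ := Submodule.mem_span_singleton.1 hx'
      rw [mem_sl, trace_smul, trace_one] at hx
      have hc : c = 0 := by simpa using hx
      rw [hc, zero_smul]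
    · rw [codisjoint_iff, eq_top_iff]
      intro x _
      have h1 : x = (x - (x.trace / 2) • (1 : M2)) + (x.trace / 2) • (1 : M2) := by abel
      rw [h1]
      exact Submodule.add_mem_sup (hdec x) (Submodule.smul_mem _ _
        (Submodule.mem_span_singleton_self _))
  rcases hR.irr (S := A ⊓ Mt.sl) inf_le_right fun g x hx => ⟨hA g x hx.1, hslst g x hx.2⟩ with h | h
  · -- `A` is zero or a complement of `sl`
    by_cases hA0 : A = ⊥
    · refine ⟨⊤, fun _ _ _ => trivial, ?_⟩
      rw [hA0]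
      exact isCompl_bot_top
    · refine ⟨Mt.sl, hslst, ?_, ?_⟩
      · rw [disjoint_iff]
        exact h
      · obtain ⟨a, haA, ha0⟩ := (Submodule.ne_bot_iff A).1 hA0
        have hta : a.trace ≠ 0 := by
          intro hta
          apply ha0
          have h1 : a ∈ A ⊓ Mt.sl := ⟨haA, mem_sl.2 hta⟩
          rw [h] at h1
          exact (Submodule.mem_bot ℂ).1 h1
        rw [codisjoint_iff, eq_top_iff]
        intro x _
        have h1 : x = (x.trace / a.trace) • a + (x - (x.trace / a.trace) • a) := by abel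
        rw [h1]
        refine Submodule.add_mem_sup (Submodule.smul_mem _ _ haA) ?_
        rw [mem_sl, trace_sub, trace_smul, smul_eq_mul, div_mul_cancel₀ _ hta, sub_self]
  · -- `A` contains `sl`
    have hle : Mt.sl ≤ A := by rw [← h]; exact inf_le_left
    by_cases h1 : (1 : M2) ∈ A
    · refine ⟨⊥, fun g x hx => by rw [(Submodule.mem_bot ℂ).1 hx, map_zero]; exact zero_mem _, ?_⟩
      have hA1 : A = ⊤ := by
        rw [eq_top_iff, ← codisjoint_iff.1 hcompl.codisjoint]
        exact sup_le hle (Submodule.span_le.2 (by simpa using h1))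
      rw [hA1]
      exact isCompl_top_bot
    · refine ⟨Submodule.span ℂ {(1 : M2)}, hone, ?_, ?_⟩
      · rw [Submodule.disjoint_def]
        intro x hx hx'
        obtain ⟨c, rfl⟩ := Submodule.mem_span_singleton.1 hx'
        by_cases hc : c = 0
        · rw [hc, zero_smul]
        · exfalso
          apply h1
          have h2 := Submodule.smul_mem A c⁻¹ hx
          rwa [smul_smul, inv_mul_cancel₀ hc, one_smul] at h2
      · exact hcompl.codisjoint.mono_left hle

end one

/-- the standard representation of `sl(2)` -/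
theorem exists_std {E F H : M2} (hEF : br E F = H) (hHE : br H E = (2 : ℂ) • E)
    (hHF : br H F = (-2 : ℂ) • F) (hE : E ≠ 0) :
    ∃ h : M2, h.det ≠ 0 ∧ E * h = h * e0 ∧ F * h = h * f0 ∧ H * h = h * h0 := by
  have hEsl : E ∈ sl := by
    have h1 := br_mem H E
    rw [hHE] at h1
    have h2 := Submodule.smul_mem sl (2⁻¹ : ℂ) h1
    rwa [smul_smul, inv_mul_cancel₀ (two_ne_zero), one_smul] at h2
  have hHsl : H ∈ sl := by rw [← hEF]; exact br_mem _ _
  -- `E² = 0`
  have hE2 : E * E = 0 := by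
    have h1 : E * E = (-E.det) • (1 : M2) := sq_sl hEsl
    have h2 : br H (E * E) = (4 : ℂ) • (E * E) := by
      have h3 : br H (E * E) = br H E * E + E * br H E := by
        simp only [br, sub_mul, mul_sub, mul_assoc]; abel
      rw [h3, hHE, smul_mul_assoc, mul_smul_comm, ← add_smul]
      norm_num
    have h3 : br H (E * E) = 0 := by
      rw [h1, br, mul_smul_comm, smul_mul_assoc, mul_one, one_mul, sub_self]
    rw [h3] at h2
    exact (smul_eq_zero.1 h2.symm).resolve_left (by norm_num)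
  obtain ⟨v, hv⟩ : ∃ v : Fin 2 → ℂ, E *ᵥ v ≠ 0 := by
    by_contra hcon
    push Not at hcon
    apply hE
    ext i j
    have h1 := congrFun (hcon (Pi.single j 1)) i
    rw [mulVec_single_one] at h1
    exact h1
  set w := E *ᵥ v with hw
  have hEw : E *ᵥ w = 0 := by rw [hw, mulVec_mulVec, hE2, zero_mulVec]
  -- the kernel of `E` is the line of `w`
  have hli : LinearIndependent ℂ ![w, v] := by
    rw [LinearIndependent.pair_iff]
    intro s t hst
    have h1 : E *ᵥ (s • w + t • v) = 0 := by rw [hst, mulVec_zero]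
    rw [mulVec_add, mulVec_smul, mulVec_smul, hEw, smul_zero, zero_add, ← hw] at h1
    have ht : t = 0 := (smul_eq_zero.1 h1).resolve_right hv
    rw [ht, zero_smul, add_zero] at hst
    exact ⟨(smul_eq_zero.1 hst).resolve_right hv, ht⟩
  have htop := hli.span_eq_top_of_card_eq_finrank' (by simp)
  have hex : ∀ u : Fin 2 → ℂ, ∃ a c : ℂ, u = a • w + c • v := by
    intro u
    have hu : u ∈ Submodule.span ℂ (Set.range ![w, v]) := by rw [htop]; trivial
    obtain ⟨c, hc⟩ := (Submodule.mem_span_range_iff_exists_fun ℂ).1 hu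
    rw [Fin.sum_univ_two] at hc
    simp only [cons_val_zero, cons_val_one] at hc
    exact ⟨_, _, hc.symm⟩
  have hHEv : ∀ u : Fin 2 → ℂ, H *ᵥ (E *ᵥ u) = E *ᵥ (H *ᵥ u) + (2 : ℂ) • (E *ᵥ u) := by
    intro u
    have h1 : H * E = E * H + (2 : ℂ) • E := by
      rw [← hHE, br]; abel
    rw [mulVec_mulVec, h1, add_mulVec, smul_mulVec, ← mulVec_mulVec]
  have hHFv : ∀ u : Fin 2 → ℂ, H *ᵥ (F *ᵥ u) = F *ᵥ (H *ᵥ u) + (-2 : ℂ) • (F *ᵥ u) := by
    intro u
    have h1 : H * F = F * H + (-2 : ℂ) • F := by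
      rw [← hHF, br]; abel
    rw [mulVec_mulVec, h1, add_mulVec, smul_mulVec, ← mulVec_mulVec]
  have hEFv : ∀ u : Fin 2 → ℂ, H *ᵥ u = E *ᵥ (F *ᵥ u) - F *ᵥ (E *ᵥ u) := by
    intro u
    rw [← hEF, br, sub_mulVec, mulVec_mulVec, mulVec_mulVec]
  -- `H w = μ w`
  obtain ⟨a, c, hHv⟩ := hex (H *ᵥ v)
  have hHw : H *ᵥ w = (c + 2) • w := by
    rw [hw, hHEv, hHv, mulVec_add, mulVec_smul, mulVec_smul, hEw, smul_zero, zero_add, ← add_smul]
  -- the trace
  have hc1 : c = -1 := by
    -- use `H² = - det H`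
    have h1 : H * H = (-H.det) • (1 : M2) := sq_sl hHsl
    have h2 : H *ᵥ (H *ᵥ v) = (-H.det) • v := by
      rw [mulVec_mulVec, h1, smul_mulVec, one_mulVec]
    have h3 : H *ᵥ (H *ᵥ w) = (-H.det) • w := by
      rw [mulVec_mulVec, h1, smul_mulVec, one_mulVec]
    rw [hHw, mulVec_smul, hHw, smul_smul] at h3
    rw [hHv, mulVec_add, mulVec_smul, mulVec_smul, hHw, hHv] at h2
    have h4 : (-H.det) = (c + 2) * (c + 2) := by
      have h5 : ((-H.det) - (c + 2) * (c + 2)) • w = 0 := by rw [sub_smul, h3, sub_self]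
      exact sub_eq_zero.1 ((smul_eq_zero.1 h5).resolve_right hv)
    have h6 : (a * (c + 2) + c * a) • w + (c * c - -H.det) • v = 0 := by
      have h7 : (a * (c + 2) + c * a) • w + (c * c - -H.det) • v =
          (a • (c + 2) • w + c • (a • w + c • v)) - (-H.det) • v := by
        module
      rw [h7, h2, sub_self]
    have h7 := (LinearIndependent.pair_iff.1 hli _ _ h6).2
    rw [h4] at h7
    linear_combination (-1 / 4) * h7
  rw [hc1] at hHw
  have hHw' : H *ᵥ w = w := by rw [hHw]; norm_num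
  set u := F *ᵥ w with hu
  have hEu : E *ᵥ u = w := by
    have h1 := hEFv w
    rw [hEw, mulVec_zero, sub_zero, hHw'] at h1
    exact h1.symm
  have hHu : H *ᵥ u = -u := by
    rw [hu, hHFv, hHw', neg_smul, two_smul]
    abel
  have hFu : F *ᵥ u = 0 := by
    have h1 : H *ᵥ (F *ᵥ u) = (-3 : ℂ) • (F *ᵥ u) := by
      rw [hHFv, hHu, mulVec_neg, neg_smul, neg_smul, two_smul]
      have h2 : (3 : ℂ) • (F *ᵥ u) = F *ᵥ u + F *ᵥ u + F *ᵥ u := by
        rw [show (3 : ℂ) = 1 + 1 + 1 by norm_num, add_smul, add_smul, one_smul]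
      rw [h2]
      abel
    -- `H² = 1`
    have h2 : H * H = (-H.det) • (1 : M2) := sq_sl hHsl
    have h3 : (-H.det) = 1 := by
      have h4 : H *ᵥ (H *ᵥ w) = (-H.det) • w := by
        rw [mulVec_mulVec, h2, smul_mulVec, one_mulVec]
      rw [hHw', hHw'] at h4
      have h5 : (1 - -H.det) • w = 0 := by rw [sub_smul, one_smul, ← h4, sub_self]
      exact (sub_eq_zero.1 ((smul_eq_zero.1 h5).resolve_right hv)).symm
    have h4 : H *ᵥ (H *ᵥ (F *ᵥ u)) = F *ᵥ u := by
      rw [mulVec_mulVec, h2, h3, one_smul, one_mulVec]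
    rw [h1, mulVec_smul, h1, smul_smul] at h4
    have h5 : ((-3 : ℂ) * -3 - 1) • (F *ᵥ u) = 0 := by rw [sub_smul, h4, one_smul, sub_self]
    exact (smul_eq_zero.1 h5).resolve_left (by norm_num)
  have hli2 : LinearIndependent ℂ ![w, u] := by
    rw [LinearIndependent.pair_iff]
    intro s t hst
    have h1 : E *ᵥ (s • w + t • u) = 0 := by rw [hst, mulVec_zero]
    rw [mulVec_add, mulVec_smul, mulVec_smul, hEw, hEu, smul_zero, zero_add] at h1
    have ht : t = 0 := (smul_eq_zero.1 h1).resolve_right hv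
    rw [ht, zero_smul, add_zero] at hst
    exact ⟨(smul_eq_zero.1 hst).resolve_right hv, ht⟩
  let h : M2 := Matrix.of fun i j => ![w, u] j i
  have hcol : ∀ j, h *ᵥ (Pi.single j 1) = ![w, u] j := by
    intro j
    rw [mulVec_single_one]
    rfl
  have hext : ∀ A B : M2, (∀ j : Fin 2, A *ᵥ (Pi.single j 1) = B *ᵥ (Pi.single j 1)) → A = B := by
    intro A B hAB
    ext i j
    have h1 := congrFun (hAB j) i
    rw [mulVec_single_one, mulVec_single_one] at h1
    exact h1
  refine ⟨h, ?_, ?_, ?_, ?_⟩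
  · intro hdet
    obtain ⟨z, hz0, hz⟩ := Matrix.exists_mulVec_eq_zero_iff.2 hdet
    apply hz0
    have h1 : h *ᵥ z = z 0 • w + z 1 • u := by
      ext i
      simp [h, mulVec, dotProduct, Fin.sum_univ_two, mul_comm]
    rw [h1] at hz
    have h2 := LinearIndependent.pair_iff.1 hli2 _ _ hz
    funext i
    fin_cases i
    · exact h2.1
    · exact h2.2
  · refine hext _ _ fun j => ?_
    rw [← mulVec_mulVec, ← mulVec_mulVec, hcol]
    fin_cases j
    · have h1 : e0 *ᵥ (Pi.single (0 : Fin 2) (1 : ℂ)) = 0 := by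
        ext i; fin_cases i <;> simp [e0]
      change E *ᵥ w = h *ᵥ (e0 *ᵥ (Pi.single (0 : Fin 2) (1 : ℂ)))
      rw [h1, mulVec_zero, hEw]
    · have h1 : e0 *ᵥ (Pi.single (1 : Fin 2) (1 : ℂ)) = Pi.single 0 1 := by
        ext i; fin_cases i <;> simp [e0]
      change E *ᵥ u = h *ᵥ (e0 *ᵥ (Pi.single (1 : Fin 2) (1 : ℂ)))
      rw [h1, hcol, hEu]
      rfl
  · refine hext _ _ fun j => ?_
    rw [← mulVec_mulVec, ← mulVec_mulVec, hcol]
    fin_cases j
    · have h1 : f0 *ᵥ (Pi.single (0 : Fin 2) (1 : ℂ)) = Pi.single 1 1 := by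
        ext i; fin_cases i <;> simp [f0]
      change F *ᵥ w = h *ᵥ (f0 *ᵥ (Pi.single (0 : Fin 2) (1 : ℂ)))
      rw [h1, hcol, ← hu]
      rfl
    · have h1 : f0 *ᵥ (Pi.single (1 : Fin 2) (1 : ℂ)) = 0 := by
        ext i; fin_cases i <;> simp [f0]
      change F *ᵥ u = h *ᵥ (f0 *ᵥ (Pi.single (1 : Fin 2) (1 : ℂ)))
      rw [h1, mulVec_zero, hFu]
  · refine hext _ _ fun j => ?_
    rw [← mulVec_mulVec, ← mulVec_mulVec, hcol]
    fin_cases j
    · have h1 : h0 *ᵥ (Pi.single (0 : Fin 2) (1 : ℂ)) = Pi.single 0 1 := by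
        ext i; fin_cases i <;> simp [h0]
      change H *ᵥ w = h *ᵥ (h0 *ᵥ (Pi.single (0 : Fin 2) (1 : ℂ)))
      rw [h1, hcol, hHw']
      rfl
    · have h1 : h0 *ᵥ (Pi.single (1 : Fin 2) (1 : ℂ)) = -Pi.single 1 1 := by
        ext i; fin_cases i <;> simp [h0]
      change H *ᵥ u = h *ᵥ (h0 *ᵥ (Pi.single (1 : Fin 2) (1 : ℂ)))
      rw [h1, mulVec_neg, hcol, hHu]
      rfl

end

end Pool.Agent.N179.DB.Mt
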