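import Pool.Agent.N179.DB.M2b

/-!
# Pairs of representations in two-by-two matrices
-/

set_option autoImplicit false
set_option linter.unusedSectionVars false

namespace Pool.Agent.N179.DB.Mt

open Matrix

noncomputable section

theorem tr_e0 (y : M2) : (e0 * y).trace = y 1 0 := by
  rw [trace_fin_two, Matrix.mul_apply, Matrix.mul_apply]
  simp [e0, Fin.sum_univ_two]

theorem tr_f0 (y : M2) : (f0 * y).trace = y 0 1 := by
  rw [trace_fin_two, Matrix.mul_apply, Matrix.mul_apply]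
  simp [f0, Fin.sum_univ_two]

theorem tr_h0 {y : M2} (hy : y ∈ sl) : (h0 * y).trace = 2 * y 0 0 := by
  have h := mem_sl'.1 hy
  rw [trace_fin_two, Matrix.mul_apply, Matrix.mul_apply]
  simp [h0, Fin.sum_univ_two, h]
  ring

theorem scalar_of_comm {k : M2} (h1 : k * e0 = e0 * k) (h2 : k * f0 = f0 * k) :
    ∃ c : ℂ, k = c • (1 : M2) := by
  refine ⟨k 0 0, ?_⟩
  have a1 := congrFun (congrFun h1 0) 0
  have a2 := congrFun (congrFun h1 0) 1
  have a3 := congrFun (congrFun h2 0) 0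
  simp [e0, f0, Matrix.mul_apply, Fin.sum_univ_two] at a1 a2 a3
  refine eq_of ?_ ?_ ?_ ?_
  · simp
  · rw [Matrix.smul_apply, Matrix.one_apply_ne (by decide), smul_zero]
    exact a3
  · rw [Matrix.smul_apply, Matrix.one_apply_ne (by decide), smul_zero]
    first | exact a1 | exact a1.symm
  · simp
    exact a2.symm

variable {G : Type*} [Group G] {R R' : G →* M2}

/-- **Pairs.** -/
theorem pair (hR : NoLine R) (hR' : NoLine R') (f : M2 →ₗ[ℂ] M2)
    (hf : ∀ g x, f (cn R g x) = cn R' g (f x)) :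
    (∀ x, ∃ c : ℂ, f x = c • (1 : M2)) ∨
      ∃ h : M2, h.det ≠ 0 ∧ ∀ g, ∃ ε : ℂ, R' g * h = ε • (h * R g) := by
  -- the part of trace zero
  let T : M2 →ₗ[ℂ] M2 := f - ((2⁻¹ : ℂ) • (traceLinearMap (Fin 2) ℂ ℂ)).smulRight (1 : M2) ∘ₗ f
  have hT : ∀ x, T x = f x - ((f x).trace / 2) • (1 : M2) := by
    intro x
    change f x - ((2⁻¹ : ℂ) * (f x).trace) • (1 : M2) = _
    rw [div_eq_inv_mul]
  have hTsl : ∀ x, T x ∈ sl := by
    intro x
    rw [hT, mem_sl, trace_sub, trace_smul, trace_one]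
    simp
  have hTcn : ∀ g x, T (cn R g x) = cn R' g (T x) := by
    intro g x
    rw [hT, hT, hf, cn_trace, map_sub, map_smul, cn_one]
  have hT1 : T 1 = 0 := by
    refine hR'.sl (hTsl 1) fun g => ⟨1, ?_⟩
    rw [← hTcn, cn_one, one_smul]
  rcases hR.irr (S := LinearMap.ker T ⊓ sl) inf_le_right (fun g x hx => ⟨by
    rw [SetLike.mem_coe, LinearMap.mem_ker, hTcn, LinearMap.mem_ker.1 hx.1, map_zero],
    cn_sl R hx.2⟩) with hS | hS
  swap
  · left
    intro x
    refine ⟨(f x).trace / 2, ?_⟩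
    have h1 : T x = 0 := by
      have h2 : x = (x - (x.trace / 2) • (1 : M2)) + (x.trace / 2) • (1 : M2) := by abel
      have h3 : x - (x.trace / 2) • (1 : M2) ∈ sl := by
        rw [mem_sl, trace_sub, trace_smul, trace_one]
        simp
      rw [← hS] at h3
      rw [h2, map_add, map_smul, hT1, smul_zero, add_zero]
      exact LinearMap.mem_ker.1 h3.1
    rw [hT] at h1
    exact sub_eq_zero.1 h1
  right
  -- `T` is bijective on `sl`
  have hinj : ∀ x ∈ sl, T x = 0 → x = 0 := by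
    intro x hx h0
    have h1 : x ∈ LinearMap.ker T ⊓ sl := ⟨h0, hx⟩
    rw [hS] at h1
    exact (Submodule.mem_bot ℂ).1 h1
  let ψ : sl →ₗ[ℂ] sl := (T.comp sl.subtype).codRestrict sl fun x => hTsl x
  have hψinj : Function.Injective ψ := by
    rw [injective_iff_map_eq_zero]
    intro x hx
    apply Subtype.ext
    exact hinj x x.2 (congrArg Subtype.val hx)
  have hψsurj : Function.Surjective ψ := LinearMap.injective_iff_surjective.1 hψinj
  have hsurj : ∀ y ∈ sl, ∃ x ∈ sl, T x = y := by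
    intro y hy
    obtain ⟨x, hx⟩ := hψsurj ⟨y, hy⟩
    exact ⟨x, x.2, congrArg Subtype.val hx⟩
  -- the form is a multiple of the trace form
  let B : M2 → M2 → ℂ := fun x y => (T x * T y).trace
  have hBadd : ∀ x x' y, B (x + x') y = B x y + B x' y := fun x x' y => by
    change (T (x + x') * T y).trace = _
    rw [map_add, add_mul, trace_add]
  have hBsmul : ∀ (c : ℂ) x y, B (c • x) y = c * B x y := fun c x y => by
    change (T (c • x) * T y).trace = _
    rw [map_smul, smul_mul_assoc, trace_smul, smul_eq_mul]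
  have hBadd' : ∀ x y y', B x (y + y') = B x y + B x y' := fun x y y' => by
    change (T x * T (y + y')).trace = _
    rw [map_add, mul_add, trace_add]
  have hBsmul' : ∀ (c : ℂ) x y, B x (c • y) = c * B x y := fun c x y => by
    change (T x * T (c • y)).trace = _
    rw [map_smul, mul_smul_comm, trace_smul, smul_eq_mul]
  let θ : sl →ₗ[ℂ] sl :=
    { toFun := fun x => ⟨B x f0 • e0 + B x e0 • f0 + (B x h0 / 2) • h0,
        Submodule.add_mem _ (Submodule.add_mem _ (Submodule.smul_mem _ _ e0_mem)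
          (Submodule.smul_mem _ _ f0_mem)) (Submodule.smul_mem _ _ h0_mem)⟩
      map_add' := fun x y => by
        apply Subtype.ext
        change B (x + y : M2) f0 • e0 + B (x + y : M2) e0 • f0 + (B (x + y : M2) h0 / 2) • h0 =
          (B x f0 • e0 + B x e0 • f0 + (B x h0 / 2) • h0) +
          (B y f0 • e0 + B y e0 • f0 + (B y h0 / 2) • h0)
        rw [hBadd, hBadd, hBadd]
        module
      map_smul' := fun c x => by
        apply Subtype.ext
        change B (c • x : M2) f0 • e0 + B (c • x : M2) e0 • f0 + (B (c • x : M2) h0 / 2) • h0 =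
          c • (B x f0 • e0 + B x e0 • f0 + (B x h0 / 2) • h0)
        rw [hBsmul, hBsmul, hBsmul]
        module }
  have hθ : ∀ x : sl, (θ x : M2) = B x f0 • e0 + B x e0 • f0 + (B x h0 / 2) • h0 := fun x => rfl
  have hnt : Nontrivial sl := by
    rw [← Module.finrank_pos_iff (R := ℂ), finrank_sl]
    norm_num
  obtain ⟨c', hc'⟩ := Module.End.exists_eigenvalue θ
  obtain ⟨x0, hx0⟩ := hc'.exists_hasEigenvector
  have hθx : θ x0 = c' • x0 := hx0.apply_eq_smul
  have hx00 : (x0 : M2) ≠ 0 := fun h => hx0.2 (Subtype.ext h)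
  have hBx0 : ∀ y ∈ sl, B x0 y = c' * ((x0 : M2) * y).trace := by
    intro y hy
    have h1 : ((θ x0 : M2) * y).trace = B x0 y := by
      rw [hθ, add_mul, add_mul, trace_add, trace_add, smul_mul_assoc, smul_mul_assoc,
        smul_mul_assoc, trace_smul, trace_smul, trace_smul, tr_e0, tr_f0, tr_h0 hy]
      conv_rhs => rw [expand hy]
      rw [hBadd', hBadd', hBsmul', hBsmul', hBsmul']
      simp only [smul_eq_mul]
      ring
    rw [← h1, hθx]
    change ((c' • (x0 : M2)) * y).trace = _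
    rw [smul_mul_assoc, trace_smul, smul_eq_mul]
  let S2 : Submodule ℂ M2 :=
    { carrier := {x | x ∈ sl ∧ ∀ y ∈ sl, B x y = c' * (x * y).trace}
      zero_mem' := ⟨Submodule.zero_mem _, fun y _ => by
        have h1 := hBsmul 0 0 y
        rw [zero_smul, zero_mul] at h1
        rw [h1, zero_mul, trace_zero, mul_zero]⟩
      add_mem' := by
        rintro x x' ⟨hx, h⟩ ⟨hx', h'⟩
        exact ⟨Submodule.add_mem _ hx hx', fun y hy => by
          rw [hBadd, h y hy, h' y hy, add_mul, trace_add, mul_add]⟩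
      smul_mem' := by
        rintro c x ⟨hx, h⟩
        exact ⟨Submodule.smul_mem _ _ hx, fun y hy => by
          rw [hBsmul, h y hy, smul_mul_assoc, trace_smul, smul_eq_mul]; ring⟩ }
  have hS2st : ∀ g, ∀ x ∈ S2, cn R g x ∈ S2 := by
    refine fun g x hx => ⟨cn_sl R hx.1, fun y hy => ?_⟩
    have hy' : y = cn R g (cn R g⁻¹ y) := by
      rw [cn_apply, cn_apply, inv_inv]
      rw [mul_assoc, mul_assoc, R_inv, mul_one, ← mul_assoc, R_inv, one_mul]
    have h1 := hx.2 (cn R g⁻¹ y) (cn_sl R hy)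
    rw [hy', ← cn_mul, cn_trace, ← h1]
    change (T (cn R g x) * T (cn R g (cn R g⁻¹ y))).trace = (T x * T (cn R g⁻¹ y)).trace
    rw [hTcn, hTcn, ← cn_mul, cn_trace]
  have hS2 : S2 = sl := by
    rcases hR.irr (S := S2) (fun x hx => hx.1) hS2st with h | h
    · exfalso
      have h1 : (x0 : M2) ∈ S2 := ⟨x0.2, hBx0⟩
      rw [h] at h1
      exact hx00 ((Submodule.mem_bot ℂ).1 h1)
    · exact h
  have hB : ∀ x ∈ sl, ∀ y ∈ sl, (T x * T y).trace = c' * (x * y).trace := by
    intro x hx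
    rw [← hS2] at hx
    exact hx.2
  have hc0 : c' ≠ 0 := by
    rintro rfl
    obtain ⟨x, hx, hxT⟩ := hsurj h0 h0_mem
    have h1 := hB x hx x hx
    rw [hxT, tr_h0 h0_mem, zero_mul] at h1
    simp [h0] at h1
  -- the brackets
  have hw : ∀ w ∈ sl, ∀ y ∈ sl, (T w * T y).trace = 0 → (w * y).trace = 0 := by
    intro w hw y hy h
    rw [hB w hw y hy] at h
    exact (mul_eq_zero.1 h).resolve_left hc0
  have tbr : ∀ a b : M2, (br a b * a).trace = 0 := by
    intro a b
    rw [br, sub_mul, trace_sub, mul_assoc, trace_mul_comm, sub_self]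
  have tbr' : ∀ a b : M2, (br a b * b).trace = 0 := by
    intro a b
    rw [br, sub_mul, trace_sub, mul_assoc b a b, trace_mul_comm b (a * b), sub_self]
  obtain ⟨w1, hw1, hw1T⟩ := hsurj (br (T e0) (T f0)) (br_mem _ _)
  obtain ⟨w2, hw2, hw2T⟩ := hsurj (br (T h0) (T e0)) (br_mem _ _)
  obtain ⟨w3, hw3, hw3T⟩ := hsurj (br (T h0) (T f0)) (br_mem _ _)
  have k1 : w1 = w1 0 0 • h0 := by
    have a1 := hw w1 hw1 e0 e0_mem (by rw [hw1T]; exact tbr _ _)
    have a2 := hw w1 hw1 f0 f0_mem (by rw [hw1T]; exact tbr' _ _)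
    rw [trace_mul_comm, tr_e0] at a1
    rw [trace_mul_comm, tr_f0] at a2
    conv_lhs => rw [expand hw1, a1, a2, zero_smul, zero_smul, zero_add, zero_add]
  have k2 : w2 = w2 0 1 • e0 := by
    have a1 := hw w2 hw2 e0 e0_mem (by rw [hw2T]; exact tbr' _ _)
    have a2 := hw w2 hw2 h0 h0_mem (by rw [hw2T]; exact tbr _ _)
    rw [trace_mul_comm, tr_e0] at a1
    rw [trace_mul_comm, tr_h0 hw2] at a2
    have a3 : w2 0 0 = 0 := (mul_eq_zero.1 a2).resolve_left two_ne_zero
    conv_lhs => rw [expand hw2, a1, a3, zero_smul, zero_smul, add_zero, add_zero]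
  have k3 : w3 = w3 1 0 • f0 := by
    have a1 := hw w3 hw3 f0 f0_mem (by rw [hw3T]; exact tbr' _ _)
    have a2 := hw w3 hw3 h0 h0_mem (by rw [hw3T]; exact tbr _ _)
    rw [trace_mul_comm, tr_f0] at a1
    rw [trace_mul_comm, tr_h0 hw3] at a2
    have a3 : w3 0 0 = 0 := (mul_eq_zero.1 a2).resolve_left two_ne_zero
    conv_lhs => rw [expand hw3, a1, a3, zero_smul, zero_smul, zero_add, add_zero]
  set c1 := w1 0 0 with hc1
  set c2 := w2 0 1 with hc2
  set c3 := w3 1 0 with hc3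
  have b1 : br (T e0) (T f0) = c1 • T h0 := by rw [← hw1T, k1, map_smul]
  have b2 : br (T h0) (T e0) = c2 • T e0 := by rw [← hw2T, k2, map_smul]
  have b3 : br (T h0) (T f0) = c3 • T f0 := by rw [← hw3T, k3, map_smul]
  have t1 : (br (T e0) (T f0) * T h0).trace = 2 * c1 * c' := by
    rw [b1, smul_mul_assoc, trace_smul, hB _ h0_mem _ h0_mem, tr_h0 h0_mem, smul_eq_mul]
    simp [h0]
    ring
  have t2 : (br (T h0) (T e0) * T f0).trace = c2 * c' := by
    rw [b2, smul_mul_assoc, trace_smul, hB _ e0_mem _ f0_mem, tr_e0, smul_eq_mul]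
    simp [f0]
  have t3 : (br (T h0) (T f0) * T e0).trace = c3 * c' := by
    rw [b3, smul_mul_assoc, trace_smul, hB _ f0_mem _ e0_mem, tr_f0, smul_eq_mul]
    simp [e0]
  have cyc1 : (br (T h0) (T e0) * T f0).trace = (br (T e0) (T f0) * T h0).trace := by
    rw [br, br, sub_mul, sub_mul, trace_sub, trace_sub, mul_assoc (T h0), trace_mul_comm (T h0),
      mul_assoc (T e0) (T h0), trace_mul_comm (T e0) (T h0 * T f0), mul_assoc (T h0) (T f0),
      trace_mul_comm (T h0) (T f0 * T e0)]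
  have cyc2 : (br (T h0) (T f0) * T e0).trace = -(br (T e0) (T f0) * T h0).trace := by
    rw [br, br, sub_mul, sub_mul, trace_sub, trace_sub, mul_assoc (T h0), trace_mul_comm (T h0),
      mul_assoc (T f0) (T h0), trace_mul_comm (T f0) (T h0 * T e0), mul_assoc (T h0) (T e0),
      trace_mul_comm (T h0) (T e0 * T f0)]
    ring
  have c2e : c2 = 2 * c1 := by
    have h1 : c2 * c' = 2 * c1 * c' := by rw [← t2, cyc1, t1]
    exact mul_right_cancel₀ hc0 h1
  have c3e : c3 = -2 * c1 := by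
    have h1 : c3 * c' = -2 * c1 * c' := by rw [← t3, cyc2, t1]; ring
    exact mul_right_cancel₀ hc0 h1
  have he0 : T e0 ≠ 0 := by
    intro h
    have h1 := hinj _ e0_mem h
    have h2 := congrFun (congrFun h1 0) 1
    simp [e0] at h2
  have hc1' : c1 ≠ 0 := by
    intro h
    rw [h, zero_smul] at b1
    obtain ⟨c, hc⟩ := br_ne (hTsl e0) (hTsl f0) he0 b1
    have h1 : T (f0 - c • e0) = 0 := by rw [map_sub, map_smul, hc, sub_self]
    have h2 := hinj _ (Submodule.sub_mem _ f0_mem (Submodule.smul_mem _ _ e0_mem)) h1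
    have h3 := congrFun (congrFun h2 1) 0
    simp [e0, f0] at h3
  obtain ⟨h, hdet, hEh, hFh, hHh⟩ := exists_std (E := c1⁻¹ • T e0) (F := c1⁻¹ • T f0)
    (H := c1⁻¹ • T h0)
    (by
      have h1 : br (c1⁻¹ • T e0) (c1⁻¹ • T f0) = (c1⁻¹ * c1⁻¹) • br (T e0) (T f0) := by
        rw [br, br, smul_mul_smul_comm, smul_mul_smul_comm, smul_sub]
      rw [h1, b1, smul_smul, mul_assoc, inv_mul_cancel₀ hc1', mul_one])
    (by
      have h1 : br (c1⁻¹ • T h0) (c1⁻¹ • T e0) = (c1⁻¹ * c1⁻¹) • br (T h0) (T e0) := by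
        rw [br, br, smul_mul_smul_comm, smul_mul_smul_comm, smul_sub]
      rw [h1, b2, c2e, smul_smul, smul_smul]
      congr 1
      field_simp)
    (by
      have h1 : br (c1⁻¹ • T h0) (c1⁻¹ • T f0) = (c1⁻¹ * c1⁻¹) • br (T h0) (T f0) := by
        rw [br, br, smul_mul_smul_comm, smul_mul_smul_comm, smul_sub]
      rw [h1, b3, c3e, smul_smul, smul_smul]
      congr 1
      field_simp)
    (smul_ne_zero (inv_ne_zero hc1') he0)
  refine ⟨h, hdet, fun g => ?_⟩
  have key : ∀ x ∈ sl, T x * h = c1 • (h * x) := by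
    intro x hx
    have g1 : ∀ y : M2, (c1⁻¹ • T y) * h = h * y → T y * h = c1 • (h * y) := by
      intro y hy
      rw [← hy, smul_mul_assoc, smul_smul, mul_inv_cancel₀ hc1', one_smul]
    rw [expand hx, map_add, map_add, map_smul, map_smul, map_smul, add_mul, add_mul,
      smul_mul_assoc, smul_mul_assoc, smul_mul_assoc, g1 _ hEh, g1 _ hFh, g1 _ hHh, mul_add,
      mul_add, mul_smul_comm, mul_smul_comm, mul_smul_comm]
    module
  have hu : IsUnit h.det := isUnit_iff_ne_zero.2 hdet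
  have hi : h * h⁻¹ = 1 := Matrix.mul_nonsing_inv h hu
  have hi' : h⁻¹ * h = 1 := Matrix.nonsing_inv_mul h hu
  set k := R g⁻¹ * (h⁻¹ * (R' g * h)) with hk
  have hkx : ∀ x ∈ sl, k * x = x * k := by
    intro x hx
    have h1 := key (cn R g x) (cn_sl R hx)
    rw [hTcn, cn_apply, cn_apply] at h1
    have h2 : T x = c1 • (h * (x * h⁻¹)) := by
      have h3 := congrArg (fun y => y * h⁻¹) (key x hx)
      simp only [mul_assoc, hi, mul_one, smul_mul_assoc] at h3
      exact h3
    rw [h2] at h1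
    simp only [smul_mul_assoc, mul_smul_comm, mul_assoc] at h1
    have h3 : R' g * (h * (x * (h⁻¹ * (R' g⁻¹ * h)))) = h * (R g * (x * R g⁻¹)) := by
      have h4 := congrArg (fun y => c1⁻¹ • y) h1
      simp only [smul_smul, inv_mul_cancel₀ hc1', one_smul] at h4
      exact h4
    have h5 := congrArg (fun y => R g⁻¹ * (h⁻¹ * (y * (h⁻¹ * (R' g * h))))) h3
    have e1 : R g⁻¹ * (h⁻¹ * (R' g * (h * (x * (h⁻¹ * (R' g⁻¹ * h)))) * (h⁻¹ * (R' g * h)))) =
        k * x := by
      rw [hk]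
      calc R g⁻¹ * (h⁻¹ * (R' g * (h * (x * (h⁻¹ * (R' g⁻¹ * h)))) * (h⁻¹ * (R' g * h)))) =
          R g⁻¹ * h⁻¹ * R' g * h * x * h⁻¹ * R' g⁻¹ * (h * h⁻¹) * R' g * h := by
            simp only [mul_assoc]
        _ = R g⁻¹ * h⁻¹ * R' g * h * x * h⁻¹ * (R' g⁻¹ * R' g) * h := by
            rw [hi]; simp only [mul_assoc, one_mul]
        _ = R g⁻¹ * h⁻¹ * R' g * h * x * (h⁻¹ * h) := by
            rw [R_inv']; simp only [mul_assoc, one_mul]
        _ = _ := by rw [hi']; simp only [mul_assoc, mul_one]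
    have e2 : R g⁻¹ * (h⁻¹ * (h * (R g * (x * R g⁻¹)) * (h⁻¹ * (R' g * h)))) = x * k := by
      rw [hk]
      calc R g⁻¹ * (h⁻¹ * (h * (R g * (x * R g⁻¹)) * (h⁻¹ * (R' g * h)))) =
          R g⁻¹ * (h⁻¹ * h) * R g * x * R g⁻¹ * h⁻¹ * R' g * h := by
            simp only [mul_assoc]
        _ = (R g⁻¹ * R g) * x * R g⁻¹ * h⁻¹ * R' g * h := by
            rw [hi']; simp only [mul_assoc, one_mul]
        _ = _ := by rw [R_inv']; simp only [mul_assoc, one_mul]
    exact e1.symm.trans (h5.trans e2)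
  obtain ⟨ε, hε⟩ := scalar_of_comm (hkx _ e0_mem) (hkx _ f0_mem)
  refine ⟨ε, ?_⟩
  have h6 : h * (R g * k) = ε • (h * R g) := by
    rw [hε, mul_smul_comm, mul_one, mul_smul_comm]
  rw [← h6, hk]
  calc R' g * h = (h * h⁻¹) * (R' g * h) := by rw [hi, one_mul]
    _ = h * ((R g * R g⁻¹) * (h⁻¹ * (R' g * h))) := by rw [R_inv, one_mul, mul_assoc]
    _ = _ := by rw [mul_assoc (R g)]

end

end Pool.Agent.N179.DB.Mt
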