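import Pool.Agent.N179.DB.Var

/-!
# The theorem for de Rham-Betti classes
-/

set_option autoImplicit false
set_option linter.unusedSectionVars false

open CategoryTheory AlgebraicGeometry TensorProduct

universe u

namespace Pool.Agent.N179.DB.S

open Module Pool.Agent.Y133.Per Pool.Agent.N179.DB Pool.Agent.N179.GR.S
open Pool.Agent.H914 Pool.Agent.H914.VarClass Pool.Agent.H914.VarClass.Obj
  Pool.Agent.H914.WeilCohomology Pool.Agent.TH125.Gal

variable {k : Type u} [Field k] {𝒱 : VarClass k} {ops : CycleOps 𝒱}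
  {W : WeilCohomology.{u, 0} ops} [Algebra W.K ℂ] {F : Subfield ℂ} (D : DeRham W F)

noncomputable section

include D in
theorem scal (X : 𝒱.Obj) (r : W.K) : algebraMap W.K ℂ r ∈ F := (D.form X).scal r

/-- descent of membership -/
theorem mem_of_base {A : Type} [Ring A] [Algebra W.K A] (S : Submodule W.K A) {c : A}
    (h : (tm 1 c : Base W.K A) ∈ Submodule.span ℂ {x : Base W.K A | ∃ s ∈ S, x = tm 1 s}) :
    c ∈ S := by
  by_contra hc
  obtain ⟨φ, h1, h2⟩ := Submodule.exists_le_ker_of_notMem hc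
  have h3 : Submodule.span ℂ {x : Base W.K A | ∃ s ∈ S, x = tm 1 s} ≤ LinearMap.ker (baseTr φ) := by
    refine Submodule.span_le.2 ?_
    rintro _ ⟨s, hs, rfl⟩
    rw [SetLike.mem_coe, LinearMap.mem_ker, baseTr_tm, LinearMap.mem_ker.1 (h2 hs), map_zero,
      mul_zero]
  have h4 := h3 h
  rw [LinearMap.mem_ker, baseTr_tm, one_mul] at h4
  exact h1 ((map_eq_zero_iff _ (algebraMap W.K ℂ).injective).1 h4)

/-- the extension of a subspace -/
def gr' (W : WeilCohomology.{u, 0} ops) [Algebra W.K ℂ] (X : 𝒱.Obj) (i : ℕ) :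
    Submodule ℂ (Base W.K (W.H X)) := (W.gr X i).baseChange ℂ

theorem gr'_eq (X : 𝒱.Obj) (i : ℕ) : gr' W X i =
    Submodule.span ℂ {x : Base W.K (W.H X) | ∃ s ∈ W.gr X i, x = tm 1 s} := by
  have h1 := Submodule.baseChange_eq_span (A := ℂ) (p := W.gr X i)
  refine Eq.trans (show gr' W X i = _ from h1) ?_
  apply le_antisymm
  · refine Submodule.span_mono ?_
    rintro _ ⟨s, hs, rfl⟩
    exact ⟨s, hs, rfl⟩
  · refine Submodule.span_mono ?_
    rintro _ ⟨s, hs, rfl⟩
    exact ⟨s, hs, rfl⟩

theorem gal_gr' {X : 𝒱.Obj} {i : ℕ} (τ : ℂ ≃+* ℂ) (h : FixK W.K τ) {x : Base W.K (W.H X)}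
    (hx : x ∈ gr' W X i) : galB τ h x ∈ gr' W X i :=
  sig_gr (K := W.K) (L := ℂ) (AlgEquiv.ofRingEquiv (f := τ) h) hx

/-- the character -/
def ch (W : WeilCohomology.{u, 0} ops) [Algebra W.K ℂ] (F : Subfield ℂ) :
    PG W.K F →* (baseW W ℂ).Kˣ := chi W.K F

/-- the algebraic classes -/
def algS (W : WeilCohomology.{u, 0} ops) [Algebra W.K ℂ] (X : 𝒱.Obj) (j : ℕ) :
    Set (Base W.K (W.H X)) := algClasses (baseW W ℂ) X j

/-- the algebraic classes -/
def algT (W : WeilCohomology.{u, 0} ops) [Algebra W.K ℂ] (X : 𝒱.Obj) (j : ℕ) :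
    Set (Cx W.K (W.H X)) := algClasses (baseW W ℂ) X j

theorem span_alg {X : 𝒱.Obj} {j : ℕ} : ∀ c ∈ spanCycles W X (j : ℤ),
    (tens 1 c : Cx W.K (W.H X)) ∈ Submodule.span ℂ (algT W X j) := by
  intro c hc
  unfold spanCycles at hc
  induction hc using Submodule.span_induction with
  | mem c hc =>
    obtain ⟨p, hp, z, hz, rfl⟩ := hc
    obtain rfl : p = j := by exact_mod_cast hp
    exact Submodule.subset_span ⟨z, hz, rfl⟩
  | zero =>
    have h : (tens 1 (0 : W.H X) : Cx W.K (W.H X)) = 0 := TensorProduct.tmul_zero _ _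
    rw [h]; exact Submodule.zero_mem _
  | add a b _ _ ha hb => rw [tens_add]; exact Submodule.add_mem _ ha hb
  | smul r a _ ha =>
    rw [tens_smul, mul_one]
    have h : (tens (algebraMap W.K ℂ r) a : Cx W.K (W.H X)) = algebraMap W.K ℂ r • tens 1 a := by
      rw [smul_tens, mul_one]
    rw [h]
    exact Submodule.smul_mem _ _ ha

theorem tate_iff [IsAlgClosed F] (X : 𝒱.Obj) :
    TateConjecture (ch W F) (var D X) ↔ PeriodConjecture D X := by
  have hKF : ∀ r : W.K, algebraMap W.K ℂ r ∈ F := scal D X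
  constructor
  · intro h j c hc
    have h0 : (tm 1 c : Base W.K (W.H X)) ∈ gr' W X (2 * j) := by
      rw [gr'_eq]
      exact Submodule.subset_span ⟨c, hc.1, rfl⟩
    have h1 : InF (coh D X).b (KF W.K) (tens 1 c : Cx W.K (W.H X)) := inF_tens (coh D X).bK c
    have h2 : InF (coh D X).e F (twoPiI ^ j • (tens 1 c : Cx W.K (W.H X))) := by
      rw [← (coh D X).mem, smul_tens, mul_one]
      exact hc.2
    have h3 := h j (tm 1 c : Base W.K (W.H X)) h0 ⟨⊤, inferInstance, fun g _ =>
      rho_of_inF (K := W.K) (b := (coh D X).b) (e := (coh D X).e) h1 h2 g⟩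
    refine mem_of_base (spanCycles W X (j : ℤ)) ?_
    refine (Submodule.span_mono ?_) (show (tm 1 c : Base W.K (W.H X)) ∈
      Submodule.span ℂ (algS W X j) from h3)
    rintro _ ⟨z, hz, rfl⟩
    exact ⟨W.cl X z, Submodule.subset_span ⟨j, rfl, z, hz, rfl⟩, rfl⟩
  · rintro h j z hz ⟨Δ, hΔ, hfix⟩
    let N : Submodule ℂ (Cx W.K (W.H X)) := gr' W X (2 * j) ⊓ pot (coh D X).b (coh D X).e W.K F j
    have hN := pot_le (K := W.K) (F := F) (b := (coh D X).b) (e := (coh D X).e) hKF (j := j) N (by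
      intro τ hτ x hx
      refine ⟨?_, pot_sl hτ hx.2⟩
      rw [← (coh D X).gal_eq hτ]
      exact gal_gr' τ hτ hx.1) inf_le_right
    have hzN : (show Cx W.K (W.H X) from z) ∈ N := ⟨hz, Δ, hΔ, hfix⟩
    have h1 := hN hzN
    have h2 : Submodule.span ℂ {x | x ∈ N ∧ InF (coh D X).b (KF W.K) x ∧
        InF (coh D X).e F (twoPiI ^ j • x)} ≤ Submodule.span ℂ (algT W X j) := by
      refine Submodule.span_le.2 ?_
      rintro x ⟨⟨hx1, -⟩, hx2, hx3⟩
      obtain ⟨(c : W.H X), rfl⟩ := exists_tens (coh D X).bK hx2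
      have hc1 : c ∈ W.gr X (2 * j) := by
        refine mem_of_base _ ?_
        have h3 := hx1
        rw [gr'_eq] at h3
        exact h3
      have hc2 : IsDRB D X j c := by
        refine ⟨hc1, ?_⟩
        have h5 : twoPiI ^ j • (tens 1 c : Cx W.K (W.H X)) ∈ D.dR X := ((coh D X).mem _).2 hx3
        rw [smul_tens, mul_one] at h5
        exact h5
      exact span_alg c (h j c hc2)
    exact h2 h1

/-- the trace -/
theorem traceInv (X : 𝒱.Obj) : TraceInv (ch W F) (var D X) := by
  -- the trace and the action on the coefficients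
  have hgal : ∀ (τ : ℂ ≃+* ℂ) (h : FixK W.K τ) (x : Base W.K (W.H X)),
      baseTr (W.tr X) (galB τ h x) = τ (baseTr (W.tr X) x) := by
    intro τ h x
    refine base_ind (p := fun x => baseTr (W.tr X) (galB τ h x) = τ (baseTr (W.tr X) x))
      ?_ ?_ ?_ x
    · have h0 : galB τ h (0 : Base W.K (W.H X)) = 0 := map_zero ((autLin τ h).rTensor (W.H X))
      rw [h0, map_zero, map_zero]
    · intro r c
      have h1 : galB τ h (tm r c : Base W.K (W.H X)) = tm (τ r) c := rfl
      rw [h1, baseTr_tm, baseTr_tm, map_mul, h]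
    · intro a b ha hb
      have h1 : galB τ h (a + b) = galB τ h a + galB τ h b :=
        map_add ((autLin τ h).rTensor (W.H X)) a b
      rw [h1, map_add, ha, hb, map_add, map_add]
  have key : ∀ (g : PG W.K F) (a : Base W.K (W.H X)),
      baseTr (W.tr X) (rr D X g a) = (chi W.K F g : ℂ) ^ X.dim * baseTr (W.tr X) a := by
    intro g
    refine pg_ind (C := fun g => ∀ a : Base W.K (W.H X),
      baseTr (W.tr X) (rr D X g a) = (chi W.K F g : ℂ) ^ X.dim * baseTr (W.tr X) a) g ?_ ?_ ?_ ?_
    · intro a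
      have h1 : rr D X (1 : PG W.K F) a = a := by
        unfold rr
        rw [map_one]
        rfl
      rw [h1, map_one, Units.val_one, one_pow, one_mul]
    · intro p a
      let v : Fin (coh D X).n → Base W.K (W.H X) := fun i => (coh D X).e i
      have he : ∀ i, v i ∈ D.dR X := fun i => ((coh D X).mem _).2 (InF.basis i)
      let T1 : Base W.K (W.H X) →ₗ[ℂ] ℂ :=
        (baseTr (W.tr X)).comp (rr D X (FreeGroup.of p)).toLinearMap
      let T2 : Base W.K (W.H X) →ₗ[ℂ] ℂ :=
        ((chi W.K F (FreeGroup.of p) : ℂ) ^ X.dim) • baseTr (W.tr X)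
      have hT : T1 = T2 := by
        refine eq_of_basis (coh D X).b (coh D X).e p.β fun i => ?_
        rw [← (coh D X).gal_eq p.fixβ]
        change baseTr (W.tr X) (rr D X (FreeGroup.of p) (galB p.β p.fixβ (v i))) =
          (chi W.K F (FreeGroup.of p) : ℂ) ^ X.dim * baseTr (W.tr X) (galB p.β p.fixβ (v i))
        have h1 : rr D X (FreeGroup.of p) (galB p.β p.fixβ (v i)) = galB p.α p.fixα (v i) := by
          rw [rr, rho_of]
          have h1 := P_inF (coh D X).b (coh D X).e p.agree (((coh D X).mem _).1 (he i))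
          have h2 := (coh D X).gal_eq p.fixβ (v i)
          have h3 := (coh D X).gal_eq p.fixα (v i)
          rw [← h2, ← h3] at h1
          exact h1
        obtain ⟨r, hr, hr'⟩ := (D.form X).tr _ (he i)
        have h3 : p.β twoPiI ≠ 0 := by simpa using Pool.Agent.N179.DB.twoPiI_ne
        rw [h1, hgal, hgal, hr', map_mul, map_mul, map_pow, map_pow, chi_of, div_pow,
          p.agree r hr, ← mul_assoc, div_mul_cancel₀ _ (pow_ne_zero _ h3)]
      exact LinearMap.congr_fun hT a
    · intro g hg a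
      have h1 := hg (rr D X g⁻¹ a)
      have h2 : ∀ z, rr D X g (rr D X g⁻¹ z) = z := fun z => apply_inv' _ _ g z
      have hc : (chi W.K F g : ℂ) ≠ 0 := Units.ne_zero _
      rw [h2] at h1
      rw [map_inv (chi W.K F), Units.val_inv_eq_inv_val, inv_pow, h1, ← mul_assoc,
        inv_mul_cancel₀ (pow_ne_zero _ hc), one_mul]
    · intro g g' hg hg' a
      have h1 : ∀ z, rr D X (g * g') z = rr D X g (rr D X g' z) := fun z => by
        unfold rr
        rw [map_mul]
        rfl
      rw [h1, hg, hg', map_mul, Units.val_mul, mul_pow, mul_assoc]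
  exact fun g a => key g a

theorem intertwines {X Y : 𝒱.Obj} (f : X ⟶ Y) :
    Intertwines ((baseW W ℂ).map f) (var D Y).act (var D X).act := by
  intro g a
  have h1 : ∀ x : Cx W.K (W.H Y), bc (W.map f).toLinearMap x =
      (show Cx W.K (W.H X) from baseMap (W.map f) x) := by
    intro x
    refine cx_ind (p := fun x => bc (W.map f).toLinearMap x =
      (show Cx W.K (W.H X) from baseMap (W.map f) x)) ?_ ?_ ?_ x
    · rw [map_zero]
      exact (map_zero (baseMap (W.map f))).symm
    · intro r c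
      rfl
    · intro a b ha hb
      rw [map_add, ha, hb]
      exact (map_add (baseMap (W.map f)) a b).symm
  have h2 := rho_lin (M := coh D Y) (N := coh D X) (W.map f).toLinearMap (fun x hx => by
    have h3 := D.map f x hx
    have h4 := h1 x
    change bc (W.map f).toLinearMap x ∈ D.dR X
    rw [h4]
    exact h3) g a
  have h5 := (h1 _).symm.trans (h2.trans (congrArg _ (h1 _)))
  exact h5.symm

end

end Pool.Agent.N179.DB.S
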