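import Pool.Agent.N179.DB.M2c
import Pool.Agent.N179.GR.Defs

/-!
# Representations of rank two
-/

set_option autoImplicit false
set_option linter.unusedSectionVars false

namespace Pool.Agent.N179.DB.Rk

open Matrix Module Pool.Agent.N179.GR.S Pool.Agent.N179.DB.Mt

noncomputable section

variable {G : Type} [Group G]

/-- the matrices of a representation -/
def mat (M : GRep ℂ G) (b : Basis (Fin 2) ℂ M.V) : G →* M2 where
  toFun g := LinearMap.toMatrix b b (M.act g)
  map_one' := by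
    have h : M.act 1 = LinearMap.id := LinearMap.ext M.one
    rw [h, LinearMap.toMatrix_id]
  map_mul' g h := by
    have h' : M.act (g * h) = (M.act g) ∘ₗ (M.act h) := LinearMap.ext (M.mul g h)
    rw [h', LinearMap.toMatrix_comp b b b]

/-- the matrix of an operator -/
def tm2 (M M' : GRep ℂ G) (b : Basis (Fin 2) ℂ M.V) (b' : Basis (Fin 2) ℂ M'.V) :
    (M.V →ₗ[ℂ] M'.V) ≃ₗ[ℂ] M2 := LinearMap.toMatrix b b'

theorem conj_mat (M : GRep ℂ G) (b : Basis (Fin 2) ℂ M.V) (g : G) (x : Op M) :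
    tm2 M M b b ((endo M).ap g x) = cn (mat M b) g (tm2 M M b b x) := by
  change LinearMap.toMatrix b b ((M.act g ∘ₗ (show M.V →ₗ[ℂ] M.V from x)) ∘ₗ M.act g⁻¹) = _
  rw [LinearMap.toMatrix_comp b b b, LinearMap.toMatrix_comp b b b, cn_apply, mul_assoc]
  rfl

theorem repr_act (M : GRep ℂ G) (b : Basis (Fin 2) ℂ M.V) (g : G) (v : Fin 2 → ℂ) :
    mat M b g *ᵥ v = b.equivFun (M.act g (b.equivFun.symm v)) := by
  have h := LinearMap.toMatrix_mulVec_repr b b (M.act g) (b.equivFun.symm v)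
  have h1 : ((b.repr (b.equivFun.symm v) : Fin 2 → ℂ)) = v := b.equivFun.apply_symm_apply v
  rw [h1] at h
  exact h

/-- there are no semi-invariant vectors -/
def NoSemi (M : GRep ℂ G) : Prop := ∀ x : M.V, SemiInv (M := M) x → x = 0

theorem NoSemi.noLine {M : GRep ℂ G} (h : NoSemi M) (b : Basis (Fin 2) ℂ M.V) :
    NoLine (mat M b) := by
  intro Δ hΔ v hv
  have h1 : SemiInv (M := M) (b.equivFun.symm v) := by
    refine ⟨Δ, hΔ, fun g hg => ?_⟩
    obtain ⟨c, hc⟩ := hv g hg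
    refine ⟨c, ?_⟩
    rw [repr_act] at hc
    change M.act g (b.equivFun.symm v) = c • b.equivFun.symm v
    rw [← map_smul, ← hc, LinearEquiv.symm_apply_apply]
  have h2 := h _ h1
  rw [← b.equivFun.apply_symm_apply v, h2, map_zero]

theorem NoSemi.semisimple {M : GRep ℂ G} (h : NoSemi M) (b : Basis (Fin 2) ℂ M.V) :
    Semisimple (endo M) := by
  intro A hA
  let T : (endo M).V ≃ₗ[ℂ] M2 := tm2 M M b b
  let A' : Submodule ℂ (endo M).V := A
  have hT : ∀ (g : G) (x : (endo M).V), T ((endo M).ap g x) = cn (mat M b) g (T x) := fun g x =>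
    conj_mat M b g x
  obtain ⟨B, hB, hc⟩ := (h.noLine b).compl (A'.map (T : (endo M).V →ₗ[ℂ] M2)) (by
    rintro g _ ⟨x, hx, rfl⟩
    exact ⟨(endo M).ap g x, hA g x hx, hT g x⟩)
  refine ⟨(B.comap (T : (endo M).V →ₗ[ℂ] M2) : Submodule ℂ (endo M).V), fun g x hx => ?_, ?_⟩
  · change T ((endo M).ap g x) ∈ B
    rw [hT]
    exact hB g _ hx
  · have h1 : A' = (A'.map (T : (endo M).V →ₗ[ℂ] M2)).comap (T : (endo M).V →ₗ[ℂ] M2) :=
      (Submodule.comap_map_eq_of_injective T.injective A').symm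
    change IsCompl A' (B.comap (T : (endo M).V →ₗ[ℂ] M2))
    rw [h1]
    exact (Submodule.orderIsoMapComap T).symm.isCompl_iff.1 hc

/-- the identity is semi-invariant -/
theorem has_one (M : GRep ℂ G) (c : ℂ) (x : (endo M).V)
    (hx : (show M.V →ₗ[ℂ] M.V from x) = c • LinearMap.id) : (semiSpan (endo M)).Has x := by
  have h1 : SemiInv (M := endo M) (show (endo M).V from (LinearMap.id : M.V →ₗ[ℂ] M.V)) := by
    refine ⟨⊤, inferInstance, fun g _ => ⟨1, ?_⟩⟩
    rw [one_smul]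
    refine LinearMap.ext fun v => ?_
    change M.act g (M.act g⁻¹ v) = v
    rw [← M.mul, mul_inv_cancel, M.one]
  have h2 : x = c • (show (endo M).V from (LinearMap.id : M.V →ₗ[ℂ] M.V)) := hx
  rw [h2]
  exact Submodule.smul_mem _ _ (Submodule.subset_span h1)

/-- **Independence.** -/
theorem NoSemi.independent {M M' : GRep ℂ G} (h : NoSemi M) (h' : NoSemi M')
    (b : Basis (Fin 2) ℂ M.V) (b' : Basis (Fin 2) ℂ M'.V)
    (hno : ∀ f : M.V ≃ₗ[ℂ] M'.V, ¬∀ g, ∃ ε : ℂ, ∀ x, M'.act g (f x) = ε • f (M.act g x)) :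
    Independent M M' := by
  intro f hf x
  let T : (endo M).V ≃ₗ[ℂ] M2 := tm2 M M b b
  let T' : (endo M').V ≃ₗ[ℂ] M2 := tm2 M' M' b' b'
  let F : M2 →ₗ[ℂ] M2 := (T' : (endo M').V →ₗ[ℂ] M2) ∘ₗ
    (show (endo M).V →ₗ[ℂ] (endo M').V from f) ∘ₗ (T.symm : M2 →ₗ[ℂ] (endo M).V)
  have hF : ∀ y : (endo M).V, F (T y) = T' (f.ev y) := by
    intro y
    change T' (f.ev (T.symm (T y))) = _
    rw [LinearEquiv.symm_apply_apply]
  rcases pair (h.noLine b) (h'.noLine b') F (by
    intro g y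
    obtain ⟨z, rfl⟩ := T.surjective y
    have h1 : cn (mat M b) g (T z) = T ((endo M).ap g z) := (conj_mat M b g z).symm
    rw [h1, hF, hF, hf g z]
    exact conj_mat M' b' g _) with h1 | ⟨A, hdet, hA⟩
  · obtain ⟨c, hc⟩ := h1 (T x)
    rw [hF] at hc
    refine has_one M' c _ ?_
    apply T'.injective
    refine hc.trans ?_
    change c • (1 : M2) = LinearMap.toMatrix b' b' (c • LinearMap.id)
    rw [map_smul, LinearMap.toMatrix_id]
  · exfalso
    let L : M.V →ₗ[ℂ] M'.V := Matrix.toLin b b' A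
    have hu : IsUnit A.det := isUnit_iff_ne_zero.2 hdet
    have hi : A * A⁻¹ = 1 := Matrix.mul_nonsing_inv A hu
    have hi' : A⁻¹ * A = 1 := Matrix.nonsing_inv_mul A hu
    let Le : M.V ≃ₗ[ℂ] M'.V := LinearEquiv.ofLinear L (Matrix.toLin b' b A⁻¹)
      (by
        change Matrix.toLin b b' A ∘ₗ Matrix.toLin b' b A⁻¹ = _
        rw [← Matrix.toLin_mul b' b b', hi, Matrix.toLin_one])
      (by
        change Matrix.toLin b' b A⁻¹ ∘ₗ Matrix.toLin b b' A = _
        rw [← Matrix.toLin_mul b b' b, hi', Matrix.toLin_one])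
    refine hno Le fun g => ?_
    obtain ⟨ε, hε⟩ := hA g
    refine ⟨ε, fun y => ?_⟩
    have h2 : (M'.act g) ∘ₗ L = ε • (L ∘ₗ M.act g) := by
      apply (LinearMap.toMatrix b b').injective
      rw [LinearMap.toMatrix_comp b b' b', map_smul, LinearMap.toMatrix_comp b b b',
        LinearMap.toMatrix_toLin]
      exact hε
    exact LinearMap.congr_fun h2 y

/-- the determinants -/
theorem sq_eq_one {M M' : GRep ℂ G} (b : Basis (Fin 2) ℂ M.V) (f : M.V ≃ₗ[ℂ] M'.V)
    {g : G} {ε : ℂ} (hdet : LinearMap.det (M.act g) = LinearMap.det (M'.act g))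
    (hg : ∀ x, M'.act g (f x) = ε • f (M.act g x)) : ε ^ 2 = 1 := by
  have h1 : M'.act g = (f : M.V →ₗ[ℂ] M'.V) ∘ₗ (ε • M.act g) ∘ₗ (f.symm : M'.V →ₗ[ℂ] M.V) := by
    refine LinearMap.ext fun y => ?_
    obtain ⟨x, rfl⟩ := f.surjective y
    rw [hg]
    simp
  have h2 : LinearMap.det (M'.act g) = LinearMap.det (ε • M.act g) := by
    rw [h1]
    exact LinearMap.det_conj _ f
  rw [LinearMap.det_smul, ← hdet, finrank_eq_card_basis b, Fintype.card_fin] at h2
  have h3 : LinearMap.det (M.act g) ≠ 0 := by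
    intro h0
    have h4 : (M.act g) ∘ₗ (M.act g⁻¹) = LinearMap.id := LinearMap.ext fun x => by
      rw [LinearMap.comp_apply, ← M.mul, mul_inv_cancel, M.one, LinearMap.id_apply]
    have h5 := congrArg LinearMap.det h4
    rw [LinearMap.det_comp, h0, zero_mul, LinearMap.det_id] at h5
    exact zero_ne_one h5
  exact mul_right_cancel₀ h3 (by rw [← h2, one_mul])

end

end Pool.Agent.N179.DB.Rk
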