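import Pool.Agent.N179.DB.Var
import Pool.Agent.N179.DB.Rk

/-!
# De Rham-Betti structures of rank two
-/

set_option autoImplicit false
set_option linter.unusedSectionVars false

open CategoryTheory AlgebraicGeometry TensorProduct

namespace Pool.Agent.N179.DB.S

open Module Pool.Agent.Y133.Per Pool.Agent.N179.DB Pool.Agent.N179.GR.S Pool.Agent.N179.DB.Rk

noncomputable section

variable {K : Type} [Field K] [Algebra K ℂ] {F : Subfield ℂ}

/-- the action in terms of other bases -/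
theorem action_eq' {M : DRB K F} {ι κ : Type} [Fintype ι] [Fintype κ] (b0 : Basis ι K M.V)
    (e0 : Basis κ ℂ (Cx K M.V)) (he : ∀ x, x ∈ M.dR ↔ InF e0 F x) :
    act0 M = rho (bx b0) e0 K F := by
  rw [action_eq]
  refine FreeGroup.ext_hom _ _ fun p => ?_
  rw [rho_of, rho_of]
  refine (op_unique M p fun s hs => ?_).symm
  rw [S.gal_eq b0, S.gal_eq b0]
  exact P_inF (bx b0) e0 p.agree ((he s).1 hs)

theorem sl_eq' {M : DRB K F} {ι : Type} [Fintype ι] (b0 : Basis ι K M.V)
    {τ : ℂ ≃+* ℂ} (hτ : FixK K τ) (x : Cx K M.V) : sl (bx b0) τ x = sl M.b τ x := by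
  rw [← S.gal_eq b0 τ hτ, ← M.gal_eq hτ]

section hom

variable (M N : DRB K F)

/-- the rational homomorphisms which respect the de Rham structures -/
theorem exists_isHom (f : Cx K M.V →ₗ[ℂ] Cx K N.V)
    (hb : InF (M.b.linearMap N.b) (KF K) f) (he : InF (M.e.linearMap N.e) F f) :
    ∃ P : M.V →ₗ[K] N.V, IsHom (M := M) (N := N) P ∧ f = bc P := by
  classical
  have h1 : ∀ k, ∃ w : N.V, f (M.b k) = tens 1 w := fun k =>
    exists_tens N.bK ((inF_hom M.b N.b).1 hb k)
  choose w hw using h1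
  let P : M.V →ₗ[K] N.V := M.bK.constr K w
  have hP : f = bc P := by
    refine M.b.ext fun k => ?_
    rw [hw]
    change _ = bc P (bx M.bK k)
    rw [bx_apply, bc_tens, Basis.constr_basis]
  refine ⟨P, fun x hx => ?_, hP⟩
  change bc P x ∈ N.dR
  rw [← hP]
  have h2 := (inF_hom M.e N.e).1 he
  have h3 := (M.mem x).1 hx
  have h4 : x = ∑ k, M.e.repr x k • M.e k := (M.e.sum_repr x).symm
  rw [N.mem, h4, map_sum]
  refine InF.sum fun k _ => ?_
  rw [map_smul]
  exact InF.smul (h3 k) (h2 k)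

variable {M N}

/-- A potentially equivariant linear map is a combination of homomorphisms. -/
theorem pot_hom [IsAlgClosed F] (hKF : ∀ r : K, algebraMap K ℂ r ∈ F)
    (f : Cx K M.V →ₗ[ℂ] Cx K N.V) (Δ : Subgroup (PG K F)) (hΔ : Δ.FiniteIndex)
    (hf : ∀ g ∈ Δ, ∀ x, f ((rep M).ap g x) = (rep N).ap g (f x)) :
    f ∈ Submodule.span ℂ {h : Cx K M.V →ₗ[ℂ] Cx K N.V | ∃ P : M.V →ₗ[K] N.V,
      IsHom (M := M) (N := N) P ∧ h = bc P} := by
  classical
  have h1 : f ∈ pot (M.b.linearMap N.b) (M.e.linearMap N.e) K F 0 := by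
    refine ⟨Δ, hΔ, fun g hg => ?_⟩
    rw [pow_zero, one_smul]
    refine LinearMap.ext fun x => ?_
    rw [rho_hom' M.b M.e N.b N.e]
    have h2 := hf g hg (rho M.b M.e K F g⁻¹ x)
    rw [rep_act, rep_act, apply_inv'] at h2
    exact h2.symm
  have h2 := pot_le (b := M.b.linearMap N.b) (e := M.e.linearMap N.e) (F := F) hKF (j := 0) _
    (fun τ hτ x hx => pot_sl hτ hx) le_rfl h1
  refine Submodule.span_mono ?_ h2
  rintro h ⟨-, hb, he⟩
  rw [pow_zero, one_smul] at he
  exact exists_isHom M N h hb he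

end hom

section gen

variable {V : Type} [AddCommGroup V] [Module ℂ V] [FiniteDimensional ℂ V] {ι κ : Type}
  [Fintype ι] [Fintype κ] {b : Basis ι ℂ V} {e : Basis κ ℂ V}

theorem exists_in_line (b : Basis ι ℂ V) (F : Subfield ℂ) {x : V} (hx0 : x ≠ 0)
    (h : ∀ τ : ℂ ≃+* ℂ, (∀ y ∈ F, τ y = y) → ∃ c : ℂ, sl b τ x = c • x) :
    ∃ a : ℂ, a ≠ 0 ∧ InF b F (a • x) := by
  have hN : ∀ τ : ℂ ≃+* ℂ, (∀ y ∈ F, τ y = y) → ∀ y ∈ Submodule.span ℂ {x},
      sl b τ y ∈ Submodule.span ℂ {x} := by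
    intro τ hτ y hy
    obtain ⟨a, rfl⟩ := Submodule.mem_span_singleton.1 hy
    obtain ⟨c, hc⟩ := h τ hτ
    rw [sl_smul, hc]
    exact Submodule.smul_mem _ _ (Submodule.smul_mem _ _ (Submodule.mem_span_singleton_self x))
  have h3 := desc b F _ hN
  by_contra hcon
  push Not at hcon
  apply hx0
  have h4 : Submodule.span ℂ {y | y ∈ Submodule.span ℂ {x} ∧ InF b F y} ≤ ⊥ := by
    refine Submodule.span_le.2 fun y hy => ?_
    obtain ⟨a, ha⟩ := Submodule.mem_span_singleton.1 hy.1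
    rcases eq_or_ne a 0 with rfl | ha0
    · rw [← ha, zero_smul]
      exact Submodule.zero_mem _
    · exact absurd (by rw [ha]; exact hy.2) (hcon a ha0)
  exact (Submodule.mem_bot ℂ).1 (h4 (h3 (Submodule.mem_span_singleton_self x)))

/-- An eigenvector: the line is rational and compatible with the de Rham structure, or there is
another eigenvector. -/
theorem line_or [IsAlgClosed F] (hKF : ∀ r : K, algebraMap K ℂ r ∈ F) {x : V} (hx0 : x ≠ 0)
    (hx : Eqv b e K F x x) :
    (∃ a c : ℂ, a ≠ 0 ∧ c ≠ 0 ∧ InF b (KF K) (a • x) ∧ InF e F (c • a • x)) ∨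
      ∃ y : V, (∀ c : ℂ, y ≠ c • x) ∧ (∀ g, ∃ c : ℂ, rho b e K F g x = c • x) ∧
        ∀ g, ∃ c : ℂ, rho b e K F g y = c • y := by
  by_cases hall : ∀ τ : ℂ ≃+* ℂ, FixK K τ → ∃ c : ℂ, sl b τ x = c • x
  · left
    obtain ⟨a, ha0, ha⟩ := exists_in_line b (KF K) hx0 fun τ hτ => hall τ (fixK_iff.2 hτ)
    have hv0 : a • x ≠ 0 := smul_ne_zero ha0 hx0
    obtain ⟨c, hc0, hc⟩ := exists_in_line e F hv0 fun σ hσ => by
      rw [sl_e_eq (b := b) hKF hσ]
      have h4 : sl b σ (a • x) = a • x := sl_eq_of_inF b σ (F := KF K) (by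
        rintro _ ⟨r, rfl⟩
        exact hσ _ (hKF r)) ha
      rw [h4]
      obtain ⟨c, hc⟩ := eig_all hKF hx (FreeGroup.of (one1 hKF hσ))⁻¹
      exact ⟨c, by rw [map_smul, hc, smul_comm]⟩
    exact ⟨a, c, ha0, hc0, ha, hc⟩
  · right
    push Not at hall
    obtain ⟨τ, hτ, hne⟩ := hall
    exact ⟨sl b τ x, hne, fun g => eig_all hKF hx g, fun g => eig_all hKF (hx.sl hτ) g⟩

/-- The projection to the line of an eigenvector. -/
theorem exists_proj (hfr : finrank ℂ V = 2) {G : Type} (R : G → V →ₗ[ℂ] V) {x y : V}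
    (hx0 : x ≠ 0) (hne : ∀ c : ℂ, y ≠ c • x) (hx : ∀ g, ∃ c : ℂ, R g x = c • x)
    (hy : ∀ g, ∃ c : ℂ, R g y = c • y) :
    ∃ f : V →ₗ[ℂ] V, (∀ g z, f (R g z) = R g (f z)) ∧ ∀ a : ℂ, f ≠ a • LinearMap.id := by
  have hli : LinearIndependent ℂ ![x, y] := by
    rw [LinearIndependent.pair_iff]
    intro s t hst
    have ht : t = 0 := by
      by_contra ht
      apply hne (-(t⁻¹ * s))
      have h3 : y = t⁻¹ • (t • y) := by rw [smul_smul, inv_mul_cancel₀ ht, one_smul]
      have h4 : t • y = -(s • x) := by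
        rw [eq_neg_iff_add_eq_zero, add_comm]
        exact hst
      rw [h3, h4, smul_neg, smul_smul, neg_smul]
    refine ⟨?_, ht⟩
    rw [ht, zero_smul, add_zero] at hst
    exact (smul_eq_zero.1 hst).resolve_right hx0
  let c := basisOfLinearIndependentOfCardEqFinrank hli (by rw [Fintype.card_fin, hfr])
  have hc0 : c 0 = x := by rw [coe_basisOfLinearIndependentOfCardEqFinrank]; rfl
  have hc1 : c 1 = y := by rw [coe_basisOfLinearIndependentOfCardEqFinrank]; rfl
  let f : V →ₗ[ℂ] V := c.constr ℂ ![x, 0]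
  have hf0 : f x = x := by
    have := c.constr_basis ℂ ![x, 0] 0
    rw [hc0] at this
    exact this
  have hf1 : f y = 0 := by
    have := c.constr_basis ℂ ![x, 0] 1
    rw [hc1] at this
    exact this
  refine ⟨f, fun g z => ?_, ?_⟩
  · have h5 : f ∘ₗ R g = R g ∘ₗ f := by
      refine c.ext fun i => ?_
      fin_cases i
      · change f (R g (c 0)) = R g (f (c 0))
        rw [hc0, hf0]
        obtain ⟨a, ha⟩ := hx g
        rw [ha, map_smul, hf0]
      · change f (R g (c 1)) = R g (f (c 1))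
        rw [hc1, hf1]
        obtain ⟨a, ha⟩ := hy g
        rw [ha, map_smul, hf1, smul_zero, map_zero]
    exact LinearMap.congr_fun h5 z
  · intro a ha
    have h8 : a • x = x := by
      have := LinearMap.congr_fun ha x
      rw [hf0] at this
      exact this.symm
    have h9 : a • y = 0 := by
      have := LinearMap.congr_fun ha y
      rw [hf1] at this
      exact this.symm
    rcases smul_eq_zero.1 h9 with h | h
    · rw [h, zero_smul] at h8
      exact hx0 h8.symm
    · exact hne 0 (by rw [zero_smul]; exact h)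

end gen

/-- **A criterion for the absence of semi-invariant vectors.** -/
theorem noSemi_of [IsAlgClosed F] (hKF : ∀ r : K, algebraMap K ℂ r ∈ F) (M : DRB K F)
    (b0 : Basis (Fin 2) K M.V)
    (h1 : ∀ (c : ℂ) (v : M.V), tens c v ∈ M.dR → c = 0 ∨ v = 0)
    (h2 : ∀ P : M.V →ₗ[K] M.V, IsHom (M := M) (N := M) P → ∃ r : K, P = r • LinearMap.id) :
    NoSemi (rep M) := by
  have : FiniteDimensional ℂ (Cx K M.V) := Cx.fd M.V
  have key : ∀ x : Cx K M.V, Eqv M.b M.e K F x x → x = 0 := by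
    intro x hx
    by_contra hx0
    rcases line_or hKF hx0 hx with ⟨a, c, ha, hc, hb, he⟩ | ⟨y, hne, hxg, hyg⟩
    · obtain ⟨v, hv⟩ := exists_tens M.bK hb
      rw [hv, smul_tens, mul_one] at he
      have h4 : (tens 1 v : Cx K M.V) ≠ 0 := by
        rw [← hv]
        exact smul_ne_zero ha hx0
      rcases h1 c v ((M.mem _).2 he) with h | rfl
      · exact hc h
      · exact h4 (TensorProduct.tmul_zero _ _)
    · obtain ⟨f, hf, hfa⟩ := exists_proj (finrank_eq_card_basis (bx b0))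
        (fun g : PG K F => (rho M.b M.e K F g : Cx K M.V →ₗ[ℂ] Cx K M.V)) hx0 hne hxg hyg
      have h6 := pot_hom (M := M) (N := M) hKF f ⊤ inferInstance fun g _ z => by
        rw [rep_act, rep_act]
        exact hf g z
      have h7 : Submodule.span ℂ {h : Cx K M.V →ₗ[ℂ] Cx K M.V | ∃ P : M.V →ₗ[K] M.V,
          IsHom (M := M) (N := M) P ∧ h = bc P} ≤ Submodule.span ℂ {LinearMap.id} := by
        refine Submodule.span_le.2 ?_
        rintro _ ⟨P, hP, rfl⟩
        obtain ⟨r, rfl⟩ := h2 P hP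
        rw [SetLike.mem_coe, Submodule.mem_span_singleton]
        refine ⟨algebraMap K ℂ r, ?_⟩
        refine (bx b0).ext fun i => ?_
        rw [bx_apply, LinearMap.smul_apply, LinearMap.id_apply, bc_tens, smul_tens,
          LinearMap.smul_apply, LinearMap.id_apply, tens_smul]
      obtain ⟨a, ha⟩ := Submodule.mem_span_singleton.1 (h7 h6)
      exact hfa a ha.symm
  intro x hx
  obtain ⟨Δ, hΔ, h⟩ := hx
  refine key x ⟨Δ, hΔ, fun g hg => ?_⟩
  obtain ⟨c, hc⟩ := h g hg
  rw [rep_act] at hc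
  exact ⟨c, hc, hc⟩

/-- the subgroup of the elements for which `f` is equivariant -/
def eqSub {G : Type} [Group G] {M N : GRep ℂ G} (f : M.V ≃ₗ[ℂ] N.V) : Subgroup G where
  carrier := {g | ∀ x, N.act g (f x) = f (M.act g x)}
  one_mem' := fun x => by rw [M.one, N.one]
  mul_mem' := fun {g h} hg hh x => by
    rw [N.mul, hh, hg, M.mul]
  inv_mem' := fun {g} hg x => by
    have h1 := hg (M.act g⁻¹ x)
    rw [← M.mul, mul_inv_cancel, M.one] at h1
    rw [← h1, ← N.mul, inv_mul_cancel, N.one]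

/-- an operator which is equivariant up to signs -/
theorem finiteIndex_eqSub {G : Type} [Group G] {M N : GRep ℂ G} (f : M.V ≃ₗ[ℂ] N.V)
    (h : ∀ g, ∃ ε : ℂ, (ε = 1 ∨ ε = -1) ∧ ∀ x, N.act g (f x) = ε • f (M.act g x)) :
    (eqSub f).FiniteIndex := by
  by_cases hall : ∀ g, g ∈ eqSub f
  · have h1 : eqSub f = ⊤ := eq_top_iff.2 fun g _ => hall g
    rw [h1]
    infer_instance
  · push Not at hall
    obtain ⟨g0, hg0⟩ := hall
    refine Mt.finiteIndex_two _ g0 fun g => ?_
    obtain ⟨ε, hε, h1⟩ := h g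
    obtain ⟨ε0, hε0, h0⟩ := h g0
    rcases hε with rfl | rfl
    · left
      intro x
      rw [h1, one_smul]
    · right
      rcases hε0 with rfl | rfl
      · exact absurd (fun x => by rw [h0, one_smul]) hg0
      · intro x
        have h3 : M.act g0 (M.act (g0⁻¹ * g) x) = M.act g x := by
          rw [← M.mul, mul_inv_cancel_left]
        have h2 := h0 (M.act (g0⁻¹ * g) x)
        rw [h3] at h2
        rw [N.mul, h1, ← h2, ← N.mul, inv_mul_cancel, N.one]

/-- **A criterion for independence.** -/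
theorem independent_of [IsAlgClosed F] (hKF : ∀ r : K, algebraMap K ℂ r ∈ F) (M N : DRB K F)
    (bM : Basis (Fin 2) K M.V) (bN : Basis (Fin 2) K N.V)
    (hM : NoSemi (rep M)) (hN : NoSemi (rep N))
    (hdet : ∀ g, LinearMap.det ((rep M).act g) = LinearMap.det ((rep N).act g))
    (h0 : ∀ P : M.V →ₗ[K] N.V, IsHom (M := M) (N := N) P → P = 0) :
    Independent (rep M) (rep N) := by
  refine hM.independent hN (bx bM) (bx bN) fun f hf => ?_
  have hsq : ∀ g, ∃ ε : ℂ, (ε = 1 ∨ ε = -1) ∧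
      ∀ x, (rep N).act g (f x) = ε • f ((rep M).act g x) := by
    intro g
    obtain ⟨ε, hε⟩ := hf g
    have h1 := sq_eq_one (M := rep M) (M' := rep N) (bx bM) f (hdet g) hε
    exact ⟨ε, (by simpa using h1 : ε = 1 ∨ ε = -1), hε⟩
  let f' : Cx K M.V →ₗ[ℂ] Cx K N.V := f.toLinearMap
  have h1 := pot_hom (M := M) (N := N) hKF f' (eqSub f) (finiteIndex_eqSub f hsq)
    fun g hg x => (hg x).symm
  have h2 : Submodule.span ℂ {h : Cx K M.V →ₗ[ℂ] Cx K N.V | ∃ P : M.V →ₗ[K] N.V,
      IsHom (M := M) (N := N) P ∧ h = bc P} ≤ ⊥ := by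
    refine Submodule.span_le.2 ?_
    rintro _ ⟨P, hP, rfl⟩
    rw [h0 P hP, SetLike.mem_coe, Submodule.mem_bot]
    refine (bx bM).ext fun i => ?_
    rw [bx_apply, bc_tens, LinearMap.zero_apply, LinearMap.zero_apply]
    exact TensorProduct.tmul_zero _ _
  have h3 : f' = 0 := (Submodule.mem_bot ℂ).1 (h2 h1)
  have h4 : f' (bx bM 0) = 0 := by rw [h3]; rfl
  have h5 : (bx bM 0 : Cx K M.V) = 0 := f.map_eq_zero_iff.1 h4
  exact (bx bM).ne_zero 0 h5

end

end Pool.Agent.N179.DB.S
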