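import Pool.Agent.N179.DB.Ten2

/-!
# Algebras generated by a representation of rank two: semisimplicity and invariants
-/

set_option autoImplicit false
set_option linter.unusedSectionVars false

namespace Pool.Agent.N179.DB.Tn

open Matrix Finset Function Pool.Agent.N179.DB.Mt Pool.Agent.N179.DB.Rk Pool.Agent.N179.GR
open Pool.Agent.N179.GR.S (GRep)

noncomputable section

variable {G : Type} [Group G] {M : GRep ℂ G} {b : Module.Basis (Fin 2) ℂ M.V}
variable {A : Type} [Ring A] [Algebra ℂ A] [FiniteDimensional ℂ A] {τ : G →* (A ≃ₐ[ℂ] A)}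
  {χ : G →* ℂˣ} {gr : ℕ → Submodule ℂ A}

section Phi

variable {S : Type} [Fintype S] [DecidableEq S] {j : ℕ} {x : (S → Fin 2) → A}

/-- the linear map on the tensor power -/
def Phi (x : (S → Fin 2) → A) : TT S →ₗ[ℂ] A := Fintype.linearCombination ℂ x

theorem Phi_apply (x : (S → Fin 2) → A) (t : TT S) : Phi x t = ∑ J, t J • x J := rfl

theorem Phi_single (x : (S → Fin 2) → A) (J : S → Fin 2) : Phi x (Pi.single J 1) = x J := by
  unfold Phi
  rw [Fintype.linearCombination_apply_single, one_smul]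

theorem Mon.Phi_act (h : Mon b τ χ gr S j x) (g : G) (t : TT S) :
    τ g (Phi x t) = ((χ g : ℂ) ^ j) • Phi x (op (mat M b g) t) := by
  rw [Phi_apply, map_sum, Phi_apply]
  simp only [map_smul, h.act g, op_apply, sum_smul, smul_sum, smul_smul]
  rw [sum_comm]
  refine sum_congr rfl fun I _ => sum_congr rfl fun J _ => ?_
  congr 1
  ring

theorem Mon.Phi_der (h : Mon b τ χ gr S j x) {D : Der ℂ G} (hD : InDer 1 D) (t : TT S) :
    dA τ D (Phi x t) = Phi x (dv (dM b D) t) := by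
  rw [Phi_apply, map_sum, Phi_apply]
  simp only [map_smul, h.der D hD, dv_apply, sum_smul, smul_sum, smul_smul]
  rw [sum_comm]
  conv_rhs => rw [sum_comm]
  refine sum_congr rfl fun i _ => ?_
  have h5 := swap_sum i (fun I J : S → Fin 2 => (dM b D (I i) (J i) * t J) • x I)
  simp only [update_self] at h5
  rw [h5]
  refine sum_congr rfl fun J _ => sum_congr rfl fun p _ => ?_
  congr 1
  ring

end Phi

theorem dA_mem (D : Der ℂ G) {N : Submodule ℂ A} (hN : Stab (algR τ) N) {y : A} (hy : y ∈ N) :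
    dA τ D y ∈ N := Θ_mem D hN hy

theorem tw_kill {D : Der ℂ G} (hD : InDer 1 D) {c : A} (hc : c ∈ Tw τ χ gr) : dA τ D c = 0 := by
  obtain ⟨j, -, h2⟩ := hc
  exact hD.kill (M := full A (algR τ)) ⟨⊤, inferInstance, fun g _ => ⟨_, h2 g⟩⟩

/-- **Semisimplicity.** -/
theorem semisimple (hM : NoSemi M) (hdet : ∀ g, (mat M b g).det = (χ g : ℂ))
    (hsp : Submodule.span ℂ (Vals b τ χ gr) = ⊤) : SemiS (algR τ) := by
  intro N hN
  obtain ⟨C, ⟨hC, hdis⟩, hmax⟩ := WellFounded.has_min (wellFounded_gt (α := Submodule ℂ A))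
    {C | Stab (algR τ) C ∧ Disjoint N C}
    ⟨⊥, fun g x hx => by
      rw [Submodule.mem_bot] at hx ⊢
      rw [hx, map_zero], disjoint_bot_right⟩
  refine ⟨C, hC, hdis, ?_⟩
  rw [codisjoint_iff]
  by_contra htop
  have hN1 : Stab (algR τ) (N ⊔ C) := by
    intro g x hx
    obtain ⟨y, hy, z, hz, rfl⟩ := Submodule.mem_sup.1 hx
    rw [map_add]
    exact Submodule.add_mem_sup (hN g y hy) (hC g z hz)
  obtain ⟨y, ⟨S, iS, dS, j, x, hx, J, rfl⟩, hy⟩ : ∃ y ∈ Vals b τ χ gr, y ∉ N ⊔ C := by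
    by_contra hcon
    push Not at hcon
    apply htop
    rw [eq_top_iff, ← hsp]
    exact Submodule.span_le.2 hcon
  obtain ⟨C2, hc2, -, hop⟩ := exists_compl (N := (N ⊔ C).comap (Phi x)) (by
    intro Z hZ t ht
    obtain ⟨D, hD, rfl⟩ := exists_der (b := b) hM hZ
    rw [Submodule.mem_comap, ← hx.Phi_der hD]
    exact dA_mem D hN1 ht)
  have hd3 : ∀ t ∈ C2, Phi x t ∈ N ⊔ C → Phi x t = 0 := by
    intro t ht h1
    have h2 := (Submodule.disjoint_def.1 hc2.disjoint) t h1 ht
    rw [h2, map_zero]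
  refine hmax (C ⊔ C2.map (Phi x)) ⟨?_, ?_⟩ ?_
  · intro g y hy
    obtain ⟨c, hc, _, ⟨t, ht, rfl⟩, rfl⟩ := Submodule.mem_sup.1 hy
    rw [map_add]
    refine Submodule.add_mem_sup (hC g c hc) ?_
    rw [algR_apply, hx.Phi_act]
    refine Submodule.smul_mem _ _ ⟨_, hop _ ?_ t ht, rfl⟩
    rw [hdet]
    exact Units.ne_zero _
  · rw [Submodule.disjoint_def]
    intro n hn hn'
    obtain ⟨c, hc, _, ⟨t, ht, rfl⟩, rfl⟩ := Submodule.mem_sup.1 hn'
    have h1 : Phi x t ∈ N ⊔ C := by
      have h2 : Phi x t = (c + Phi x t) - c := by abel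
      rw [h2]
      exact Submodule.sub_mem _ (Submodule.mem_sup_left hn) (Submodule.mem_sup_right hc)
    rw [hd3 t ht h1, add_zero] at hn ⊢
    exact (Submodule.disjoint_def.1 hdis) c hn hc
  · change C < C ⊔ C2.map (Phi x)
    rw [left_lt_sup]
    intro hle
    apply hy
    have h1 : (Pi.single J 1 : TT S) ∈ (N ⊔ C).comap (Phi x) ⊔ C2 := by
      rw [codisjoint_iff.1 hc2.codisjoint]
      trivial
    obtain ⟨n, hn, c, hc, hnc⟩ := Submodule.mem_sup.1 h1
    have h2 : Phi x c = 0 := hd3 c hc (Submodule.mem_sup_right (hle ⟨c, hc, rfl⟩))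
    rw [← Phi_single x J, ← hnc, map_add, h2, add_zero]
    exact hn

/-- **Invariants are combinations of twisted classes.** -/
theorem inv_le_tw (hM : NoSemi M) (hdet : ∀ g, (mat M b g).det = (χ g : ℂ))
    (hsp : Submodule.span ℂ (Vals b τ χ gr) = ⊤) :
    inv 1 τ ≤ Submodule.span ℂ (Tw τ χ gr) := by
  -- the span of the images of the derivations
  set N : Submodule ℂ A := Submodule.span ℂ {z | ∃ D, InDer 1 D ∧ ∃ y, z = dA τ D y} with hNdef
  have hN : Stab (algR τ) N := by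
    intro g x hx
    induction hx using Submodule.span_induction with
    | mem x hx =>
      obtain ⟨D, hD, y, rfl⟩ := hx
      refine Submodule.subset_span ⟨D.conj g⁻¹, hD.conj _, algR τ g y, ?_⟩
      change _ = (D.conj g⁻¹).Θ (full A (algR τ)) _
      rw [conj_full D g⁻¹ (isFull_full (algR τ)), inv_inv]
      change _ = algR τ g (dA τ D (algR τ g⁻¹ (algR τ g y)))
      rw [← Module.End.mul_apply (algR τ g⁻¹), ← map_mul, inv_mul_cancel, map_one]
      rfl
    | zero => rw [map_zero]; exact Submodule.zero_mem _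
    | add x y _ _ hx hy => rw [map_add]; exact Submodule.add_mem _ hx hy
    | smul a x _ hx => rw [map_smul]; exact Submodule.smul_mem _ _ hx
  have hI : Stab (algR τ) (inv 1 τ ⊓ N) := fun g x hx => ⟨inv_stab 1 g x hx.1, hN g x hx.2⟩
  obtain ⟨I', hI', hc⟩ := semisimple hM hdet hsp _ hI
  have hNI : N ≤ I' := by
    refine Submodule.span_le.2 ?_
    rintro _ ⟨D, hD, y, rfl⟩
    obtain ⟨u, hu, v, hv, rfl⟩ := Submodule.mem_sup.1
      (hc.sup_eq_top ▸ Submodule.mem_top : y ∈ (inv 1 τ ⊓ N) ⊔ I')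
    have h1 : dA τ D u = 0 := hu.1 D hD
    rw [map_add, h1, zero_add]
    exact dA_mem D hI' hv
  have hbot : inv 1 τ ⊓ N = ⊥ := by
    rw [eq_bot_iff]
    intro x hx
    exact hc.disjoint.le_bot ⟨hx, hNI hx.2⟩
  have hsum : (⊤ : Submodule ℂ A) ≤ Submodule.span ℂ (Tw τ χ gr) ⊔ N := by
    rw [← hsp]
    refine Submodule.span_le.2 ?_
    rintro _ ⟨S, iS, dS, j, x, hx, J, rfl⟩
    let N1 : Submodule ℂ (TT S) := Submodule.span ℂ {z | ∃ Z ∈ sl, ∃ t : TT S, z = dv Z t}
    obtain ⟨C1, hc1, hdv, -⟩ := exists_compl (N := N1) (fun Z hZ t _ =>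
      Submodule.subset_span ⟨Z, hZ, t, rfl⟩)
    have hinv : ∀ t ∈ C1, ∀ Z ∈ sl, dv Z t = 0 := fun t ht Z hZ =>
      (Submodule.disjoint_def.1 hc1.disjoint) _ (Submodule.subset_span ⟨Z, hZ, t, rfl⟩)
        (hdv Z hZ t ht)
    have h1 : (Pi.single J 1 : TT S) ∈ N1 ⊔ C1 := by
      rw [codisjoint_iff.1 hc1.codisjoint]
      trivial
    obtain ⟨n, hn, c, hc, hnc⟩ := Submodule.mem_sup.1 h1
    rw [SetLike.mem_coe, ← Phi_single x J, ← hnc, map_add]
    refine Submodule.add_mem _ (Submodule.mem_sup_right ?_) (Submodule.mem_sup_left ?_)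
    · clear hnc
      induction hn using Submodule.span_induction with
      | mem z hz =>
        obtain ⟨Z, hZ, t, rfl⟩ := hz
        obtain ⟨D, hD, rfl⟩ := exists_der (b := b) hM hZ
        rw [← hx.Phi_der hD]
        exact Submodule.subset_span ⟨D, hD, _, rfl⟩
      | zero => rw [map_zero]; exact Submodule.zero_mem _
      | add x y _ _ hx hy => rw [map_add]; exact Submodule.add_mem _ hx hy
      | smul a x _ hx => rw [map_smul]; exact Submodule.smul_mem _ _ hx
    · rcases op_inv' (hinv c hc) with rfl | ⟨m, hm, hop⟩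
      · rw [map_zero]
        exact Submodule.zero_mem _
      · refine Submodule.subset_span ⟨j + m, ?_, fun g => ?_⟩
        · rw [Phi_apply]
          refine Submodule.sum_mem _ fun J _ => Submodule.smul_mem _ _ ?_
          have h2 := hx.deg J
          rw [hm, show 2 * m + 2 * j = 2 * (j + m) by ring] at h2
          exact h2
        · rw [hx.Phi_act, hop _ (by rw [hdet]; exact Units.ne_zero _), map_smul, smul_smul, hdet,
            ← pow_add]
  intro y hy
  obtain ⟨u, hu, v, hv, rfl⟩ := Submodule.mem_sup.1 (hsum (Submodule.mem_top (x := y)))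
  have h1 : u ∈ inv 1 τ := by
    have h2 : Submodule.span ℂ (Tw τ χ gr) ≤ inv 1 τ :=
      Submodule.span_le.2 fun c hc D hD => tw_kill hD hc
    exact h2 hu
  have h2 : v ∈ inv 1 τ ⊓ N := ⟨by
    have h3 := Submodule.sub_mem _ hy h1
    rwa [add_sub_cancel_left] at h3, hv⟩
  rw [hbot, Submodule.mem_bot] at h2
  rw [h2, add_zero]
  exact hu

end

end Pool.Agent.N179.DB.Tn
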