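import Pool.Agent.N179.DB.PowDefs
import Pool.Agent.N179.DB.Ten3
import Pool.Agent.N179.DB.Fin
import Pool.Agent.N179.DB.Rk2

/-!
# Varieties whose cohomology is generated by a structure of rank two
-/

set_option autoImplicit false
set_option linter.unusedSectionVars false

open CategoryTheory AlgebraicGeometry TensorProduct

universe u

namespace Pool.Agent.N179.DB.S

open Module Pool.Agent.Y133.Per Pool.Agent.N179.DB Pool.Agent.N179.GR.S Pool.Agent.N179.DB.Rk
open Pool.Agent.H914 Pool.Agent.H914.VarClass Pool.Agent.H914.VarClass.Obj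
  Pool.Agent.H914.WeilCohomology Pool.Agent.TH125.Gal
open Pool.Agent.N179.GR (algR SemiS inv InDer full)

variable {k : Type u} [Field k] {𝒱 : VarClass k} {ops : CycleOps 𝒱}
  {W : WeilCohomology.{u, 0} ops} [Algebra W.K ℂ] {F : Subfield ℂ} (D : DeRham W F)

noncomputable section

/-- the action -/
def ta (P : 𝒱.Obj) : PG W.K F →* (Base W.K (W.H P) ≃ₐ[ℂ] Base W.K (W.H P)) := actA D P

/-- the grading -/
def gB (P : 𝒱.Obj) (i : ℕ) : Submodule ℂ (Base W.K (W.H P)) := gr' W P i

theorem finB (P : 𝒱.Obj) : FiniteDimensional ℂ (Base W.K (W.H P)) := Cx.fd (W.H P)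

theorem one_gB (P : 𝒱.Obj) : (1 : Base W.K (W.H P)) ∈ gB (W := W) P 0 :=
  ((baseW W ℂ).isPoincareAlgebra P).one_mem

theorem mul_gB (P : 𝒱.Obj) (m n : ℕ) : ∀ x ∈ gB (W := W) P m, ∀ y ∈ gB (W := W) P n,
    x * y ∈ gB (W := W) P (m + n) := fun _ hx _ hy =>
  ((baseW W ℂ).isPoincareAlgebra P).mul_mem hx hy

theorem tm_gB {P : 𝒱.Obj} {i : ℕ} {c : W.H P} (hc : c ∈ W.gr P i) :
    (tm 1 c : Base W.K (W.H P)) ∈ gB (W := W) P i :=
  Submodule.tmul_mem_baseChange_of_mem (1 : ℂ) hc

theorem ta_drb {P : 𝒱.Obj} {j : ℕ} {c : W.H P} (hc : IsDRB D P j c) (g : PG W.K F) :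
    ta D P g (tm 1 c) = ((chi W.K F g : ℂ) ^ j) • tm 1 c := by
  have h1 : InF (coh D P).b (KF W.K) (tens 1 c : Cx W.K (W.H P)) := inF_tens (coh D P).bK c
  have h2 : InF (coh D P).e F (twoPiI ^ j • (tens 1 c : Cx W.K (W.H P))) := by
    rw [← (coh D P).mem, smul_tens, mul_one]
    exact hc.2
  exact rho_of_inF (K := W.K) (b := (coh D P).b) (e := (coh D P).e) h1 h2 g

/-- the generation with complex coefficients -/
theorem gen_pow {V : DRB W.K F} {P : 𝒱.Obj} (h : PowerType D V P) :
    Algebra.adjoin ℂ (Tn.Tw (ta D P) (chi W.K F) (gB (W := W) P) ∪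
      Tn.Im1 (rep V) (ta D P) (gB (W := W) P)) = ⊤ := by
  set B := Algebra.adjoin ℂ (Tn.Tw (ta D P) (chi W.K F) (gB (W := W) P) ∪
      Tn.Im1 (rep V) (ta D P) (gB (W := W) P)) with hB
  have key : ∀ c : W.H P, (tm 1 c : Base W.K (W.H P)) ∈ B := by
    intro c
    have hc : c ∈ Algebra.adjoin W.K (periodClasses D P ∪ degOne D V P) := by
      rw [show Algebra.adjoin W.K (periodClasses D P ∪ degOne D V P) = ⊤ from h]
      exact Algebra.mem_top
    have hone : (tm 1 (1 : W.H P) : Base W.K (W.H P)) = 1 := rfl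
    induction hc using Algebra.adjoin_induction with
    | mem c hc =>
      rcases hc with ⟨j, hc⟩ | ⟨f, v, h1, h2, rfl⟩
      · exact Algebra.subset_adjoin (Or.inl ⟨j, tm_gB hc.1, ta_drb D hc⟩)
      · refine Algebra.subset_adjoin (Or.inr ⟨bc f, tens 1 v, fun w => ?_, fun g w => ?_, rfl⟩)
        · refine cx_ind (p := fun w => (bc f w : Base W.K (W.H P)) ∈ gB (W := W) P 1) ?_ ?_ ?_ w
          · rw [map_zero]
            exact Submodule.zero_mem _
          · intro r c
            exact Submodule.tmul_mem_baseChange_of_mem r (h1 c)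
          · intro a b ha hb
            rw [map_add]
            exact Submodule.add_mem _ ha hb
        · have h3 := rho_lin (M := V) (N := coh D P) f h2 g w
          have h4 := rep_act V g w
          change bc f ((rep V).ap g w) = _
          rw [h4]
          exact h3
    | algebraMap r =>
      have h1 : (tm 1 (algebraMap W.K (W.H P) r) : Base W.K (W.H P)) =
          algebraMap W.K ℂ r • (1 : Base W.K (W.H P)) := by
        rw [Algebra.algebraMap_eq_smul_one]
        have h2 := tens_smul (K := W.K) r (1 : W.H P) 1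
        have h3 := smul_tens (K := W.K) (algebraMap W.K ℂ r) 1 (1 : W.H P)
        exact h2.trans h3.symm
      rw [h1]
      exact B.smul_mem (one_mem _) _
    | add a c _ _ ha hc =>
      have h1 : (tm 1 (a + c) : Base W.K (W.H P)) = tm 1 a + tm 1 c := tens_add 1 a c
      rw [h1]
      exact add_mem ha hc
    | mul a c _ _ ha hc =>
      have h1 : (tm 1 (a * c) : Base W.K (W.H P)) = tm 1 a * tm 1 c := by
        have h2 := Algebra.TensorProduct.tmul_mul_tmul (R := W.K) (A := ℂ) (B := W.H P) 1 1 a c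
        rw [mul_one] at h2
        exact h2.symm
      rw [h1]
      exact mul_mem ha hc
  rw [eq_top_iff]
  intro x _
  refine cx_ind (K := W.K) (V := W.H P) (p := fun x => (show Base W.K (W.H P) from x) ∈ B) ?_ ?_ ?_ x
  · exact zero_mem _
  · intro r c
    have h1 : (tens r c : Cx W.K (W.H P)) = r • tens 1 c := by rw [smul_tens, mul_one]
    rw [h1]
    exact B.smul_mem (key c) r
  · intro a b ha hb
    exact add_mem ha hb

/-- twisted vectors are combinations of de Rham-Betti classes -/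
theorem tw_span [IsAlgClosed F] {P : 𝒱.Obj} :
    ∀ z ∈ Tn.Tw (ta D P) (chi W.K F) (gB (W := W) P),
      z ∈ Submodule.span ℂ {x : Base W.K (W.H P) | ∃ c ∈ periodClasses D P, x = tm 1 c} := by
  rintro z ⟨j, hz, hfix⟩
  have hKF : ∀ r : W.K, algebraMap W.K ℂ r ∈ F := scal D P
  let N : Submodule ℂ (Cx W.K (W.H P)) := gr' W P (2 * j) ⊓ pot (coh D P).b (coh D P).e W.K F j
  have hN := pot_le (K := W.K) (F := F) (b := (coh D P).b) (e := (coh D P).e) hKF (j := j) N (by
    intro τ hτ x hx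
    refine ⟨?_, pot_sl hτ hx.2⟩
    rw [← (coh D P).gal_eq hτ]
    exact gal_gr' τ hτ hx.1) inf_le_right
  have hzN : (show Cx W.K (W.H P) from z) ∈ N := ⟨hz, ⊤, inferInstance, fun g _ => hfix g⟩
  refine Submodule.span_mono ?_ (hN hzN)
  rintro x ⟨⟨hx1, -⟩, hx2, hx3⟩
  obtain ⟨(c : W.H P), rfl⟩ := exists_tens (coh D P).bK hx2
  have hc1 : c ∈ W.gr P (2 * j) := by
    refine mem_of_base _ ?_
    have h3 := hx1
    rw [gr'_eq] at h3
    exact h3
  refine ⟨c, ⟨j, hc1, ?_⟩, rfl⟩
  have h5 : twoPiI ^ j • (tens 1 c : Cx W.K (W.H P)) ∈ D.dR P := ((coh D P).mem _).2 hx3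
  rw [smul_tens, mul_one] at h5
  exact h5

/-- **Varieties of power type.** -/
theorem power_type [IsAlgClosed F] {V : DRB W.K F} (b0 : Basis (Fin 2) W.K V.V)
    (hV : NoSemi (rep V)) (hdet : ∀ g, LinearMap.det ((rep V).act g) = (chi W.K F g : ℂ))
    {P : 𝒱.Obj} (h : PowerType D V P) : OfType D V P ∧ Twisted D P := by
  have hfd := finB (W := W) P
  have hgen := gen_pow D h
  have hdet' : ∀ g, (mat (rep V) (bx b0) g).det = (chi W.K F g : ℂ) := by
    intro g
    rw [← hdet g]
    exact LinearMap.det_toMatrix (bx b0) _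
  have hsp := Tn.vals_span (M := rep V) (b := bx b0) (τ := ta D P) (χ := chi W.K F)
    (gr := gB (W := W) P) (one_gB P) (mul_gB P) hgen
  have hss : SemiS (algR (ta D P)) := Tn.semisimple hV hdet' hsp
  have hinv := Tn.inv_le_tw hV hdet' hsp
  refine ⟨⟨?_, ?_⟩, ?_⟩
  · have h1 : Algebra.adjoin ℂ (Tn.Tw (ta D P) (chi W.K F) (gB (W := W) P) ∪
        Tn.Im1 (rep V) (ta D P) (gB (W := W) P)) ≤
        Algebra.adjoin ℂ (semiCl D P ∪ imgs (fun _ : Unit => V) (coh D P) :
          Set (Base W.K (W.H P))) := by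
      refine Algebra.adjoin_mono ?_
      rintro x (⟨j, -, hx⟩ | ⟨f, v, -, hf, rfl⟩)
      · left
        refine (mem_semiCl D).2 ?_
        exact ⟨⊤, inferInstance, fun g _ => ⟨_, hx g⟩⟩
      · right
        refine ⟨(), f, v, fun g x => ?_, rfl⟩
        have h2 := hf g x
        refine Eq.trans (show f ((rep V).act g x) = _ from h2) ?_
        rw [rep_act (coh D P)]
        rfl
    rw [hgen] at h1
    exact eq_top_iff.2 h1
  · rw [← coh_var D P]
    exact fun A hA => hss A hA
  · intro z hz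
    have h1 : z ∈ inv 1 (ta D P) := fun D' hD' => hD'.kill ((mem_semiCl D).1 hz)
    exact (Submodule.span_le.2 (tw_span D)) (hinv h1)

end

end Pool.Agent.N179.DB.S
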