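import Pool.Agent.N179.DB.Defs
import Pool.Agent.N179.DB.EllDefs

/-!
# Varieties whose cohomology is generated by the first cohomology of an elliptic curve: definitions
-/

set_option autoImplicit false

open CategoryTheory AlgebraicGeometry TensorProduct

universe u

namespace Pool.Agent.N179.DB.S

open Pool.Agent.Y133.Per Pool.Agent.N179.DB Pool.Agent.N179.GR.S
open Pool.Agent.H914 Pool.Agent.H914.VarClass Pool.Agent.H914.VarClass.Obj
  Pool.Agent.H914.WeilCohomology

variable {k : Type u} [Field k] {𝒱 : VarClass k} {ops : CycleOps 𝒱}
  {W : WeilCohomology.{u, 0} ops} [Algebra W.K ℂ] {F : Subfield ℂ}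

/-- The images of the homomorphisms of de Rham-Betti structures from `V` to the cohomology of
degree `1`. -/
def degOne (D : DeRham W F) (V : DRB W.K F) (P : 𝒱.Obj) : Set (W.H P) :=
  homImages V.dR (dRSet D P) (W.gr P 1)

/-- The cohomology algebra of `P` is generated by the de Rham-Betti classes and by the images of
the homomorphisms from `V` to the cohomology of degree `1`. (For instance, if `V` is the first
cohomology of an elliptic curve: the powers of this curve.) -/
def PowerType (D : DeRham W F) (V : DRB W.K F) (P : 𝒱.Obj) : Prop :=
  GeneratesK W.K (periodClasses D P ∪ degOne D V P)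

end Pool.Agent.N179.DB.S
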