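import Pool.Agent.N179.DB.PubDefs
import Pool.Agent.N179.DB.Ell2
import Pool.Agent.N179.DB.Pow
import Pool.Agent.N179.DB.Dict

/-!
# The proofs of the statements
-/

set_option autoImplicit false
set_option linter.unusedSectionVars false

open CategoryTheory AlgebraicGeometry TensorProduct

universe u

namespace Pool.Agent.N179.DB.S

open Module Pool.Agent.Y133.Per Pool.Agent.N179.DB Pool.Agent.N179.GR.S Pool.Agent.N179.DB.Rk
open Pool.Agent.Y102 (AbVar)

noncomputable section

section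

variable {K : Type} [Field K] [Algebra K ℂ] {F : Subfield ℂ}

theorem combination_iff {M N : DRB K F} {f : Cx K M.V →ₗ[ℂ] Cx K N.V} :
    IsCombination (homs M N) (show Lin (rep M) (rep N) from f) ↔
    f ∈ Submodule.span ℂ {h : Cx K M.V →ₗ[ℂ] Cx K N.V | ∃ P : M.V →ₗ[K] N.V,
      IsHom (M := M) (N := N) P ∧ h = bc P} := by
  constructor
  · rintro ⟨n, c, h, hh, hf⟩
    let h' : Fin n → (Cx K M.V →ₗ[ℂ] Cx K N.V) := h
    have h1 : f = ∑ i, c i • h' i := by
      refine LinearMap.ext fun x => ?_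
      rw [LinearMap.sum_apply]
      exact hf x
    rw [h1]
    exact Submodule.sum_mem _ fun i _ => Submodule.smul_mem _ _ (Submodule.subset_span (hh i))
  · intro h
    obtain ⟨n, c, g, hsum⟩ := Submodule.mem_span_set'.1 h
    refine ⟨n, c, fun i => (g i : Cx K M.V →ₗ[ℂ] Cx K N.V), fun i => (g i).2, fun x => ?_⟩
    have h1 := LinearMap.congr_fun hsum x
    rw [LinearMap.sum_apply] at h1
    exact h1.symm

theorem dictionary [IsAlgClosed F] (hKF : ∀ r : K, algebraMap K ℂ r ∈ F) : Dictionary K F where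
  lines M x hx g := semi_all hKF M hx g
  linesEnd M x hx g := semi_all_endo hKF M hx g
  homs M N f := by
    rw [show IsCombination (homs M N) f ↔ _ from combination_iff (M := M) (N := N)]
    constructor
    · rintro ⟨Δ, hΔ, hf⟩
      exact pot_hom (M := M) (N := N) hKF f Δ hΔ hf
    · intro h
      refine ⟨⊤, inferInstance, fun g _ x => ?_⟩
      have h1 : Submodule.span ℂ {h : Cx K M.V →ₗ[ℂ] Cx K N.V | ∃ P : M.V →ₗ[K] N.V,
          IsHom (M := M) (N := N) P ∧ h = bc P} ≤
          LinearMap.ker (((rho N.b N.e K F g : Cx K N.V →ₗ[ℂ] Cx K N.V).compRight ℂ :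
            (Cx K M.V →ₗ[ℂ] Cx K N.V) →ₗ[ℂ] (Cx K M.V →ₗ[ℂ] Cx K N.V)) -
          LinearMap.lcomp ℂ (Cx K N.V) (rho M.b M.e K F g : Cx K M.V →ₗ[ℂ] Cx K M.V)) := by
        refine Submodule.span_le.2 ?_
        rintro _ ⟨P, hP, rfl⟩
        rw [SetLike.mem_coe, LinearMap.mem_ker, LinearMap.sub_apply, sub_eq_zero]
        refine LinearMap.ext fun y => ?_
        exact (rho_lin P hP g y).symm
      have h2 := h1 h
      rw [LinearMap.mem_ker, LinearMap.sub_apply, sub_eq_zero] at h2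
      have h3 := LinearMap.congr_fun h2 x
      change (show Cx K M.V →ₗ[ℂ] Cx K N.V from f) ((rep M).ap g x) =
        (rep N).ap g ((show Cx K M.V →ₗ[ℂ] Cx K N.V from f) x)
      rw [rep_act, rep_act]
      exact h3.symm

end

open Pool.Agent.H914 Pool.Agent.H914.VarClass Pool.Agent.H914.VarClass.Obj
  Pool.Agent.H914.WeilCohomology

variable {k : Type u} [Field k] {𝒱 : VarClass k} {ops : CycleOps 𝒱}
  {W : WeilCohomology.{u, 0} ops} [Algebra W.K ℂ]

theorem gen_self {F : Subfield ℂ} (D : DeRham W F) (Z : 𝒱.Obj) :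
    GeneratedBy D (fun _ : Fin 1 => coh D Z) Z := by
  unfold GeneratedBy Generates GeneratesK
  rw [eq_top_iff]
  intro x _
  refine Algebra.subset_adjoin (Or.inr ⟨0, LinearMap.id, x, fun g y => rfl, rfl⟩)

theorem elliptic (hK : Rationals W.K) (D : DeRham W QF) : EllipticCurves D := by
  intro ι A h1 h2
  have hF : Family (fun i => rep (ell W.K (A i))) := family_ell hK A h1 h2
  have hP : ∀ i P, PowerType D (ell W.K (A i)) P → OfType D (ell W.K (A i)) P ∧ Twisted D P :=
    fun i P hP => power_type D (b0 W.K) (noSemi_ell hK (A i) (h1 i)) (det_ell W.K (A i)) hP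
  refine ⟨hF, hP, fun Z hZ => ?_⟩
  obtain ⟨E, hE⟩ := split D hF
  refine ⟨E (coh D Z), (hE.exceptional _).finite, hE.variety Z, fun L hL => ?_⟩
  have h3 := (hE.outside 1 (fun _ => coh D Z) Z (gen_self D Z)).periods L
    ⟨hL.1, fun x hx => ⟨?_, (hP _ _ (hL.2 x hx).2.1).1⟩⟩
    (fun x hx => ⟨(hP _ _ (hL.2 x hx).2.1).2, (hL.2 x hx).2.2⟩) hZ
  · exact h3
  · rw [Set.mem_iUnion]
    rintro ⟨-, h⟩
    exact (hL.2 x hx).1 h

end

end Pool.Agent.N179.DB.S
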