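import Pool.Agent.N179.DB.PowDefs
import Pool.Agent.N179.DB.Ell

/-!
# The statements
-/

set_option autoImplicit false

open CategoryTheory AlgebraicGeometry TensorProduct

universe u

namespace Pool.Agent.N179.DB.S

open Pool.Agent.Y133.Per Pool.Agent.N179.DB Pool.Agent.N179.GR.S
open Pool.Agent.Y102 (AbVar)

section

variable {K : Type} [Field K] [Algebra K ℂ] {F : Subfield ℂ}

/-- The extensions of the homomorphisms of de Rham-Betti structures. -/
def homs (M N : DRB K F) : Set (Lin (rep M) (rep N)) :=
  {f | ∃ P : M.V →ₗ[K] N.V, IsHom (M := M) (N := N) P ∧ f = bc P}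

/-- The dictionary: a line in the space `M` or in the space of the operators on `M` which is stable
under a subgroup of finite index of the group of the period operators is stable under the whole
group, and the linear maps `M → N` which are equivariant under a subgroup of finite index are the
linear combinations of the homomorphisms of de Rham-Betti structures. -/
structure Dictionary (K : Type) [Field K] [Algebra K ℂ] (F : Subfield ℂ) : Prop where
  lines : ∀ M : DRB K F, LinesStable (rep M)
  linesEnd : ∀ M : DRB K F, LinesStable (endo (rep M))
  homs : ∀ (M N : DRB K F) (f : Lin (rep M) (rep N)), PotEquivariant f ↔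
    IsCombination (homs M N) f

end

open Pool.Agent.H914 Pool.Agent.H914.VarClass Pool.Agent.H914.VarClass.Obj
  Pool.Agent.H914.WeilCohomology

variable {k : Type u} [Field k] {𝒱 : VarClass k} {ops : CycleOps 𝒱}
  {W : WeilCohomology.{u, 0} ops} [Algebra W.K ℂ]

/-- The varieties `P_a`, where `L` is the list of the pairs `(i_a, P_a)`: the indices are pairwise
different and not in `S`, and the cohomology of `P_a` is generated by de Rham-Betti classes and by
the first cohomology of the elliptic curve `A i_a`. -/
def Powers (D : DeRham W QF) {ι : Type} (A : ι → AbVar 1) (S : Set ι) (L : List (ι × 𝒱.Obj)) :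
    Prop :=
  (L.map Prod.fst).Nodup ∧
    ∀ x ∈ L, x.1 ∉ S ∧ PowerType D (ell W.K (A x.1)) x.2 ∧ HasPoint W x.2

/-- Apart from the exceptional curves `A i`, `i ∈ S`, the period conjecture for the products of `Z`
and powers of the elliptic curves `A i` splits. The number of the exceptional curves is at most
`(b - b') / 2`, where `b` is the sum of the Betti numbers of `Z` and `b'` is the dimension of the
span of the semi-invariant classes (it contains the de Rham-Betti classes). -/
structure SplitsOff (D : DeRham W QF) {ι : Type} (A : ι → AbVar 1) (Z : 𝒱.Obj) (S : Set ι) :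
    Prop where
  finite : S.Finite
  card : 2 * S.ncard + (semiSpan (rep (coh D Z))).dim ≤ Module.finrank W.K (W.H Z)
  split : ∀ L : List (ι × 𝒱.Obj), Powers D A S L →
    (PeriodConjecture D (prodList L Z) ↔
      PeriodConjecture D Z ∧ ∀ x ∈ L, PeriodConjecture D x.2)

/-- The theorem for elliptic curves without complex multiplication which are pairwise not
isogenous. -/
def EllipticCurves (D : DeRham W QF) : Prop :=
  ∀ (ι : Type) (A : ι → AbVar 1), (∀ i, NoCM (A i)) →
    (∀ i j, i ≠ j → NonIsogenous (A i) (A j)) →
    Family (fun i => rep (ell W.K (A i))) ∧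
      (∀ i P, PowerType D (ell W.K (A i)) P → OfType D (ell W.K (A i)) P ∧ Twisted D P) ∧
      ∀ Z, HasPoint W Z → ∃ S : Set ι, SplitsOff D A Z S

end Pool.Agent.N179.DB.S
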