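import Pool.Agent.N179.DB.AlgDefs
import Pool.Agent.N179.DB.EllStr
import Pool.Agent.N179.DB.Coh

/-!
# Period operators, independent families, and the splitting of the period conjecture: definitions
-/

set_option autoImplicit false

open CategoryTheory AlgebraicGeometry TensorProduct

universe u

namespace Pool.Agent.N179.DB.St

open Pool.Agent.Y133.Per Pool.Agent.N179.DB
open Pool.Agent.N179.DB.S (Cx tens gal DRB IsFormCx Generates GeneratesK IsSpanned homImages dRSet
  form_set ell QF)
open Pool.Agent.Y102 (AbVar)

noncomputable section

section Sp

variable {V : Type} [AddCommGroup V] [Module ℂ V]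

/-- The linear automorphisms. -/
def Aut (V : Type) [AddCommGroup V] [Module ℂ V] : Type := V ≃ₗ[ℂ] V

/-- The image of a vector. -/
def Aut.ap (T : Aut V) (x : V) : V := (show V ≃ₗ[ℂ] V from T) x

/-- The linear operators. -/
def Opr (V : Type) [AddCommGroup V] [Module ℂ V] : Type := V →ₗ[ℂ] V

instance Opr.ac : AddCommGroup (Opr V) := LinearMap.addCommGroup

instance Opr.md : Module ℂ (Opr V) := LinearMap.module

/-- The conjugation `x ↦ T x T⁻¹`. -/
def Aut.conj (T : Aut V) : Aut (Opr V) := LinearEquiv.conj (show V ≃ₗ[ℂ] V from T)

/-- A complex vector space with a family of linear automorphisms. -/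
structure Sp (P : Type) where
  /-- the space -/
  V : Type
  [ac : AddCommGroup V]
  [md : Module ℂ V]
  /-- the automorphisms -/
  op : P → Aut V

attribute [instance] Sp.ac Sp.md

variable {P : Type}

/-- The value of the automorphism with the index `p`. -/
def Sp.ap (X : Sp P) (p : P) (x : X.V) : X.V := (X.op p).ap x

/-- The common eigenvectors. -/
def Sp.eigs (X : Sp P) : Set X.V := {x | ∀ p, ∃ c : ℂ, X.ap p x = c • x}

/-- The dimension. -/
def Sp.dim (X : Sp P) : ℕ := Module.finrank ℂ X.V

/-- The dimension of the span of the common eigenvectors. -/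
def Sp.dim' (X : Sp P) : ℕ := Set.finrank ℂ X.eigs

/-- The space with the automorphisms `y ↦ T y T⁻¹` of the space of the operators. -/
def Sp.endo (X : Sp P) : Sp P where
  V := Opr X.V
  op p := (X.op p).conj

/-- The subspace is stable. -/
def Sp.Stable (X : Sp P) (A : Submodule ℂ X.V) : Prop := ∀ p, ∀ x ∈ A, X.ap p x ∈ A

/-- Every stable subspace has a stable complement. -/
def Sp.Semisimple (X : Sp P) : Prop :=
  ∀ A : Submodule ℂ X.V, X.Stable A → ∃ B : Submodule ℂ X.V, X.Stable B ∧ IsCompl A B

/-- The linear maps. -/
def Lin (X Y : Sp P) : Type := X.V →ₗ[ℂ] Y.V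

/-- The value of a linear map. -/
def Lin.ev {X Y : Sp P} (f : Lin X Y) (x : X.V) : Y.V := (show X.V →ₗ[ℂ] Y.V from f) x

/-- The linear map commutes with the automorphisms. -/
def Equivariant {X Y : Sp P} (f : Lin X Y) : Prop := ∀ p x, f.ev (X.ap p x) = Y.ap p (f.ev x)

/-- Every equivariant linear map `End X → End Y` has its values in the span of the common
eigenvectors. -/
def Independent (X Y : Sp P) : Prop :=
  ∀ f : Lin X.endo Y.endo, Equivariant f → ∀ x, f.ev x ∈ Submodule.span ℂ Y.endo.eigs

/-- The spaces `End (X i)` are semisimple, and the `X i` are pairwise independent. -/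
structure Family {ι : Type} (X : ι → Sp P) : Prop where
  semisimple : ∀ i, (X i).endo.Semisimple
  independent : ∀ i j, i ≠ j → Independent (X i) (X j)

/-- The images of the equivariant linear maps from the `U a`. -/
def imgs {κ : Type} (U : κ → Sp P) (X : Sp P) : Set X.V :=
  {x | ∃ (a : κ) (f : Lin (U a) X) (v : (U a).V), Equivariant f ∧ x = f.ev v}

end Sp

section Gen

variable {K : Type} [Field K] [Algebra K ℂ] {F : Subfield ℂ}

/-- The operator `T` is the period operator of the pair `(α, β)`: it satisfies `T (β s) = α s` for
all elements `s` of the de Rham structure. (If `M` is the matrix of the periods, this is the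
operator with the matrix `α(M) β(M)⁻¹`.) -/
def IsPeriodOp (M : DRB K F) (p : Pair K F) (T : Aut (Cx K M.V)) : Prop :=
  ∀ s ∈ M.dR, T.ap (gal p.β p.fixβ s) = gal p.α p.fixα s

theorem exists_op (M : DRB K F) (p : Pair K F) : ∃ T, IsPeriodOp M p T := S.exists_op M p

/-- The space with complex coefficients, with the period operators. -/
def sp (M : DRB K F) : Sp (Pair K F) where
  V := Cx K M.V
  op p := (exists_op M p).choose

/-- A cohomology algebra with a de Rham structure: an algebra over `K` (for `K = ℚ` the Betti
cohomology of a variety over the field of algebraic numbers) with the de Rham cohomology, a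
grading, the classes of the algebraic cycles of codimension `j`, and the orientation. -/
structure DRA (K : Type) [Field K] [Algebra K ℂ] (F : Subfield ℂ) where
  /-- the algebra -/
  A : Type
  [ring : Ring A]
  [mod : Algebra K A]
  [fd : FiniteDimensional K A]
  /-- the de Rham cohomology -/
  dR : Set (Cx K A)
  form : IsFormCx F dR
  /-- the grading -/
  gr : ℕ → Submodule K A
  /-- the algebraic classes -/
  cl : ℕ → Set A
  /-- the orientation -/
  tr : A →ₗ[K] K
  /-- the dimension of the variety -/
  dim : ℕ

attribute [instance] DRA.ring DRA.mod DRA.fd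

section

variable {A : Type} [Ring A] [Algebra K A]

/-- The linear combinations of elements of `S`. -/
def combs (K : Type) [Field K] {A : Type} [Ring A] [Algebra K A] (S : Set A) : Set A :=
  {c | c ∈ Submodule.span K S}

/-- The elements of `S` are linear combinations of the products of the images of elements of `SA` and
of `SB`. -/
def IsKunneth {K A B C : Type} [Field K] [Ring A] [Algebra K A] [Ring B] [Algebra K B] [Ring C]
    [Algebra K C] (p : A →ₐ[K] C) (q : B →ₐ[K] C) (SA : Set A) (SB : Set B) (S : Set C) : Prop :=
  S ⊆ combs K {x | ∃ a ∈ SA, ∃ b ∈ SB, x = p a * q b}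

/-- The elements `c` of the subspace `U` such that `t ⊗ c` belongs to the de Rham structure `S`. -/
def scaled (S : Set (Cx K A)) (U : Submodule K A) (t : ℂ) : Set A :=
  {c | c ∈ U ∧ tens t c ∈ S}

end

/-- The de Rham-Betti structure. -/
def DRA.str (X : DRA K F) : DRB K F where
  V := X.A
  dR := X.dR
  form := X.form

/-- The de Rham-Betti classes: the classes `c` of degree `2 j` such that `(2 π i)^j c` lies in the
de Rham cohomology, for all `j`. -/
def DRA.drb (X : DRA K F) (j : ℕ) : Set X.A := scaled X.dR (X.gr (2 * j)) (twoPiI ^ j)

/-- The period conjecture: all de Rham-Betti classes are algebraic. -/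
def DRA.GPC (X : DRA K F) : Prop := ∀ j, X.drb j ⊆ combs K (X.cl j)

/-- The de Rham-Betti classes of all degrees. -/
def DRA.periods (X : DRA K F) : Set X.A := {c | ∃ j, c ∈ X.drb j}

/-- There is a zero-cycle of degree different from `0`. -/
def DRA.Point (X : DRA K F) : Prop := ∃ a ∈ X.cl X.dim, X.tr a ≠ 0

/-- The common eigenvectors of the period operators. -/
def DRA.eigs (X : DRA K F) : Set (Cx K X.A) := (sp X.str).eigs

/-- The images of the equivariant linear maps from the `U a`. -/
def DRA.imgs {κ : Type} (U : κ → DRB K F) (X : DRA K F) : Set (Cx K X.A) :=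
  St.imgs (fun a => sp (U a)) (sp X.str)

/-- The algebra with complex coefficients is generated by the common eigenvectors of the period
operators and by the images of equivariant linear maps from the `U a`. -/
def DRA.GenBy {κ : Type} (U : κ → DRB K F) (X : DRA K F) : Prop := Generates (X.eigs ∪ X.imgs U)

/-- The algebra is generated by `V` and semisimple, and all common eigenvectors of the period
operators are complex linear combinations of de Rham-Betti classes. -/
structure DRA.OfType (V : DRB K F) (X : DRA K F) : Prop where
  gen : X.GenBy (fun _ : Unit => V)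
  semisimple : (sp X.str).Semisimple
  twisted : IsSpanned X.eigs X.periods

/-- The algebra is generated by the de Rham-Betti classes and by the images of the homomorphisms
from `V` to the part of degree `1`. (For instance, if `V` is the first cohomology of an elliptic
curve: the powers of this curve.) -/
def DRA.Power (V : DRB K F) (X : DRA K F) : Prop :=
  GeneratesK K (X.periods ∪ homImages V.dR X.dR (X.gr 1))

/-- The set is finite, and the number of its elements is at most `(b - b') / 2`, where `b` is the
dimension of the algebra and `b'` the dimension of the span of the common eigenvectors of the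
period operators. -/
def DRA.Bound {ι : Type} (X : DRA K F) (E : Set ι) : Prop :=
  E.Finite ∧ 2 * E.ncard + (sp X.str).dim' ≤ (sp X.str).dim

/-- The sets `E U` are finite, with at most `dim U - dim U'` elements, where `U'` is the span of the
common eigenvectors of the period operators, and no `j ≠ i` is exceptional with respect to `V i`. -/
structure Few {ι : Type} (V : ι → DRB K F) (E : DRB K F → Set ι) : Prop where
  finite : ∀ U, (E U).Finite
  card : ∀ U, (E U).ncard + (sp U).dim' ≤ (sp U).dim
  self : ∀ i, E (V i) ⊆ {i}

end Gen

open Pool.Agent.H914 Pool.Agent.H914.VarClass Pool.Agent.H914.VarClass.Obj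
  Pool.Agent.H914.WeilCohomology

variable {k : Type u} [Field k] {𝒱 : VarClass k} {ops : CycleOps 𝒱}
  {W : WeilCohomology.{u, 0} ops} [Algebra W.K ℂ] {F : Subfield ℂ}

/-- The cohomology of the variety `X`. -/
def coho (D : DeRham W F) (X : 𝒱.Obj) : DRA W.K F where
  A := W.H X
  dR := dRSet D X
  form := form_set D X
  gr := W.gr X
  cl := algClasses W X
  tr := W.tr X
  dim := X.dim

/-- The product `P_1 × (P_2 × (⋯ × Z))`, where `L` is the list of the pairs `(i_a, P_a)`. -/
def prd {ι : Type} (L : List (ι × 𝒱.Obj)) (Z : 𝒱.Obj) : 𝒱.Obj := L.foldr (fun x Y => x.2.prod Y) Z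

/-- The list `L` of the pairs `(i_a, P_a)`: the indices are pairwise different and not in `E`, and the
cohomology of `P_a` has the property `Q i_a`. -/
def Good (D : DeRham W F) {ι : Type} (Q : ι → DRA W.K F → Prop) (E : Set ι)
    (L : List (ι × 𝒱.Obj)) : Prop :=
  (L.map Prod.fst).Nodup ∧ ∀ x ∈ L, x.1 ∉ E ∧ Q x.1 (coho D x.2)

/-- Let `P_a` be varieties with the property `Q i_a`, where the indices `i_a` are pairwise different
and not in `E`. The de Rham-Betti classes on `P_1 × (P_2 × (⋯ × Z))` are the linear combinations of
the products of the pull-backs of de Rham-Betti classes on `P_1` and on `P_2 × (⋯ × Z)`; and the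
period conjecture holds for the product if and only if it holds for `Z` and for all `P_a`. -/
structure Splits (D : DeRham W F) {ι : Type} (Q : ι → DRA W.K F → Prop) (E : Set ι) (Z : 𝒱.Obj) :
    Prop where
  kunneth : ∀ (i : ι) (P : 𝒱.Obj) (L : List (ι × 𝒱.Obj)), Good D Q E ((i, P) :: L) →
    IsKunneth (W.map (fst P (prd L Z))) (W.map (snd P (prd L Z))) (coho D P).periods
      (coho D (prd L Z)).periods (coho D (P.prod (prd L Z))).periods
  gpc : (coho D Z).Point → ∀ L : List (ι × 𝒱.Obj), Good D (fun i X => Q i X ∧ X.Point) E L →
    ((coho D (prd L Z)).GPC ↔ (coho D Z).GPC ∧ ∀ x ∈ L, (coho D x.2).GPC)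

/-- `E U` is the set of the exceptional indices with respect to the de Rham-Betti structure `U`.

* The sets `E U` are finite (`Few`), and for every variety `Z` the number of the exceptional indices
  with respect to the cohomology of `Z` is at most one half of `b - b'`, where `b` is the sum of the
  Betti numbers and `b'` is the dimension of the span of the common eigenvectors of the period
  operators.
* If `Z` is generated by finitely many structures `U a` (for instance by its own cohomology), then
  the theorem `Splits` holds for the products of `Z` with varieties of the types `V i`, without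
  indices in the `E (U a)`. -/
structure Splitting (D : DeRham W F) {ι : Type} (V : ι → DRB W.K F) (E : DRB W.K F → Set ι) :
    Prop where
  few : Few V E
  variety : ∀ Z : 𝒱.Obj, (coho D Z).Bound (E (coho D Z).str)
  splits : ∀ (m : ℕ) (U : Fin m → DRB W.K F) (Z : 𝒱.Obj), (coho D Z).GenBy U →
    Splits D (fun i X => X.OfType (V i)) (⋃ a, E (U a)) Z

/-- The theorem for elliptic curves `A i`: their first cohomology groups form an independent family,
the varieties generated by one of them fulfil the hypotheses of `Splitting`, and for every variety
`Z` there is a set of at most `(b - b') / 2` exceptional curves, such that `Splits` holds for the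
products of `Z` with powers of the other curves. -/
structure Elliptic (D : DeRham W QF) {ι : Type} (A : ι → AbVar 1) : Prop where
  family : Family (fun i => sp (ell W.K (A i)))
  power : ∀ (i : ι) (P : 𝒱.Obj), (coho D P).Power (ell W.K (A i)) →
    (coho D P).OfType (ell W.K (A i))
  split : ∀ Z : 𝒱.Obj, ∃ E : Set ι, (coho D Z).Bound E ∧
    Splits D (fun i X => X.Power (ell W.K (A i))) E Z

end

end Pool.Agent.N179.DB.St
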