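import Pool.Agent.N179.DB.Defs
import Pool.Agent.N179.GR.Fin
import Pool.Agent.H914R2.WBase2

/-!
# The action of the group on the cohomology algebras
-/

set_option autoImplicit false
set_option linter.unusedSectionVars false

open CategoryTheory AlgebraicGeometry TensorProduct

universe u

namespace Pool.Agent.N179.DB.S

open Module Pool.Agent.Y133.Per Pool.Agent.N179.DB Pool.Agent.N179.GR.S

noncomputable section

section Rep

variable {K : Type} [Field K] [Algebra K ℂ] {F : Subfield ℂ}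

/-- the action -/
def act0 (M : DRB K F) : PG K F →* (Cx K M.V ≃ₗ[ℂ] Cx K M.V) := action M

theorem act0_of (M : DRB K F) (p : Pair K F) : act0 M (FreeGroup.of p) = op M p :=
  FreeGroup.lift_apply_of

theorem action_eq (M : DRB K F) : act0 M = rho M.b M.e K F := by
  refine FreeGroup.ext_hom _ _ fun p => ?_
  rw [act0_of, rho_of]
  exact op_unique M p (exists_period_op M p).choose_spec

/-- the representation on the space -/
def repR (M : DRB K F) : GRep ℂ (PG K F) where
  V := Cx K M.V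
  fd := Cx.fd M.V
  act g := (rho M.b M.e K F g).toLinearMap
  one := fun x => by rw [map_one]; rfl
  mul := fun g h x => by rw [map_mul]; rfl

theorem ofAut_eq {G : Type} [Group G] {M : DRB K F} (ρ ρ' : G →* (Cx K M.V ≃ₗ[ℂ] Cx K M.V))
    (h : ρ = ρ') (fd : FiniteDimensional ℂ (Cx K M.V)) :
    ofAut (V := Cx K M.V) fd ρ = ofAut (V := Cx K M.V) fd ρ' := by
  rw [h]

theorem rep_eq (M : DRB K F) : rep M = repR M :=
  ofAut_eq _ _ (action_eq M) (Cx.fd M.V)

theorem rep_act (M : DRB K F) (g : PG K F) (x : Cx K M.V) :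
    (rep M).ap g x = rho M.b M.e K F g x := by
  rw [← action_eq]
  rfl

theorem bc_tens {V V' : Type} [AddCommGroup V] [Module K V] [AddCommGroup V'] [Module K V']
    (f : V →ₗ[K] V') (c : ℂ) (v : V) : bc f (tens c v) = tens c (f v) := rfl

theorem bc_gal {V V' : Type} [AddCommGroup V] [Module K V] [AddCommGroup V'] [Module K V']
    (f : V →ₗ[K] V') (τ : ℂ ≃+* ℂ) (hτ : ∀ r : K, τ (algebraMap K ℂ r) = algebraMap K ℂ r)
    (x : Cx K V) : bc f (gal τ hτ x) = gal τ hτ (bc f x) := by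
  refine cx_ind (p := fun x => bc f (gal τ hτ x) = gal τ hτ (bc f x)) ?_ ?_ ?_ x
  · exact map_zero _
  · intro r c
    rfl
  · intro a b ha hb
    rw [gal_add, map_add, ha, hb, map_add, gal_add]

/-- homomorphisms are equivariant -/
theorem rho_lin {M N : DRB K F} (f : M.V →ₗ[K] N.V) (hf : IsHom f) (g : PG K F)
    (x : Cx K M.V) : bc f (rho M.b M.e K F g x) = rho N.b N.e K F g (bc f x) := by
  refine rho_map M.b M.e N.b N.e (bc f) ?_ ?_ g x
  · intro τ hτ x
    rw [← M.gal_eq hτ, ← N.gal_eq hτ]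
    exact bc_gal f τ hτ x
  · intro k
    rw [← N.mem]
    exact hf _ ((M.mem _).2 (InF.basis k))

end Rep

open Pool.Agent.H914 Pool.Agent.H914.VarClass Pool.Agent.H914.VarClass.Obj
  Pool.Agent.H914.WeilCohomology Pool.Agent.TH125.Gal

variable {k : Type u} [Field k] {𝒱 : VarClass k} {ops : CycleOps 𝒱}
  {W : WeilCohomology.{u, 0} ops} [Algebra W.K ℂ] {F : Subfield ℂ} (D : DeRham W F)

/-- the action on the coefficients -/
def galB {A : Type} [Ring A] [Algebra W.K A] (τ : ℂ ≃+* ℂ) (h : FixK W.K τ) (x : Base W.K A) :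
    Base W.K A := gal τ h x

theorem gal_mul {A : Type} [Ring A] [Algebra W.K A] (τ : ℂ ≃+* ℂ) (h : FixK W.K τ)
    (x y : Base W.K A) : galB τ h (x * y) = galB τ h x * galB τ h y :=
  sig_mul (K := W.K) (L := ℂ) (AlgEquiv.ofRingEquiv (f := τ) h) x y

/-- the basis of the complex cohomology -/
abbrev bb (X : 𝒱.Obj) := (coh D X).b

/-- the de Rham basis of the complex cohomology -/
abbrev ee (X : 𝒱.Obj) := (coh D X).e

/-- the action on the cohomology -/
def rr (X : 𝒱.Obj) (g : PG W.K F) : Base W.K (W.H X) ≃ₗ[ℂ] Base W.K (W.H X) :=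
  rho (coh D X).b (coh D X).e W.K F g

theorem rr_mul_gen (X : 𝒱.Obj) (p : Pair W.K F) (x y : Base W.K (W.H X)) :
    rr D X (FreeGroup.of p) (x * y) = rr D X (FreeGroup.of p) x * rr D X (FreeGroup.of p) y := by
  have hP : ∀ s ∈ D.dR X, rr D X (FreeGroup.of p) (galB p.β p.fixβ s) = galB p.α p.fixα s := by
    intro s hs
    rw [rr, rho_of]
    have h1 := P_inF (coh D X).b (coh D X).e p.agree (((coh D X).mem s).1 hs)
    have h2 := (coh D X).gal_eq p.fixβ s
    have h3 := (coh D X).gal_eq p.fixα s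
    rw [← h2, ← h3] at h1
    exact h1
  let v : Fin (coh D X).n → Base W.K (W.H X) := fun i => (coh D X).e i
  have he : ∀ i, v i ∈ D.dR X := fun i => ((coh D X).mem _).2 (InF.basis i)
  -- compare two bilinear maps
  let T : Base W.K (W.H X) →ₗ[ℂ] Base W.K (W.H X) := (rr D X (FreeGroup.of p)).toLinearMap
  let B1 : Base W.K (W.H X) →ₗ[ℂ] Base W.K (W.H X) →ₗ[ℂ] Base W.K (W.H X) :=
    (LinearMap.mul ℂ (Base W.K (W.H X))).compr₂ T
  let B2 : Base W.K (W.H X) →ₗ[ℂ] Base W.K (W.H X) →ₗ[ℂ] Base W.K (W.H X) :=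
    (LinearMap.mul ℂ (Base W.K (W.H X))).compl₁₂ T T
  have hB : B1 = B2 := by
    refine (mv (coh D X).b (coh D X).e p.β).ext fun i => ?_
    refine (mv (coh D X).b (coh D X).e p.β).ext fun j => ?_
    rw [mv_apply, mv_apply, ← (coh D X).gal_eq p.fixβ, ← (coh D X).gal_eq p.fixβ]
    change rr D X (FreeGroup.of p) (galB p.β p.fixβ (v i) * galB p.β p.fixβ (v j)) =
      rr D X (FreeGroup.of p) (galB p.β p.fixβ (v i)) *
        rr D X (FreeGroup.of p) (galB p.β p.fixβ (v j))
    rw [hP _ (he i), hP _ (he j), ← gal_mul, ← gal_mul]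
    exact hP _ ((D.form X).mul _ (he i) _ (he j))
  exact LinearMap.congr_fun (LinearMap.congr_fun hB x) y

theorem rr_mul (X : 𝒱.Obj) (g : PG W.K F) : ∀ x y : Base W.K (W.H X),
    rr D X g (x * y) = rr D X g x * rr D X g y := by
  refine pg_ind (C := fun g => ∀ x y : Base W.K (W.H X),
    rr D X g (x * y) = rr D X g x * rr D X g y) g ?_ (fun p x y => rr_mul_gen D X p x y) ?_ ?_
  · intro x y
    unfold rr
    rw [map_one]
    rfl
  · intro g hg x y
    have h1 := hg (rr D X g⁻¹ x) (rr D X g⁻¹ y)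
    have h2 : ∀ z, rr D X g (rr D X g⁻¹ z) = z := fun z => apply_inv' _ _ g z
    have h3 : ∀ z, rr D X g⁻¹ (rr D X g z) = z := fun z => inv_apply' _ _ g z
    rw [h2, h2] at h1
    rw [← h1, h3]
  · intro g g' hg hg' x y
    have h1 : ∀ z, rr D X (g * g') z = rr D X g (rr D X g' z) := fun z => by
      unfold rr
      rw [map_mul]
      rfl
    rw [h1, h1, h1, hg', hg]

theorem rr_one (X : 𝒱.Obj) (g : PG W.K F) : rr D X g 1 = 1 := by
  obtain ⟨y, hy⟩ := (rr D X g).surjective 1
  have h1 := rr_mul D X g 1 y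
  rw [one_mul, hy, mul_one] at h1
  exact h1.symm

/-- the algebra automorphism -/
def algE (X : 𝒱.Obj) (g : PG W.K F) :
    (baseW W ℂ).H X ≃ₐ[(baseW W ℂ).K] (baseW W ℂ).H X :=
  AlgEquiv.ofLinearEquiv (show (baseW W ℂ).H X ≃ₗ[(baseW W ℂ).K] (baseW W ℂ).H X from rr D X g)
    (rr_one D X g) (rr_mul D X g)

/-- the action by algebra automorphisms -/
def actA (X : 𝒱.Obj) : PG W.K F →* ((baseW W ℂ).H X ≃ₐ[(baseW W ℂ).K] (baseW W ℂ).H X) where
  toFun := algE D X
  map_one' := by
    apply AlgEquiv.ext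
    intro x
    change rho (coh D X).b (coh D X).e W.K F 1 x = x
    rw [map_one]
    rfl
  map_mul' g h := by
    apply AlgEquiv.ext
    intro x
    change rho (coh D X).b (coh D X).e W.K F (g * h) x = _
    rw [map_mul]
    rfl

/-- the variety with the action -/
def var (X : 𝒱.Obj) : GVar (baseW W ℂ) (PG W.K F) := ⟨X, actA D X⟩

theorem coh_var (X : 𝒱.Obj) : GR.S.coh (var D X) = rep (coh D X) :=
  (rep_eq (coh D X)).symm

end

end Pool.Agent.N179.DB.S
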