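import Pool.Agent.N179.DB.Stm
import Pool.Agent.N179.DB.Var
import Pool.Agent.N179.DB.Dict

/-!
# Comparison of spaces with operators and representations of the free group
-/

set_option autoImplicit false
set_option linter.unusedSectionVars false

open CategoryTheory AlgebraicGeometry TensorProduct

namespace Pool.Agent.N179.DB.St

open Module Pool.Agent.Y133.Per Pool.Agent.N179.DB
open Pool.Agent.N179.GR.S (GRep)
open Pool.Agent.N179.DB.S (Cx)

noncomputable section

variable {P : Type}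

/-- the space with operators and the representation of the free group agree -/
structure Cmp (X : Sp P) (M : GRep ℂ (FreeGroup P)) (φ : X.V ≃ₗ[ℂ] M.V) : Prop where
  ap : ∀ p x, φ (X.ap p x) = M.ap (FreeGroup.of p) (φ x)

theorem free_ind {C : FreeGroup P → Prop} (g : FreeGroup P) (one : C 1)
    (of : ∀ p, C (FreeGroup.of p)) (inv : ∀ x, C x → C x⁻¹) (mul : ∀ x y, C x → C y → C (x * y)) :
    C g :=
  FreeGroup.induction_on g one of (fun _ h => inv _ h) mul

section one

variable (M : GRep ℂ (FreeGroup P))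

theorem ap_one (x : M.V) : M.ap 1 x = x := M.one x

theorem ap_mul (g h : FreeGroup P) (x : M.V) : M.ap (g * h) x = M.ap g (M.ap h x) := M.mul g h x

theorem ap_inv (g : FreeGroup P) (x : M.V) : M.ap g⁻¹ (M.ap g x) = x := by
  rw [← ap_mul, inv_mul_cancel, ap_one]

theorem ap_inv' (g : FreeGroup P) (x : M.V) : M.ap g (M.ap g⁻¹ x) = x := by
  rw [← ap_mul, mul_inv_cancel, ap_one]

theorem ap_smul (g : FreeGroup P) (c : ℂ) (x : M.V) : M.ap g (c • x) = c • M.ap g x :=
  map_smul (M.act g) c x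

theorem ap_zero (g : FreeGroup P) : M.ap g 0 = 0 := map_zero (M.act g)

theorem eig_free {x : M.V} (h : ∀ p, ∃ c : ℂ, M.ap (FreeGroup.of p) x = c • x)
    (g : FreeGroup P) : ∃ c : ℂ, M.ap g x = c • x := by
  refine free_ind (C := fun g => ∃ c : ℂ, M.ap g x = c • x) g ⟨1, ?_⟩ h ?_ ?_
  · rw [ap_one, one_smul]
  · rintro g ⟨c, hc⟩
    by_cases h0 : c = 0
    · rw [h0, zero_smul] at hc
      have h1 := ap_inv M g x
      rw [hc, ap_zero] at h1
      exact ⟨0, by rw [← h1, ap_zero, smul_zero]⟩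
    · refine ⟨c⁻¹, ?_⟩
      have h1 := ap_inv M g x
      rw [hc, ap_smul] at h1
      rw [eq_inv_smul_iff₀ h0, h1]
  · rintro g g' ⟨c, hc⟩ ⟨c', hc'⟩
    exact ⟨c' * c, by rw [ap_mul, hc', ap_smul, hc, smul_smul]⟩

theorem stable_free {A : Submodule ℂ M.V} (h : ∀ p, ∀ x ∈ A, M.ap (FreeGroup.of p) x ∈ A)
    (g : FreeGroup P) : ∀ x ∈ A, M.ap g x ∈ A := by
  refine free_ind (C := fun g => ∀ x ∈ A, M.ap g x ∈ A) g ?_ h ?_ ?_
  · intro x hx
    rwa [ap_one]
  · intro g hg x hx
    have hinj : Function.Injective (M.act g) := fun a b hab => by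
      have h1 := congrArg (M.ap g⁻¹) (show M.ap g a = M.ap g b from hab)
      rwa [ap_inv, ap_inv] at h1
    have h1 : A.map (M.act g) ≤ A := by
      rintro _ ⟨y, hy, rfl⟩
      exact hg y hy
    have h2 : A.map (M.act g) = A := by
      refine Submodule.eq_of_le_of_finrank_eq h1 ?_
      exact (Submodule.equivMapOfInjective (M.act g) hinj A).finrank_eq.symm
    have h3 : x ∈ A.map (M.act g) := by rw [h2]; exact hx
    obtain ⟨y, hy, rfl⟩ := h3
    have h4 := ap_inv M g y
    change M.ap g⁻¹ (M.ap g y) ∈ A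
    rw [h4]
    exact hy
  · intro g g' hg hg' x hx
    rw [ap_mul]
    exact hg _ (hg' _ hx)

end one

variable {X Y : Sp P} {M N : GRep ℂ (FreeGroup P)} {φ : X.V ≃ₗ[ℂ] M.V} {ψ : Y.V ≃ₗ[ℂ] N.V}

theorem Cmp.eigs (h : Cmp X M φ) (x : X.V) :
    x ∈ X.eigs ↔ ∀ g, ∃ c : ℂ, M.ap g (φ x) = c • φ x := by
  constructor
  · intro hx g
    refine eig_free M (fun p => ?_) g
    obtain ⟨c, hc⟩ := hx p
    exact ⟨c, by rw [← h.ap, hc, map_smul]⟩
  · intro hx p
    obtain ⟨c, hc⟩ := hx (FreeGroup.of p)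
    refine ⟨c, φ.injective ?_⟩
    rw [h.ap, hc, map_smul]

theorem Cmp.stable (h : Cmp X M φ) (A : Submodule ℂ X.V) :
    X.Stable A ↔ ∀ g, ∀ x ∈ A.map φ.toLinearMap, M.ap g x ∈ A.map φ.toLinearMap := by
  constructor
  · intro hA g
    refine stable_free M (fun p => ?_) g
    rintro _ ⟨x, hx, rfl⟩
    exact ⟨X.ap p x, hA p x hx, h.ap p x⟩
  · intro hA p x hx
    obtain ⟨y, hy, hy'⟩ := hA (FreeGroup.of p) (φ x) ⟨x, hx, rfl⟩
    have h1 : φ y = φ (X.ap p x) := by rw [h.ap]; exact hy'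
    rwa [← φ.injective h1]

theorem Cmp.equivariant (h : Cmp X M φ) (h' : Cmp Y N ψ) (f : X.V →ₗ[ℂ] Y.V) :
    Equivariant (X := X) (Y := Y) f ↔
      ∀ g x, ψ (f (φ.symm (M.ap g x))) = N.ap g (ψ (f (φ.symm x))) := by
  constructor
  · intro hf g
    refine free_ind (C := fun g => ∀ x, ψ (f (φ.symm (M.ap g x))) = N.ap g (ψ (f (φ.symm x))))
      g ?_ ?_ ?_ ?_
    · intro x
      rw [ap_one, ap_one]
    · intro p x
      have h1 := hf p (φ.symm x)
      have h2 : φ.symm (M.ap (FreeGroup.of p) x) = X.ap p (φ.symm x) := by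
        rw [LinearEquiv.symm_apply_eq, h.ap, LinearEquiv.apply_symm_apply]
      rw [h2, ← h'.ap]
      exact congrArg ψ h1
    · intro g hg x
      have h1 := hg (M.ap g⁻¹ x)
      rw [ap_inv'] at h1
      rw [h1, ap_inv]
    · intro g g' hg hg' x
      rw [ap_mul, hg, hg', ap_mul]
  · intro hf p x
    have h1 := hf (FreeGroup.of p) (φ x)
    rw [← h.ap, LinearEquiv.symm_apply_apply, LinearEquiv.symm_apply_apply, ← h'.ap] at h1
    exact ψ.injective h1

theorem isCompl_map (e : X.V ≃ₗ[ℂ] M.V) (A B : Submodule ℂ X.V) :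
    IsCompl (A.map e.toLinearMap) (B.map e.toLinearMap) ↔ IsCompl A B := by
  exact ((Submodule.orderIsoMapComap e).isCompl_iff).symm

theorem Cmp.semisimple (h : Cmp X M φ) : X.Semisimple ↔ GR.S.Semisimple M := by
  have key : ∀ A : Submodule ℂ M.V, (A.comap φ.toLinearMap).map φ.toLinearMap = A := fun A =>
    Submodule.map_comap_eq_of_surjective φ.surjective A
  constructor
  · intro hX A hA
    have h1 : X.Stable (Submodule.comap φ.toLinearMap A) := by
      rw [h.stable, key]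
      exact hA
    obtain ⟨B, hB, hAB⟩ := hX _ h1
    refine ⟨B.map φ.toLinearMap, (h.stable B).1 hB, ?_⟩
    rw [← isCompl_map φ, key] at hAB
    exact hAB
  · intro hM A hA
    obtain ⟨B, hB, hAB⟩ := hM (A.map φ.toLinearMap) ((h.stable A).1 hA)
    refine ⟨Submodule.comap φ.toLinearMap B, ?_, ?_⟩
    · rw [h.stable, key]
      exact hB
    · rw [← isCompl_map φ, key]
      exact hAB

section DRB

variable {K : Type} [Field K] [Algebra K ℂ] {F : Subfield ℂ}

/-- the identity -/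
def idSp (M : S.DRB K F) : (sp M).V ≃ₗ[ℂ] (S.rep M).V := LinearEquiv.refl ℂ (Cx K M.V)

theorem idSp_apply (M : S.DRB K F) (x : (sp M).V) : idSp M x = x := rfl

/-- the comparison for the space of a de Rham-Betti structure -/
theorem cmp_sp (M : S.DRB K F) : Cmp (sp M) (S.rep M) (idSp M) where
  ap p x := by
    rw [idSp_apply, idSp_apply, S.rep_act, rho_of]
    have h1 := S.op_unique M p (T := (exists_op M p).choose) (exists_op M p).choose_spec
    exact LinearEquiv.congr_fun h1 x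

/-- the identity for the operators -/
def idEnd (M : S.DRB K F) : (sp M).endo.V ≃ₗ[ℂ] (GR.S.endo (S.rep M)).V :=
  LinearEquiv.refl ℂ (Cx K M.V →ₗ[ℂ] Cx K M.V)

theorem idEnd_apply (M : S.DRB K F) (x : (sp M).endo.V) : idEnd M x = x := rfl

/-- the comparison for the space of the operators -/
theorem cmp_endo (M : S.DRB K F) : Cmp (sp M).endo (GR.S.endo (S.rep M)) (idEnd M) where
  ap p x := by
    rw [idEnd_apply, idEnd_apply]
    let T : Cx K M.V ≃ₗ[ℂ] Cx K M.V := (exists_op M p).choose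
    let x' : Cx K M.V →ₗ[ℂ] Cx K M.V := x
    have hT : ∀ y, T y = (S.rep M).ap (FreeGroup.of p) y := fun y => (cmp_sp M).ap p y
    have hT' : ∀ y, T.symm y = (S.rep M).ap (FreeGroup.of p)⁻¹ y := fun y => by
      rw [LinearEquiv.symm_apply_eq, hT]
      exact (ap_inv' (S.rep M) (FreeGroup.of p) y).symm
    refine LinearMap.ext fun v => ?_
    change T (x' (T.symm v)) =
      (S.rep M).ap (FreeGroup.of p) (x' ((S.rep M).ap (FreeGroup.of p)⁻¹ v))
    rw [hT, hT']

theorem eigs_eq [IsAlgClosed F] (hKF : ∀ r : K, algebraMap K ℂ r ∈ F) (M : S.DRB K F) :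
    (sp M).eigs = S.semi M := by
  ext x
  rw [(cmp_sp M).eigs]
  constructor
  · intro h
    exact ⟨⊤, inferInstance, fun g _ => h g⟩
  · intro h g
    exact S.semi_all hKF M h g

theorem eigs_endo [IsAlgClosed F] (hKF : ∀ r : K, algebraMap K ℂ r ∈ F) (M : S.DRB K F)
    (x : (sp M).endo.V) :
    x ∈ (sp M).endo.eigs ↔ GR.S.SemiInv (M := GR.S.endo (S.rep M)) x := by
  rw [(cmp_endo M).eigs]
  constructor
  · intro h
    exact ⟨⊤, inferInstance, fun g _ => h g⟩
  · intro h g
    exact S.semi_all_endo hKF M h g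

theorem indep_iff [IsAlgClosed F] (hKF : ∀ r : K, algebraMap K ℂ r ∈ F) (M N : S.DRB K F) :
    Independent (sp M) (sp N) ↔ GR.S.Independent (S.rep M) (S.rep N) := by
  have hspan : ∀ y : (sp N).endo.V, y ∈ Submodule.span ℂ (sp N).endo.eigs ↔
      (GR.S.semiSpan (GR.S.endo (S.rep N))).Has y := by
    intro y
    have h1 : (sp N).endo.eigs = {x | GR.S.SemiInv (M := GR.S.endo (S.rep N)) x} :=
      Set.ext fun x => eigs_endo hKF N x
    rw [h1]
    rfl
  constructor
  · intro h f hf x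
    have h1 := h f (((cmp_endo M).equivariant (cmp_endo N) f).2 hf) x
    exact (hspan _).1 h1
  · intro h f hf x
    have h1 := h f (((cmp_endo M).equivariant (cmp_endo N) f).1 hf) x
    exact (hspan _).2 h1

theorem family_iff [IsAlgClosed F] (hKF : ∀ r : K, algebraMap K ℂ r ∈ F) {ι : Type}
    (V : ι → S.DRB K F) :
    Family (fun i => sp (V i)) ↔ GR.S.Family (fun i => S.rep (V i)) := by
  constructor
  · intro h
    exact ⟨fun i => (cmp_endo (V i)).semisimple.1 (h.semisimple i),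
      fun i j hij => (indep_iff hKF _ _).1 (h.independent i j hij)⟩
  · intro h
    exact ⟨fun i => (cmp_endo (V i)).semisimple.2 (h.semisimple i),
      fun i j hij => (indep_iff hKF _ _).2 (h.independent i j hij)⟩

theorem imgs_eq {κ : Type} (U : κ → S.DRB K F) (M : S.DRB K F) :
    imgs (fun a => sp (U a)) (sp M) = S.imgs U M := by
  ext x
  constructor
  · rintro ⟨a, f, v, hf, hx⟩
    exact ⟨a, f, v, ((cmp_sp (U a)).equivariant (cmp_sp M) f).1 hf, hx⟩
  · rintro ⟨a, f, v, hf, hx⟩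
    exact ⟨a, f, v, ((cmp_sp (U a)).equivariant (cmp_sp M) f).2 hf, hx⟩

theorem dim_eq (M : S.DRB K F) : (sp M).dim = GR.S.dim (S.rep M) := rfl

theorem dim'_eq [IsAlgClosed F] (hKF : ∀ r : K, algebraMap K ℂ r ∈ F) (M : S.DRB K F) :
    (sp M).dim' = (GR.S.semiSpan (S.rep M)).dim := by
  unfold Sp.dim'
  rw [eigs_eq hKF]
  rfl

end DRB

end

end Pool.Agent.N179.DB.St
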