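import Pool.Agent.N179.DB.Fin
import Pool.Agent.N179.GR.Step

/-!
# The Künneth formula for twisted classes and for de Rham-Betti classes
-/

set_option autoImplicit false
set_option linter.unusedSectionVars false

open CategoryTheory AlgebraicGeometry TensorProduct

universe u

namespace Pool.Agent.N179.GR

open Module Pool.Agent.H914 Pool.Agent.H914.VarClass Pool.Agent.H914.VarClass.Obj
  Pool.Agent.H914.WeilCohomology Pool.Agent.H281R3.HT Pool.Agent.W552 Pool.Agent.TH125.Gal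

noncomputable section

variable {k : Type u} [Field k] {𝒱 : VarClass k} {ops : CycleOps 𝒱}
  {W : WeilCohomology.{u, 0} ops} {Γ : Type} [Group Γ]

variable {P Y : 𝒱.Obj} {ρ : Γ →* (W.H P ≃ₐ[W.K] W.H P)} {τ : Γ →* (W.H Y ≃ₐ[W.K] W.H Y)}
  {υ : Γ →* (W.H (P.prod Y) ≃ₐ[W.K] W.H (P.prod Y))}

/-- **The Künneth formula for twisted classes.** -/
theorem tw_step {χ : Γ →* W.Kˣ} (h1 : Intertwines (W.map (fst P Y)) ρ υ)
    (h2 : Intertwines (W.map (snd P Y)) τ υ) {j : ℕ}
    {z : W.H (P.prod Y)} (hzj : z ∈ W.gr (P.prod Y) (2 * j)) {Δ : Subgroup Γ}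
    (hΔ : Δ.FiniteIndex) (hz : ∀ g ∈ Δ, υ g z = (χ g : W.K) ^ j • z)
    (hs : ∀ ψ, ctr2 ψ z ∈ Submodule.span W.K (TwSet χ P ρ)) :
    z ∈ Submodule.span W.K {x | ∃ a ∈ TwSet χ P ρ, ∃ b ∈ TwSet χ Y τ,
      x = W.map (fst P Y) a * W.map (snd P Y) b} := by
  classical
  obtain ⟨N, m, φ, hm, hφ, hexp⟩ := exists_exp Y (TwSet χ P ρ)
  have h3 := hexp z hs
  choose i hmi Δ' hΔ' hc' using fun l => hm l
  have hfin : (⨅ l, Δ' l).FiniteIndex := Subgroup.finiteIndex_iInf fun l => hΔ' l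
  set x : Fin N → W.H Y := fun l => ctr (φ l) z with hx
  -- degrees
  have hdeg : ∀ l, x l = if 2 * i l ≤ 2 * j then
      proj (W.isInternal Y) (2 * j - 2 * i l) (x l) else 0 := by
    intro l
    have h4 : z = ∑ l', W.map (fst _ Y) (m l') * W.map (snd _ Y)
        (if 2 * i l' ≤ 2 * j then proj (W.isInternal Y) (2 * j - 2 * i l') (x l') else 0) := by
      conv_lhs => rw [← proj_same (W.isInternal _) hzj, h3]
      rw [map_sum]
      refine Finset.sum_congr rfl fun l' _ => ?_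
      rw [proj_ext (hmi l')]
      by_cases h : 2 * i l' ≤ 2 * j
      · rw [if_pos h, if_pos h]
      · rw [if_neg h, if_neg h, map_zero, mul_zero]
    conv_lhs => rw [hx]
    beta_reduce
    rw [h4]
    exact ctr_sum hφ _ l
  -- semi-invariance
  have hact : ∀ g ∈ Δ ⊓ ⨅ l, Δ' l, ∀ l,
      (χ g : W.K) ^ i l • τ g (x l) = (χ g : W.K) ^ j • x l := by
    intro g hg l
    have h4 : υ g z = ∑ l', W.map (fst _ Y) (m l') * W.map (snd _ Y)
        ((χ g : W.K) ^ i l' • τ g (x l')) := by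
      conv_lhs => rw [h3]
      rw [map_sum]
      refine Finset.sum_congr rfl fun l' _ => ?_
      rw [map_mul, h1, h2, hc' l' g (Subgroup.mem_iInf.1 hg.2 l'), map_smul, map_smul,
        smul_mul_assoc, mul_smul_comm]
    have h5 := ctr_sum hφ (fun l' => (χ g : W.K) ^ i l' • τ g (x l')) l
    rw [← h4, hz g hg.1, map_smul] at h5
    exact h5.symm
  have htw : ∀ l, x l ∈ TwSet χ Y τ := by
    intro l
    by_cases h : 2 * i l ≤ 2 * j
    · have h4 := hdeg l
      rw [if_pos h] at h4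
      have h5 : x l ∈ W.gr Y (2 * (j - i l)) := by
        rw [h4, show 2 * (j - i l) = 2 * j - 2 * i l by omega]
        exact proj_mem _ _ _
      refine ⟨j - i l, h5, Δ ⊓ ⨅ l, Δ' l, inferInstance, fun g hg => ?_⟩
      have h7 := hact g hg l
      have h8 : (χ g : W.K) ^ j = (χ g : W.K) ^ i l * (χ g : W.K) ^ (j - i l) := by
        rw [← pow_add]
        congr 1
        omega
      rw [h8, mul_smul] at h7
      exact smul_right_injective _ (pow_ne_zero _ (Units.ne_zero (χ g))) h7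
    · have h4 := hdeg l
      rw [if_neg h] at h4
      rw [h4]
      exact ⟨0, Submodule.zero_mem _, ⊤, inferInstance, fun g _ => by rw [map_zero, smul_zero]⟩
  rw [h3]
  exact Submodule.sum_mem _ fun l _ => Submodule.subset_span ⟨m l, hm l, x l, htw l, rfl⟩

end

end Pool.Agent.N179.GR

namespace Pool.Agent.N179.DB.S

open Module Pool.Agent.Y133.Per Pool.Agent.N179.DB Pool.Agent.N179.GR.S
open Pool.Agent.H914 Pool.Agent.H914.VarClass Pool.Agent.H914.VarClass.Obj
  Pool.Agent.H914.WeilCohomology Pool.Agent.TH125.Gal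

variable {k : Type u} [Field k] {𝒱 : VarClass k} {ops : CycleOps 𝒱}
  {W : WeilCohomology.{u, 0} ops} [Algebra W.K ℂ] {F : Subfield ℂ} (D : DeRham W F)

noncomputable section

/-- de Rham-Betti classes are twisted -/
theorem drb_tw {X : 𝒱.Obj} {j : ℕ} {c : W.H X} (hc : IsDRB D X j c) (g : PG W.K F) :
    (var D X).act g (tm 1 c : Base W.K (W.H X)) =
      ((ch W F g : (baseW W ℂ).Kˣ) : (baseW W ℂ).K) ^ j •
        (show (baseW W ℂ).H X from (tm 1 c : Base W.K (W.H X))) := by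
  have h1 : InF (coh D X).b (KF W.K) (tens 1 c : Cx W.K (W.H X)) := inF_tens (coh D X).bK c
  have h2 : InF (coh D X).e F (twoPiI ^ j • (tens 1 c : Cx W.K (W.H X))) := by
    rw [← (coh D X).mem, smul_tens, mul_one]
    exact hc.2
  exact rho_of_inF (K := W.K) (b := (coh D X).b) (e := (coh D X).e) h1 h2 g

/-- twisted classes are combinations of de Rham-Betti classes -/
theorem tw_drb [IsAlgClosed F] {X : 𝒱.Obj} {z : (baseW W ℂ).H X}
    (hz : z ∈ GR.TwSet (W := baseW W ℂ) (ch W F) X (var D X).act) :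
    (show Base W.K (W.H X) from z) ∈ Submodule.span ℂ {x : Base W.K (W.H X) |
      ∃ c ∈ periodClasses D X, x = tm 1 c} := by
  have hKF : ∀ r : W.K, algebraMap W.K ℂ r ∈ F := scal D X
  obtain ⟨j, hz, Δ, hΔ, hfix⟩ := hz
  let N : Submodule ℂ (Cx W.K (W.H X)) := gr' W X (2 * j) ⊓ pot (coh D X).b (coh D X).e W.K F j
  have hN := pot_le (K := W.K) (F := F) (b := (coh D X).b) (e := (coh D X).e) hKF (j := j) N (by
    intro τ hτ x hx
    refine ⟨?_, pot_sl hτ hx.2⟩
    rw [← (coh D X).gal_eq hτ]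
    exact gal_gr' τ hτ hx.1) inf_le_right
  have hzN : (show Cx W.K (W.H X) from z) ∈ N := ⟨hz, Δ, hΔ, hfix⟩
  have h1 := hN hzN
  have h2 : Submodule.span ℂ {x | x ∈ N ∧ InF (coh D X).b (KF W.K) x ∧
      InF (coh D X).e F (twoPiI ^ j • x)} ≤ Submodule.span ℂ {x : Base W.K (W.H X) |
      ∃ c ∈ periodClasses D X, x = tm 1 c} := by
    refine Submodule.span_le.2 ?_
    rintro x ⟨⟨hx1, -⟩, hx2, hx3⟩
    obtain ⟨(c : W.H X), rfl⟩ := exists_tens (coh D X).bK hx2
    have hc1 : c ∈ W.gr X (2 * j) := by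
      refine mem_of_base _ ?_
      have h3 := hx1
      rw [gr'_eq] at h3
      exact h3
    have hc2 : IsDRB D X j c := by
      refine ⟨hc1, ?_⟩
      have h5 : twoPiI ^ j • (tens 1 c : Cx W.K (W.H X)) ∈ D.dR X := ((coh D X).mem _).2 hx3
      rw [smul_tens, mul_one] at h5
      exact h5
    have h6 : (tm 1 c : Base W.K (W.H X)) ∈ Submodule.span ℂ {x : Base W.K (W.H X) |
        ∃ c ∈ periodClasses D X, x = tm 1 c} := Submodule.subset_span ⟨c, ⟨j, hc2⟩, rfl⟩
    exact h6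
  exact h2 h1

theorem base_mul {K A B C : Type} [Field K] [Algebra K ℂ] [Ring A] [Algebra K A] [Ring B]
    [Algebra K B] [Ring C] [Algebra K C] (p : A →ₐ[K] C) (q : B →ₐ[K] C) (SA : Set A) (SB : Set B)
    {a : Base K A} {b : Base K B}
    (ha : a ∈ Submodule.span ℂ {x : Base K A | ∃ c ∈ SA, x = tm 1 c})
    (hb : b ∈ Submodule.span ℂ {x : Base K B | ∃ c ∈ SB, x = tm 1 c}) :
    baseMap p a * baseMap q b ∈ Submodule.span ℂ {x : Base K C | ∃ s ∈ Submodule.span K
      {x | ∃ a ∈ SA, ∃ b ∈ SB, x = p a * q b}, x = tm 1 s} := by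
  induction ha using Submodule.span_induction with
  | mem x hx =>
    obtain ⟨c, hc, rfl⟩ := hx
    induction hb using Submodule.span_induction with
    | mem y hy =>
      obtain ⟨d, hd, rfl⟩ := hy
      rw [baseMap_tm, baseMap_tm, tm_mul, one_mul]
      exact Submodule.subset_span ⟨_, Submodule.subset_span ⟨c, hc, d, hd, rfl⟩, rfl⟩
    | zero => rw [map_zero, mul_zero]; exact Submodule.zero_mem _
    | add y z _ _ hy hz => rw [map_add, mul_add]; exact Submodule.add_mem _ hy hz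
    | smul r y _ hy => rw [map_smul, mul_smul_comm]; exact Submodule.smul_mem _ _ hy
  | zero => rw [map_zero, zero_mul]; exact Submodule.zero_mem _
  | add y z _ _ hy hz => rw [map_add, add_mul]; exact Submodule.add_mem _ hy hz
  | smul r y _ hy => rw [map_smul, smul_mul_assoc]; exact Submodule.smul_mem _ _ hy

/-- **The Künneth formula for de Rham-Betti classes.** -/
theorem drb_kunneth [IsAlgClosed F] {P Y : 𝒱.Obj} (hT : Twisted D P) (hK : Kunneth D P Y) :
    ∀ z ∈ periodClasses D (P.prod Y), z ∈ Submodule.span W.K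
      {x | ∃ a ∈ periodClasses D P, ∃ b ∈ periodClasses D Y,
        x = W.map (fst P Y) a * W.map (snd P Y) b} := by
  rintro c ⟨j, hc⟩
  have h1 : (tens 1 c : Cx W.K (W.H (P.prod Y))) ∈ semiCl D (P.prod Y) :=
    (mem_semiCl D).2 ⟨⊤, inferInstance, fun g _ => ⟨_, drb_tw D hc g⟩⟩
  have h2 := hK _ h1
  have hgr : (tm 1 c : Base W.K (W.H (P.prod Y))) ∈ gr' W (P.prod Y) (2 * j) := by
    rw [gr'_eq]
    exact Submodule.subset_span ⟨c, hc.1, rfl⟩
  have h3 := GR.tw_step (W := baseW W ℂ) (χ := ch W F) (P := P) (Y := Y) (j := j)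
    (z := (tm 1 c : Base W.K (W.H (P.prod Y)))) (intertwines D (fst P Y)) (intertwines D (snd P Y))
    hgr (Δ := ⊤) inferInstance (fun g _ => drb_tw D hc g) (by
      intro ψ
      have h4 : Submodule.span (baseW W ℂ).K {x : (baseW W ℂ).H (P.prod Y) |
          ∃ a ∈ toBase (semiCl D P), ∃ b ∈ toBase (semiCl D Y),
          x = (baseW W ℂ).map (fst P Y) a * (baseW W ℂ).map (snd P Y) b} ≤
          (Submodule.span (baseW W ℂ).K (GR.TwSet (W := baseW W ℂ) (ch W F) P
            (var D P).act)).comap (GR.ctr2 ψ) := by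
        refine Submodule.span_le.2 ?_
        rintro _ ⟨a, ha, b, hb, rfl⟩
        rw [SetLike.mem_coe, Submodule.mem_comap, GR.ctr2_apply]
        exact Submodule.smul_mem _ _ (twisted_of D hT a ((mem_semiCl D).1 ha))
      exact h4 h2)
  refine mem_of_base _ ?_
  have h5 : Submodule.span (baseW W ℂ).K {x : (baseW W ℂ).H (P.prod Y) |
      ∃ a ∈ GR.TwSet (W := baseW W ℂ) (ch W F) P (var D P).act,
      ∃ b ∈ GR.TwSet (W := baseW W ℂ) (ch W F) Y (var D Y).act,
      x = (baseW W ℂ).map (fst P Y) a * (baseW W ℂ).map (snd P Y) b} ≤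
    Submodule.span ℂ {x : Base W.K (W.H (P.prod Y)) | ∃ s ∈ Submodule.span W.K
      {x | ∃ a ∈ periodClasses D P, ∃ b ∈ periodClasses D Y,
        x = W.map (fst P Y) a * W.map (snd P Y) b}, x = tm 1 s} := by
    refine Submodule.span_le.2 ?_
    rintro _ ⟨a, ha, b, hb, rfl⟩
    exact base_mul (W.map (fst P Y)) (W.map (snd P Y)) _ _ (tw_drb D ha) (tw_drb D hb)
  exact h5 h3

end

end Pool.Agent.N179.DB.S
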