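import Pool.Agent.N179.DB.Stm1
import Pool.Agent.N179.DB.Pub
import Pool.Agent.N179.DB.Tw

/-!
# The proofs of the statements
-/

set_option autoImplicit false
set_option linter.unusedSectionVars false

open CategoryTheory AlgebraicGeometry TensorProduct

universe u

namespace Pool.Agent.N179.DB.St

open Pool.Agent.Y133.Per Pool.Agent.N179.DB
open Pool.Agent.N179.DB.S (Cx DRB QF ell NoCM NonIsogenous Rationals)
open Pool.Agent.Y102 (AbVar)
open Pool.Agent.H914 Pool.Agent.H914.VarClass Pool.Agent.H914.VarClass.Obj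
  Pool.Agent.H914.WeilCohomology

variable {k : Type u} [Field k] {𝒱 : VarClass k} {ops : CycleOps 𝒱}
  {W : WeilCohomology.{u, 0} ops} [Algebra W.K ℂ] {F : Subfield ℂ}

theorem str_eq (D : DeRham W F) (X : 𝒱.Obj) : (coho D X).str = S.coh D X := rfl

theorem gpc_iff (D : DeRham W F) (X : 𝒱.Obj) : (coho D X).GPC ↔ S.PeriodConjecture D X := by
  refine forall_congr' fun j => forall_congr' fun c => ?_
  have h : (Submodule.span W.K (algClasses W X j)) = spanCycles W X (j : ℤ) := by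
    unfold spanCycles
    congr 1
    ext c
    constructor
    · rintro ⟨z, hz, rfl⟩
      exact ⟨j, rfl, z, hz, rfl⟩
    · rintro ⟨p, hp, z, hz, rfl⟩
      obtain rfl : p = j := by exact_mod_cast hp
      exact ⟨z, hz, rfl⟩
  have h2 : c ∈ (coho D X).drb j ↔ IsDRB D X j c := Iff.rfl
  rw [h2, ← h]
  rfl

theorem point_iff (D : DeRham W F) (X : 𝒱.Obj) : (coho D X).Point ↔ S.HasPoint W X := Iff.rfl

theorem power_iff (D : DeRham W F) (V : DRB W.K F) (X : 𝒱.Obj) :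
    (coho D X).Power V ↔ S.PowerType D V X := Iff.rfl

theorem coho_eigs [IsAlgClosed F] (hKF : ∀ r : W.K, algebraMap W.K ℂ r ∈ F) (D : DeRham W F)
    (X : 𝒱.Obj) : (coho D X).eigs = S.semiCl D X := eigs_eq hKF (S.coh D X)

theorem gen_iff [IsAlgClosed F] (hKF : ∀ r : W.K, algebraMap W.K ℂ r ∈ F) (D : DeRham W F)
    {κ : Type} (U : κ → DRB W.K F) (X : 𝒱.Obj) :
    (coho D X).GenBy U ↔ S.GeneratedBy D U X := by
  have h1 := coho_eigs hKF D X
  have h2 : (coho D X).imgs U = S.imgCl D U X := imgs_eq U (S.coh D X)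
  unfold DRA.GenBy S.GeneratedBy
  rw [h1, h2]
  rfl

theorem type_iff [IsAlgClosed F] (hKF : ∀ r : W.K, algebraMap W.K ℂ r ∈ F) (D : DeRham W F)
    (V : DRB W.K F) (X : 𝒱.Obj) :
    (coho D X).OfType V ↔ S.OfType D V X ∧ S.Twisted D X := by
  have h1 := coho_eigs hKF D X
  have h2 : (sp (coho D X).str).Semisimple ↔ GR.S.Semisimple (S.rep (S.coh D X)) :=
    (cmp_sp (S.coh D X)).semisimple
  constructor
  · intro h
    refine ⟨⟨(gen_iff hKF D _ X).1 h.gen, h2.1 h.semisimple⟩, ?_⟩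
    have h3 := h.twisted
    rw [h1] at h3
    exact h3
  · rintro ⟨⟨h3, h4⟩, h5⟩
    refine ⟨(gen_iff hKF D _ X).2 h3, h2.2 h4, ?_⟩
    rw [h1]
    exact h5

theorem gpc_all (D : DeRham W F) {ι : Type} (L : List (ι × 𝒱.Obj)) (Z : 𝒱.Obj)
    (h : S.PeriodConjecture D (S.prodList L Z) ↔
      S.PeriodConjecture D Z ∧ ∀ x ∈ L, S.PeriodConjecture D x.2) :
    ((coho D (prd L Z)).GPC ↔ (coho D Z).GPC ∧ ∀ x ∈ L, (coho D x.2).GPC) := by
  rw [gpc_iff, gpc_iff, show prd L Z = S.prodList L Z from rfl, h]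
  refine and_congr Iff.rfl (forall₂_congr fun x _ => ?_)
  rw [gpc_iff]

theorem dim_coho [IsAlgClosed F] (hKF : ∀ r : W.K, algebraMap W.K ℂ r ∈ F) (D : DeRham W F)
    (X : 𝒱.Obj) {ι : Type} {E : Set ι} (hE : E.Finite)
    (h : 2 * E.ncard + (GR.S.semiSpan (S.rep (S.coh D X))).dim ≤ Module.finrank W.K (W.H X)) :
    (coho D X).Bound E := by
  refine ⟨hE, ?_⟩
  have h1 : (sp (coho D X).str).dim' = (GR.S.semiSpan (S.rep (S.coh D X))).dim :=
    dim'_eq hKF (S.coh D X)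
  have h2 : (sp (coho D X).str).dim = GR.S.dim (S.rep (S.coh D X)) := rfl
  rw [h1, h2, S.dim_coh D X]
  exact h

theorem kunneth_iff (D : DeRham W F) {P Y : 𝒱.Obj}
    (h : ∀ z ∈ S.periodClasses D (P.prod Y), z ∈ Submodule.span W.K
      {x | ∃ a ∈ S.periodClasses D P, ∃ b ∈ S.periodClasses D Y,
        x = W.map (fst P Y) a * W.map (snd P Y) b}) :
    IsKunneth (W.map (fst P Y)) (W.map (snd P Y)) (coho D P).periods (coho D Y).periods
      (coho D (P.prod Y)).periods := fun z hz => h z hz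

theorem splits_of [IsAlgClosed F] (hKF : ∀ r : W.K, algebraMap W.K ℂ r ∈ F) {D : DeRham W F}
    {ι : Type} {V : ι → DRB W.K F} {E : DRB W.K F → Set ι} (h : S.Splitting D V E)
    (m : ℕ) (U : Fin m → DRB W.K F) (Z : 𝒱.Obj) (hZ : (coho D Z).GenBy U) :
    Splits D (fun i X => X.OfType (V i)) (⋃ a, E (U a)) Z where
  kunneth i P L hL := by
    have h1 := h.outside m U Z ((gen_iff hKF D U Z).1 hZ)
    have h2 := fun x hx => (type_iff hKF D _ _).1 (hL.2 x hx).2
    exact kunneth_iff D (S.drb_kunneth D (h2 (i, P) List.mem_cons_self).2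
      (h1.kunneth i P L ⟨hL.1, fun x hx => ⟨(hL.2 x hx).1, (h2 x hx).1⟩⟩))
  gpc hZ' L hL := by
    have h1 := h.outside m U Z ((gen_iff hKF D U Z).1 hZ)
    have h2 := fun x hx => (type_iff hKF D _ _).1 (hL.2 x hx).2.1
    exact gpc_all D L Z (h1.periods L ⟨hL.1, fun x hx => ⟨(hL.2 x hx).1, (h2 x hx).1⟩⟩
      (fun x hx => ⟨(h2 x hx).2, (hL.2 x hx).2.2⟩) hZ')

theorem splitting_of [IsAlgClosed F] (hKF : ∀ r : W.K, algebraMap W.K ℂ r ∈ F) {D : DeRham W F}
    {ι : Type} {V : ι → DRB W.K F} {E : DRB W.K F → Set ι} (h : S.Splitting D V E) :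
    Splitting D V E where
  few :=
    { finite := fun U => (h.exceptional U).finite
      card := fun U => by
        rw [dim'_eq hKF]
        exact (h.exceptional U).card
      self := h.self }
  variety Z := dim_coho hKF D Z (h.exceptional _).finite (h.variety Z)
  splits m U Z hZ := splits_of hKF h m U Z hZ

theorem split [IsAlgClosed F] (hKF : ∀ r : W.K, algebraMap W.K ℂ r ∈ F) (D : DeRham W F)
    {ι : Type} {V : ι → DRB W.K F} (hV : Family (fun i => sp (V i))) :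
    ∃ E : DRB W.K F → Set ι, Splitting D V E := by
  obtain ⟨E, hE⟩ := S.split D ((family_iff hKF V).1 hV)
  exact ⟨E, splitting_of hKF hE⟩

theorem rat_mem (hK : Rationals W.K) (r : W.K) : algebraMap W.K ℂ r ∈ QF := by
  obtain ⟨q, rfl⟩ := hK r
  rw [map_ratCast]
  exact SubfieldClass.ratCast_mem QF q

theorem good_mono {D : DeRham W F} {ι : Type} {Q Q' : ι → DRA W.K F → Prop} {E E' : Set ι}
    (hE : ∀ i, i ∉ E → i ∉ E') (hQ : ∀ i (X : 𝒱.Obj), Q i (coho D X) → Q' i (coho D X))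
    {L : List (ι × 𝒱.Obj)} (h : Good D Q E L) : Good D Q' E' L :=
  ⟨h.1, fun x hx => ⟨hE _ (h.2 x hx).1, hQ _ _ (h.2 x hx).2⟩⟩

theorem splits_mono {D : DeRham W F} {ι : Type} {Q Q' : ι → DRA W.K F → Prop} {E E' : Set ι}
    {Z : 𝒱.Obj} (h : Splits D Q' E' Z) (hE : ∀ i, i ∉ E → i ∉ E')
    (hQ : ∀ i (X : 𝒱.Obj), Q i (coho D X) → Q' i (coho D X)) : Splits D Q E Z where
  kunneth i P L hL := h.kunneth i P L (good_mono hE hQ hL)
  gpc hZ L hL := h.gpc hZ L (good_mono hE (fun i X hX => ⟨hQ i X hX.1, hX.2⟩) hL)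

theorem elliptic (hK : Rationals W.K) (D : DeRham W QF) {ι : Type} (A : ι → AbVar 1)
    (h1 : ∀ i, NoCM (A i)) (h2 : ∀ i j, i ≠ j → NonIsogenous (A i) (A j)) : Elliptic D A := by
  obtain ⟨h3, h4, -⟩ := S.elliptic hK D ι A h1 h2
  have hKF := rat_mem hK
  have h5 : ∀ (i : ι) (P : 𝒱.Obj), (coho D P).Power (ell W.K (A i)) →
    (coho D P).OfType (ell W.K (A i)) := fun i P hP => (type_iff hKF D _ _).2 (h4 i P hP)
  refine ⟨(family_iff hKF _).2 h3, h5, fun Z => ?_⟩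
  obtain ⟨E, hE⟩ := split hKF D ((family_iff hKF _).2 h3)
  refine ⟨E (coho D Z).str, hE.variety Z, ?_⟩
  refine splits_mono (hE.splits 1 (fun _ => (coho D Z).str) Z
    ((gen_iff hKF D _ Z).2 (S.gen_self D Z))) (fun i hi => ?_) h5
  rw [Set.mem_iUnion]
  rintro ⟨-, h⟩
  exact hi h

end Pool.Agent.N179.DB.St
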