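import Mathlib
import Pool.Agent.N179.DB.M2

/-!
# Tensor powers of the standard representation of `GL₂`
-/

set_option autoImplicit false
set_option linter.unusedSectionVars false

namespace Pool.Agent.N179.DB.Tn

open Matrix Finset Function Pool.Agent.N179.DB.Mt

noncomputable section

variable {S : Type} [Fintype S] [DecidableEq S]

/-- the tensor power -/
abbrev TT (S : Type) : Type := (S → Fin 2) → ℂ

/-- the action of a matrix -/
def op (Z : M2) : TT S →ₗ[ℂ] TT S where
  toFun t := fun I => ∑ J, (∏ i, Z (I i) (J i)) * t J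
  map_add' t t' := by
    funext I
    simp only [Pi.add_apply, mul_add, sum_add_distrib]
  map_smul' c t := by
    funext I
    simp only [Pi.smul_apply, smul_eq_mul, RingHom.id_apply, mul_sum]
    exact sum_congr rfl fun J _ => by ring

theorem op_apply (Z : M2) (t : TT S) (I : S → Fin 2) :
    op Z t I = ∑ J, (∏ i, Z (I i) (J i)) * t J := rfl

theorem op_mul (Z Z' : M2) (t : TT S) : op (Z * Z') t = op Z (op Z' t) := by
  funext I
  rw [op_apply, op_apply]
  simp only [op_apply, mul_sum]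
  rw [sum_comm]
  refine sum_congr rfl fun L _ => ?_
  have h1 : ∏ i, (Z * Z') (I i) (L i) = ∑ J : S → Fin 2, ∏ i, (Z (I i) (J i) * Z' (J i) (L i)) := by
    simp only [Matrix.mul_apply]
    rw [Finset.prod_univ_sum, Fintype.piFinset_univ]
  rw [h1, sum_mul]
  refine sum_congr rfl fun J _ => ?_
  rw [prod_mul_distrib, mul_assoc]

theorem op_one (t : TT S) : op 1 t = t := by
  funext I
  rw [op_apply, Finset.sum_eq_single I]
  · simp
  · intro J _ hJ
    obtain ⟨i, hi⟩ := Function.ne_iff.1 hJ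
    rw [prod_eq_zero (mem_univ i), zero_mul]
    rw [Matrix.one_apply_ne hi.symm]
  · intro h
    exact absurd (mem_univ _) h

theorem op_smul (c : ℂ) (Z : M2) (t : TT S) : op (c • Z) t = c ^ Fintype.card S • op Z t := by
  funext I
  rw [op_apply, Pi.smul_apply, op_apply, smul_eq_mul, mul_sum]
  refine sum_congr rfl fun J _ => ?_
  simp only [Matrix.smul_apply, smul_eq_mul]
  rw [prod_mul_distrib, prod_const, card_univ, mul_assoc]

/-- the action on one factor -/
def E (i : S) (Z : M2) : TT S →ₗ[ℂ] TT S where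
  toFun t := fun I => ∑ q, Z (I i) q * t (update I i q)
  map_add' t t' := by
    funext I
    simp only [Pi.add_apply, mul_add, sum_add_distrib]
  map_smul' c t := by
    funext I
    simp only [Pi.smul_apply, smul_eq_mul, RingHom.id_apply, mul_sum]
    exact sum_congr rfl fun J _ => by ring

theorem E_apply (i : S) (Z : M2) (t : TT S) (I : S → Fin 2) :
    E i Z t I = ∑ q, Z (I i) q * t (update I i q) := rfl

/-- the action of the Lie algebra -/
def dv (Z : M2) : TT S →ₗ[ℂ] TT S := ∑ i, E i Z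

theorem dv_apply (Z : M2) (t : TT S) (I : S → Fin 2) :
    dv Z t I = ∑ i, ∑ q, Z (I i) q * t (update I i q) := by
  rw [dv, LinearMap.sum_apply, Finset.sum_apply]
  rfl

theorem E_sq (i : S) {n : M2} (hn : n * n = 0) : E i n * E i n = (0 : Module.End ℂ (TT S)) := by
  refine LinearMap.ext fun t => funext fun I => ?_
  rw [Module.End.mul_apply, E_apply]
  simp only [E_apply, update_self, update_idem, mul_sum]
  rw [sum_comm]
  refine sum_eq_zero fun q _ => ?_
  have h1 := congrFun (congrFun hn (I i)) q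
  rw [Matrix.mul_apply, Matrix.zero_apply] at h1
  have h2 : ∑ x, n (I i) x * (n x q * t (update I i q)) =
      (∑ x, n (I i) x * n x q) * t (update I i q) := by
    rw [sum_mul]
    exact sum_congr rfl fun x _ => by ring
  rw [h2, h1, zero_mul]

theorem E_comm (i j : S) (Z : M2) : Commute (E i Z : Module.End ℂ (TT S)) (E j Z) := by
  rcases eq_or_ne i j with rfl | hij
  · exact Commute.refl _
  refine LinearMap.ext fun t => funext fun I => ?_
  rw [Module.End.mul_apply, Module.End.mul_apply, E_apply, E_apply]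
  simp only [E_apply, mul_sum, update_of_ne hij, update_of_ne hij.symm]
  rw [sum_comm]
  refine sum_congr rfl fun q _ => sum_congr rfl fun p _ => ?_
  rw [update_comm hij]
  ring

theorem dv_nil {n : M2} (hn : n * n = 0) : IsNilpotent (dv n : Module.End ℂ (TT S)) := by
  refine Commute.isNilpotent_sum (fun i _ => ⟨2, ?_⟩) fun i j _ _ => E_comm i j n
  rw [pow_two]
  exact E_sq i hn

/-- the derivative at the origin -/
theorem hasDeriv0 (n : M2) (t : TT S) (I : S → Fin 2) :
    HasDerivAt (fun h : ℂ => op (1 + h • n) t I) (dv n t I) 0 := by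
  have h1 : ∀ J : S → Fin 2, HasDerivAt (fun h : ℂ => (∏ i, (1 + h • n) (I i) (J i)) * t J)
      ((∑ i, (∏ j ∈ univ.erase i, (1 : M2) (I j) (J j)) * n (I i) (J i)) * t J) 0 := by
    intro J
    refine HasDerivAt.mul_const ?_ _
    have h2 : ∀ i ∈ (univ : Finset S), HasDerivAt (fun h : ℂ => (1 + h • n) (I i) (J i))
        (n (I i) (J i)) 0 := by
      intro i _
      simp only [Matrix.add_apply, Matrix.smul_apply, smul_eq_mul]
      have h3 := ((hasDerivAt_id (0 : ℂ)).mul_const (n (I i) (J i))).const_add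
        ((1 : M2) (I i) (J i))
      simpa using h3
    have h3 := HasDerivAt.fun_finsetProd h2
    simp only [zero_smul, add_zero, smul_eq_mul] at h3
    exact h3
  have h2 := HasDerivAt.fun_sum (u := univ) fun J _ => h1 J
  have h4 : dv n t I =
      ∑ J, (∑ i, (∏ j ∈ univ.erase i, (1 : M2) (I j) (J j)) * n (I i) (J i)) * t J := by
   rw [dv_apply]
   simp only [sum_mul]
   conv_rhs => rw [sum_comm]
   refine sum_congr rfl fun i _ => ?_
   refine Fintype.sum_of_injective (fun q => update I i q) (fun a b h => ?_) _ _ ?_ ?_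
   · have := congrFun h i
     simpa using this
   · intro J hJ
     have h3 : ∃ j, j ≠ i ∧ I j ≠ J j := by
       by_contra hcon
       push Not at hcon
       refine hJ ⟨J i, ?_⟩
       funext j
       rcases eq_or_ne j i with rfl | hj
       · exact update_self ..
       · exact (update_of_ne hj ..).trans (hcon j hj)
     obtain ⟨j, hj, hne⟩ := h3
     have h5 : ∏ j ∈ univ.erase i, (1 : M2) (I j) (J j) = 0 :=
       prod_eq_zero (mem_erase.2 ⟨hj, mem_univ j⟩) (Matrix.one_apply_ne hne)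
     rw [h5, zero_mul, zero_mul]
   · intro q
     rw [update_self, prod_eq_one, one_mul]
     intro j hj
     rw [update_of_ne (mem_erase.1 hj).1, Matrix.one_apply_eq]
  rw [h4]
  exact h2

theorem one_add_mul {n : M2} (hn : n * n = 0) (s h : ℂ) :
    (1 + s • n) * (1 + h • n) = 1 + (s + h) • n := by
  rw [mul_add, add_mul, add_mul, one_mul, mul_one, one_mul, smul_mul_smul_comm, hn, smul_zero,
    add_zero, add_smul, add_assoc]

theorem hasDeriv {n : M2} (hn : n * n = 0) (t : TT S) (I : S → Fin 2) (s : ℂ) :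
    HasDerivAt (fun h : ℂ => op (1 + h • n) t I) (op (1 + s • n) (dv n t) I) s := by
  have h1 : ∀ h : ℂ, op (1 + h • n) t I =
      ∑ J, (∏ i, (1 + s • n) (I i) (J i)) * op (1 + (h - s) • n) t J := by
    intro h
    rw [← op_apply, ← op_mul, one_add_mul hn, add_sub_cancel]
  simp only [h1]
  rw [op_apply]
  refine HasDerivAt.fun_sum fun J _ => ?_
  refine HasDerivAt.const_mul _ ?_
  have h2 : HasDerivAt (fun h : ℂ => h - s) 1 s := by
    simpa using (hasDerivAt_id s).sub_const s
  have h3 : HasDerivAt (fun h : ℂ => op (1 + h • n) t J) (dv n t J) (s - s) := by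
    rw [sub_self]
    exact hasDeriv0 n t J
  have h4 := HasDerivAt.comp (h := fun h : ℂ => h - s) s h3 h2
  rw [mul_one] at h4
  exact h4

/-- invariants of a nilpotent element -/
theorem fix_of {n : M2} (hn : n * n = 0) {t : TT S} (ht : dv n t = 0) (s : ℂ) :
    op (1 + s • n) t = t := by
  funext I
  have h1 : ∀ s : ℂ, HasDerivAt (fun h : ℂ => op (1 + h • n) t I) 0 s := by
    intro s
    have h2 := hasDeriv hn t I s
    rwa [ht, map_zero] at h2
  have h2 := is_const_of_deriv_eq_zero (f := fun h : ℂ => op (1 + h • n) t I)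
    (fun s => (h1 s).differentiableAt) (fun s => (h1 s).deriv) s 0
  simp only [zero_smul, add_zero, op_one] at h2
  exact h2

/-- stable subspaces of a nilpotent element -/
theorem mem_of {n : M2} (hn : n * n = 0) {C : Submodule ℂ (TT S)} (hC : ∀ t ∈ C, dv n t ∈ C)
    {t : TT S} (ht : t ∈ C) (s : ℂ) : op (1 + s • n) t ∈ C := by
  by_contra hcon
  obtain ⟨φ, h1, h2⟩ := Submodule.exists_le_ker_of_notMem hcon
  have hφ : ∀ u : TT S, φ u = ∑ I, u I * φ (Pi.single I 1) := by
    intro u
    conv_lhs => rw [pi_eq_sum_univ' u]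
    rw [map_sum]
    refine sum_congr rfl fun I _ => ?_
    rw [map_smul, smul_eq_mul]
  obtain ⟨k, hk⟩ := dv_nil (S := S) hn
  have key : ∀ k : ℕ, ∀ u ∈ C, ((dv n : Module.End ℂ (TT S)) ^ k) u = 0 →
      ∀ s : ℂ, φ (op (1 + s • n) u) = 0 := by
    intro k
    induction k with
    | zero =>
      intro u _ hu s
      rw [pow_zero, Module.End.one_apply] at hu
      rw [hu, map_zero, map_zero]
    | succ k ih =>
      intro u hu huk s
      rw [pow_succ, Module.End.mul_apply] at huk
      have h3 := ih (dv n u) (hC u hu) huk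
      have h4 : ∀ s : ℂ, HasDerivAt (fun h : ℂ => φ (op (1 + h • n) u)) 0 s := by
        intro s
        have h5 : HasDerivAt (fun h : ℂ => ∑ I, op (1 + h • n) u I * φ (Pi.single I 1))
            (∑ I, op (1 + s • n) (dv n u) I * φ (Pi.single I 1)) s :=
          HasDerivAt.fun_sum fun I _ => (hasDeriv hn u I s).mul_const _
        rw [← hφ, h3 s] at h5
        simp only [← hφ] at h5
        exact h5
      have h5 := is_const_of_deriv_eq_zero (f := fun h : ℂ => φ (op (1 + h • n) u))
        (fun s => (h4 s).differentiableAt) (fun s => (h4 s).deriv) s 0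
      simp only [zero_smul, add_zero, op_one] at h5
      rw [h5]
      exact h2 hu
  exact h1 (key k t ht (by rw [hk, LinearMap.zero_apply]) s)

/-- elementary matrices generate -/
theorem sl2_ind {P : M2 → Prop} (hmul : ∀ Z Z', P Z → P Z' → P (Z * Z'))
    (h12 : ∀ a : ℂ, P (1 + a • e0)) (h21 : ∀ a : ℂ, P (1 + a • f0)) (Z : M2)
    (hZ : Z.det = 1) : P Z := by
  have key : ∀ Z : M2, Z.det = 1 → Z 1 0 ≠ 0 → P Z := by
    intro Z hZ hc
    rw [Matrix.det_fin_two] at hZ
    have h1 : Z = (1 + ((Z 0 0 - 1) / Z 1 0) • e0) * (1 + (Z 1 0) • f0) *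
        (1 + ((Z 1 1 - 1) / Z 1 0) • e0) := by
      refine eq_of ?_ ?_ ?_ ?_ <;>
      simp [e0, f0, Matrix.mul_apply, Fin.sum_univ_two, Matrix.one_apply] <;>
      field_simp <;>
      first
        | ring1
        | linear_combination hZ
        | linear_combination -hZ
    rw [h1]
    exact hmul _ _ (hmul _ _ (h12 _) (h21 _)) (h12 _)
  by_cases hc : Z 1 0 = 0
  · have h1 : Z = (1 + (-1 : ℂ) • f0) * ((1 + (1 : ℂ) • f0) * Z) := by
      rw [← mul_assoc]
      have h2 : (1 + (-1 : ℂ) • f0) * (1 + (1 : ℂ) • f0) = (1 : M2) := by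
        refine eq_of ?_ ?_ ?_ ?_ <;>
        simp [f0, Matrix.mul_apply, Fin.sum_univ_two, Matrix.one_apply]
      rw [h2, one_mul]
    rw [h1]
    refine hmul _ _ (h21 _) (key _ ?_ ?_)
    · rw [Matrix.det_mul, hZ, mul_one]
      simp [f0, Matrix.det_fin_two, Matrix.one_apply]
    · have h3 : ((1 + (1 : ℂ) • f0) * Z) 1 0 = Z 0 0 + Z 1 0 := by
        simp [f0, Matrix.mul_apply, Fin.sum_univ_two, Matrix.one_apply]
      rw [h3, hc, add_zero]
      intro h0
      rw [Matrix.det_fin_two, h0, hc] at hZ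
      simp at hZ
  · exact key Z hZ hc

theorem e0_sq : e0 * e0 = 0 := by
  refine eq_of ?_ ?_ ?_ ?_ <;> simp [e0, Matrix.mul_apply, Fin.sum_univ_two]

theorem f0_sq : f0 * f0 = 0 := by
  refine eq_of ?_ ?_ ?_ ?_ <;> simp [f0, Matrix.mul_apply, Fin.sum_univ_two]

/-- stable subspaces for the Lie algebra are stable under the group -/
theorem op_mem {C : Submodule ℂ (TT S)} (hC : ∀ Z ∈ sl, ∀ t ∈ C, dv Z t ∈ C) {Z : M2}
    (hZ : Z.det ≠ 0) {t : TT S} (ht : t ∈ C) : op Z t ∈ C := by
  obtain ⟨s, hs⟩ := IsAlgClosed.exists_eq_mul_self Z.det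
  have hs0 : s ≠ 0 := by
    rintro rfl
    apply hZ
    rw [hs, mul_zero]
  have h1 : Z = s • (s⁻¹ • Z) := by rw [smul_smul, mul_inv_cancel₀ hs0, one_smul]
  have h2 : (s⁻¹ • Z).det = 1 := by
    rw [Matrix.det_smul, hs, Fintype.card_fin]
    field_simp
  rw [h1, op_smul]
  refine Submodule.smul_mem _ _ ?_
  refine sl2_ind (P := fun Z => ∀ t ∈ C, op Z t ∈ C) ?_ ?_ ?_ _ h2 t ht
  · intro Z Z' hZ hZ' t ht
    rw [op_mul]
    exact hZ _ (hZ' _ ht)
  · intro a t ht
    exact mem_of e0_sq (fun t ht => hC _ e0_mem t ht) ht a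
  · intro a t ht
    exact mem_of f0_sq (fun t ht => hC _ f0_mem t ht) ht a

/-- invariants for the Lie algebra -/
theorem op_inv {t : TT S} (h : ∀ Z ∈ sl, dv Z t = 0) {Z : M2} {s : ℂ} (hs : s * s = Z.det)
    (hZ : Z.det ≠ 0) : op Z t = s ^ Fintype.card S • t := by
  have hs0 : s ≠ 0 := by
    rintro rfl
    apply hZ
    rw [← hs, mul_zero]
  have h1 : Z = s • (s⁻¹ • Z) := by rw [smul_smul, mul_inv_cancel₀ hs0, one_smul]
  have h2 : (s⁻¹ • Z).det = 1 := by
    rw [Matrix.det_smul, ← hs, Fintype.card_fin]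
    field_simp
  have h3 : op (s⁻¹ • Z) t = t := by
    refine sl2_ind (P := fun Z => op Z t = t) ?_ ?_ ?_ _ h2
    · intro Z Z' hZ hZ'
      rw [op_mul, hZ', hZ]
    · intro a
      exact fix_of e0_sq (h _ e0_mem) a
    · intro a
      exact fix_of f0_sq (h _ f0_mem) a
  rw [h1, op_smul, h3]

/-- invariants in odd tensor powers are zero, and the group acts on the others by powers of the
determinant -/
theorem op_inv' {t : TT S} (h : ∀ Z ∈ sl, dv Z t = 0) :
    t = 0 ∨ ∃ m, Fintype.card S = 2 * m ∧ ∀ Z : M2, Z.det ≠ 0 → op Z t = Z.det ^ m • t := by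
  rcases Nat.even_or_odd (Fintype.card S) with ⟨m, hm⟩ | hodd
  · right
    refine ⟨m, by omega, fun Z hZ => ?_⟩
    obtain ⟨s, hs⟩ := IsAlgClosed.exists_eq_mul_self Z.det
    rw [op_inv h hs.symm hZ, hs, hm, ← two_mul, pow_mul, pow_two]
  · left
    have h1 := op_inv (S := S) h (Z := 1) (s := -1) (by simp) (by simp)
    rw [op_one, hodd.neg_one_pow, neg_one_smul] at h1
    exact self_eq_neg.1 h1

/-- exchange of the summation -/
theorem swap_sum {M : Type*} [AddCommMonoid M] (i : S) (F : (S → Fin 2) → (S → Fin 2) → M) :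
    ∑ I, ∑ q, F I (update I i q) = ∑ J, ∑ p, F (update J i p) J := by
  rw [← Fintype.sum_prod_type', ← Fintype.sum_prod_type']
  refine Finset.sum_nbij' (fun x => (update x.1 i x.2, x.1 i)) (fun x => (update x.1 i x.2, x.1 i))
    (fun _ _ => mem_univ _) (fun _ _ => mem_univ _) ?_ ?_ ?_
  · rintro ⟨I, q⟩ -
    simp
  · rintro ⟨I, q⟩ -
    simp
  · rintro ⟨I, q⟩ -
    simp

/-- **Complete reducibility.** -/
theorem exists_compl {N : Submodule ℂ (TT S)} (hN : ∀ Z ∈ sl, ∀ t ∈ N, dv Z t ∈ N) :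
    ∃ C : Submodule ℂ (TT S), IsCompl N C ∧ (∀ Z ∈ sl, ∀ t ∈ C, dv Z t ∈ C) ∧
      ∀ Z : M2, Z.det ≠ 0 → ∀ t ∈ C, op Z t ∈ C := by
  let e : EuclideanSpace ℂ (S → Fin 2) ≃ₗ[ℂ] TT S := WithLp.linearEquiv 2 ℂ (TT S)
  let N' : Submodule ℂ (EuclideanSpace ℂ (S → Fin 2)) := N.comap (e : _ →ₗ[ℂ] TT S)
  have hc : IsCompl N' N'ᗮ := Submodule.isCompl_orthogonal N'
  have hC : ∀ Z ∈ sl, ∀ t ∈ (N'ᗮ).map (e : _ →ₗ[ℂ] TT S), dv Z t ∈ (N'ᗮ).map (e : _ →ₗ[ℂ] TT S) := by
    rintro Z hZ _ ⟨t, ht, rfl⟩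
    refine ⟨e.symm (dv Z (e t)), ?_, e.apply_symm_apply _⟩
    rw [SetLike.mem_coe, Submodule.mem_orthogonal] at ht ⊢
    intro u hu
    have hZ' : Zᴴ ∈ sl := by
      rw [mem_sl] at hZ ⊢
      rw [Matrix.trace_conjTranspose, hZ, star_zero]
    have h1 : e.symm (dv Zᴴ (e u)) ∈ N' := by
      change e (e.symm (dv Zᴴ (e u))) ∈ N
      rw [e.apply_symm_apply]
      exact hN _ hZ' _ hu
    have h2 := ht _ h1
    have h3 : inner ℂ u (e.symm (dv Z (e t))) = ∑ I, (starRingEnd ℂ (e u I)) * dv Z (e t) I := by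
      rw [PiLp.inner_apply]
      refine sum_congr rfl fun I _ => ?_
      rw [RCLike.inner_apply, mul_comm]
      rfl
    have h4 : inner ℂ (e.symm (dv Zᴴ (e u))) t =
        ∑ I, (starRingEnd ℂ (dv Zᴴ (e u) I)) * e t I := by
      rw [PiLp.inner_apply]
      refine sum_congr rfl fun I _ => ?_
      rw [RCLike.inner_apply, mul_comm]
      rfl
    rw [h4] at h2
    rw [h3, ← h2]
    simp only [dv_apply, mul_sum, map_sum, sum_mul, map_mul]
    rw [sum_comm]
    conv_rhs => rw [sum_comm]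
    refine sum_congr rfl fun i _ => ?_
    have h5 := swap_sum i (fun I J : S → Fin 2 =>
      (starRingEnd ℂ (e u I)) * (Z (I i) (J i) * e t J))
    simp only [update_self] at h5
    rw [h5]
    refine sum_congr rfl fun J _ => sum_congr rfl fun p _ => ?_
    rw [Matrix.conjTranspose_apply, RCLike.star_def, RCLike.conj_conj]
    ring
  refine ⟨(N'ᗮ).map (e : _ →ₗ[ℂ] TT S), ?_, hC, fun Z hZ t ht => op_mem hC hZ ht⟩
  have h1 : N = N'.map (e : _ →ₗ[ℂ] TT S) :=
    (Submodule.map_comap_eq_of_surjective e.surjective N).symm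
  rw [h1]
  exact (Submodule.orderIsoMapComap e).isCompl_iff.1 hc

end

end Pool.Agent.N179.DB.Tn
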