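import Pool.Agent.N179.DB.Ten
import Pool.Agent.N179.DB.Rk
import Pool.Agent.N179.GR.Fin

/-!
# Algebras generated by a representation of rank two
-/

set_option autoImplicit false
set_option linter.unusedSectionVars false

namespace Pool.Agent.N179.DB.Tn

open Matrix Finset Function Pool.Agent.N179.DB.Mt Pool.Agent.N179.DB.Rk Pool.Agent.N179.GR
open Pool.Agent.N179.GR.S (GRep)

noncomputable section

variable {G : Type} [Group G] {M : GRep ℂ G} {b : Module.Basis (Fin 2) ℂ M.V}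

/-- the matrix of a derivation -/
def dM (b : Module.Basis (Fin 2) ℂ M.V) (D : Der ℂ G) : M2 :=
  LinearMap.toMatrix b b (D.Θ (S.fl M))

theorem dM_trace {D : Der ℂ G} (hD : InDer 1 D) : dM b D ∈ sl := by
  generalize hn : 1 = n at hD
  induction hD with
  | base D => omega
  | zero j =>
    have h : dM b (0 : Der ℂ G) = 0 := map_zero (LinearMap.toMatrix b b)
    rw [h]; exact Submodule.zero_mem _
  | add j D D' _ _ h1 h2 =>
    have h : dM b (D + D') = dM b D + dM b D' := map_add (LinearMap.toMatrix b b) _ _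
    rw [h]; exact Submodule.add_mem _ (h1 hn) (h2 hn)
  | br j D D' _ _ _ _ =>
    have h : dM b (D.br D') = br (dM b D) (dM b D') := by
      change LinearMap.toMatrix b b (D.Θ (S.fl M) * D'.Θ (S.fl M) - D'.Θ (S.fl M) * D.Θ (S.fl M)) = _
      rw [map_sub, LinearMap.toMatrix_mul, LinearMap.toMatrix_mul]
      rfl
    rw [h]
    exact br_mem _ _

/-- **The derived algebra is the Lie algebra of the matrices of trace zero.** -/
theorem exists_der (h : NoSemi M) {Z : M2} (hZ : Z ∈ sl) : ∃ D : Der ℂ G, InDer 1 D ∧ dM b D = Z := by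
  let T : Module.End ℂ M.V →ₗ[ℂ] M2 := (LinearMap.toMatrix b b).toLinearMap
  have hS1 : (ak 1 (S.fl M) ∅).map T ≤ sl := by
    rintro _ ⟨x, ⟨D, hD, -, rfl⟩, rfl⟩
    exact dM_trace hD
  have hS2 : ∀ g, ∀ x ∈ (ak 1 (S.fl M) ∅).map T, cn (mat M b) g x ∈ (ak 1 (S.fl M) ∅).map T := by
    rintro g _ ⟨x, ⟨D, hD, -, rfl⟩, rfl⟩
    refine ⟨(D.conj g⁻¹).Θ (S.fl M), ⟨D.conj g⁻¹, hD.conj _, by simp, rfl⟩, ?_⟩
    rw [conj_full D g⁻¹ (isFull_full M.hom), inv_inv]
    change LinearMap.toMatrix b b (M.hom g * D.Θ (S.fl M) * M.hom g⁻¹) =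
      cn (mat M b) g (LinearMap.toMatrix b b (D.Θ (S.fl M)))
    rw [LinearMap.toMatrix_mul, LinearMap.toMatrix_mul, cn_apply, mul_assoc]
    rfl
  rcases (h.noLine b).irr hS1 hS2 with h0 | h0
  · exfalso
    have hnt : Nontrivial (S.fl M).V := ⟨b 0, 0, b.ne_zero 0⟩
    obtain ⟨v, hv0, hv⟩ := exists_eig (S.fl M) 1 (by
      intro D hD
      have h1 : T (D.Θ (S.fl M)) ∈ (ak 1 (S.fl M) ∅).map T := ⟨_, ⟨D, hD, by simp, rfl⟩, rfl⟩
      rw [h0, Submodule.mem_bot] at h1
      exact (LinearMap.toMatrix b b).map_eq_zero_iff.1 h1)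
    exact hv0 (h v hv)
  · rw [← h0] at hZ
    obtain ⟨x, ⟨D, hD, -, rfl⟩, hx⟩ := hZ
    exact ⟨D, hD, hx⟩

variable {A : Type} [Ring A] [Algebra ℂ A] [FiniteDimensional ℂ A] {τ : G →* (A ≃ₐ[ℂ] A)}
  {χ : G →* ℂˣ} {gr : ℕ → Submodule ℂ A}

/-- the operator of a derivation on the algebra -/
def dA (τ : G →* (A ≃ₐ[ℂ] A)) (D : Der ℂ G) : A →ₗ[ℂ] A := D.Θ (full A (algR τ))

theorem dA_mul (D : Der ℂ G) (x y : A) : dA τ D (x * y) = dA τ D x * y + x * dA τ D y :=
  Θ_mul D x y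

variable (b τ χ gr) in
/-- An equivariant multilinear map from the representation to the algebra, given by its values on
the basis. -/
structure Mon (S : Type) [Fintype S] [DecidableEq S] (j : ℕ) (x : (S → Fin 2) → A) : Prop where
  deg : ∀ J, x J ∈ gr (Fintype.card S + 2 * j)
  act : ∀ g J, τ g (x J) = ((χ g : ℂ) ^ j) • ∑ I : S → Fin 2, (∏ i, mat M b g (I i) (J i)) • x I
  der : ∀ D, InDer 1 D → ∀ J, dA τ D (x J) = ∑ i, ∑ p, dM b D p (J i) • x (update J i p)

/-- the twisted classes -/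
def Tw (τ : G →* (A ≃ₐ[ℂ] A)) (χ : G →* ℂˣ) (gr : ℕ → Submodule ℂ A) : Set A :=
  {c | ∃ j, c ∈ gr (2 * j) ∧ ∀ g, τ g c = ((χ g : ℂ) ^ j) • c}

/-- the images of the equivariant linear maps to the degree one part -/
def Im1 (M : GRep ℂ G) (τ : G →* (A ≃ₐ[ℂ] A)) (gr : ℕ → Submodule ℂ A) : Set A :=
  {x | ∃ (f : M.V →ₗ[ℂ] A) (v : M.V), (∀ w, f w ∈ gr 1) ∧ (∀ g w, f (M.act g w) = τ g (f w)) ∧
    x = f v}

theorem Mon.tw {c : A} {j : ℕ} (h1 : c ∈ gr (2 * j)) (h2 : ∀ g, τ g c = ((χ g : ℂ) ^ j) • c) :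
    Mon b τ χ gr Empty j (fun _ => c) where
  deg J := by
    rw [Fintype.card_eq_zero, zero_add]
    exact h1
  act g J := by
    rw [h2, Fintype.sum_unique]
    simp
  der D hD J := by
    rw [Fintype.sum_empty]
    exact hD.kill (M := full A (algR τ)) ⟨⊤, inferInstance, fun g _ => ⟨_, h2 g⟩⟩

theorem Mon.im {f : M.V →ₗ[ℂ] A} (h1 : ∀ w, f w ∈ gr 1)
    (h2 : ∀ g w, f (M.act g w) = τ g (f w)) :
    Mon b τ χ gr Unit 0 (fun J => f (b (J ()))) where
  deg J := h1 _
  act g J := by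
    rw [pow_zero, one_smul, ← h2]
    have h3 : M.act g (b (J ())) = ∑ p, mat M b g p (J ()) • b p := by
      have h4 := b.sum_repr (M.act g (b (J ())))
      conv_lhs => rw [← h4]
      refine sum_congr rfl fun p _ => ?_
      congr 1
      exact (LinearMap.toMatrix_apply b b (M.act g) p (J ())).symm
    rw [h3, map_sum]
    refine Fintype.sum_equiv (Equiv.funUnique Unit (Fin 2)).symm _ _ fun p => ?_
    rw [map_smul, Fintype.prod_unique]
    rfl
  der D hD J := by
    have h3 : D.Θ (S.fl M) (b (J ())) = ∑ p, dM b D p (J ()) • b p := by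
      have h4 := b.sum_repr (D.Θ (S.fl M) (b (J ())))
      refine h4.symm.trans ?_
      refine sum_congr rfl fun p _ => ?_
      congr 1
      exact (LinearMap.toMatrix_apply b b (D.Θ (S.fl M)) p (J ())).symm
    have h4 : f (D.Θ (S.fl M) (b (J ()))) = dA τ D (f (b (J ()))) :=
      D.lin (S.fl M) (full A (algR τ)) f ⟨⊤, inferInstance, fun g _ v => h2 g v⟩ _
    rw [Fintype.sum_unique, ← h4, h3, map_sum]
    refine sum_congr rfl fun p _ => ?_
    rw [map_smul]
    simp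

section mul

variable {S S' : Type} [Fintype S] [DecidableEq S] [Fintype S'] [DecidableEq S']

theorem sum_arrow (F : (S → Fin 2) → (S' → Fin 2) → A) :
    ∑ I : S ⊕ S' → Fin 2, F (I ∘ Sum.inl) (I ∘ Sum.inr) = ∑ I, ∑ I', F I I' := by
  rw [← Fintype.sum_prod_type']
  exact Fintype.sum_equiv (Equiv.sumArrowEquivProdArrow S S' (Fin 2)) _ _ fun I => rfl

theorem Mon.mul (hgr : ∀ m n, ∀ x ∈ gr m, ∀ y ∈ gr n, x * y ∈ gr (m + n)) {j j' : ℕ}
    {x : (S → Fin 2) → A} {x' : (S' → Fin 2) → A}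
    (h : Mon b τ χ gr S j x) (h' : Mon b τ χ gr S' j' x') :
    Mon b τ χ gr (S ⊕ S') (j + j') (fun J => x (J ∘ Sum.inl) * x' (J ∘ Sum.inr)) where
  deg J := by
    have h1 := hgr _ _ _ (h.deg (J ∘ Sum.inl)) _ (h'.deg (J ∘ Sum.inr))
    rw [Fintype.card_sum]
    have h2 : Fintype.card S + Fintype.card S' + 2 * (j + j') =
        Fintype.card S + 2 * j + (Fintype.card S' + 2 * j') := by ring
    rw [h2]
    exact h1
  act g J := by
    rw [map_mul, h.act, h'.act, smul_mul_smul_comm, ← pow_add]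
    congr 1
    rw [Finset.sum_mul_sum]
    have h1 : ∀ I : S ⊕ S' → Fin 2, (∏ i, mat M b g (I i) (J i)) •
        (x (I ∘ Sum.inl) * x' (I ∘ Sum.inr)) =
        ((∏ i, mat M b g ((I ∘ Sum.inl) i) ((J ∘ Sum.inl) i)) • x (I ∘ Sum.inl)) *
        ((∏ i, mat M b g ((I ∘ Sum.inr) i) ((J ∘ Sum.inr) i)) • x' (I ∘ Sum.inr)) := by
      intro I
      rw [Fintype.prod_sum_type, smul_mul_smul_comm]
      rfl
    simp only [h1]
    exact (sum_arrow fun I I' => ((∏ i, mat M b g (I i) ((J ∘ Sum.inl) i)) • x I) *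
      ((∏ i, mat M b g (I' i) ((J ∘ Sum.inr) i)) • x' I')).symm
  der D hD J := by
    rw [dA_mul, h.der D hD, h'.der D hD, Fintype.sum_sum_type, sum_mul, mul_sum]
    congr 1
    · refine sum_congr rfl fun i _ => ?_
      rw [sum_mul]
      refine sum_congr rfl fun p _ => ?_
      rw [smul_mul_assoc, Sum.update_inl_comp_inl, Sum.update_inl_comp_inr]
      rfl
    · refine sum_congr rfl fun i _ => ?_
      rw [mul_sum]
      refine sum_congr rfl fun p _ => ?_
      rw [mul_smul_comm, Sum.update_inr_comp_inl, Sum.update_inr_comp_inr]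
      rfl

end mul

variable (b τ χ gr) in
/-- the values of the equivariant multilinear maps -/
def Vals : Set A :=
  {y | ∃ (S : Type) (_ : Fintype S) (_ : DecidableEq S) (j : ℕ) (x : (S → Fin 2) → A)
    (_ : Mon b τ χ gr S j x) (J : S → Fin 2), y = x J}

theorem vals_span (h1 : 1 ∈ gr 0) (hgr : ∀ m n, ∀ x ∈ gr m, ∀ y ∈ gr n, x * y ∈ gr (m + n))
    (hgen : Algebra.adjoin ℂ (Tw τ χ gr ∪ Im1 M τ gr) = ⊤) :
    Submodule.span ℂ (Vals b τ χ gr) = ⊤ := by
  rw [eq_top_iff]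
  intro a _
  have ha : a ∈ Algebra.adjoin ℂ (Tw τ χ gr ∪ Im1 M τ gr) := by
    rw [hgen]
    exact Algebra.mem_top
  have hone : (1 : A) ∈ Submodule.span ℂ (Vals b τ χ gr) := by
    refine Submodule.subset_span ⟨Empty, inferInstance, inferInstance, 0, _,
      Mon.tw (c := 1) h1 fun g => ?_, (fun i => nomatch i), rfl⟩
    rw [map_one, pow_zero, one_smul]
  induction ha using Algebra.adjoin_induction with
  | mem a ha =>
    rcases ha with ⟨j, h2, h3⟩ | ⟨f, v, h2, h3, rfl⟩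
    · exact Submodule.subset_span ⟨Empty, inferInstance, inferInstance, j, _,
        Mon.tw h2 h3, (fun i => nomatch i), rfl⟩
    · rw [← b.sum_repr v, map_sum]
      refine Submodule.sum_mem _ fun p _ => ?_
      rw [map_smul]
      exact Submodule.smul_mem _ _ (Submodule.subset_span ⟨Unit, inferInstance, inferInstance, 0,
        _, Mon.im h2 h3, fun _ => p, rfl⟩)
  | algebraMap r =>
    rw [Algebra.algebraMap_eq_smul_one]
    exact Submodule.smul_mem _ _ hone
  | add a c _ _ ha hc => exact Submodule.add_mem _ (ha trivial) (hc trivial)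
  | mul a c _ _ ha hc =>
    have ha := ha trivial
    have hc := hc trivial
    have h2 := Submodule.mul_mem_mul ha hc
    rw [Submodule.span_mul_span] at h2
    refine Submodule.span_mono ?_ h2
    rintro _ ⟨_, ⟨S, _, _, j, x, hx, J, rfl⟩, _, ⟨S', _, _, j', x', hx', J', rfl⟩, rfl⟩
    exact ⟨S ⊕ S', inferInstance, inferInstance, j + j', _, hx.mul hgr hx', Sum.elim J J', rfl⟩

end

end Pool.Agent.N179.DB.Tn
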