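import Mathlib
import Pool.Agent.TH119.MX.Gal

/-!
# Vector spaces over the complex numbers with two bases: the period operators
-/

set_option autoImplicit false
set_option linter.unusedSectionVars false

namespace Pool.Agent.N179.DB

open Module

noncomputable section

section sl

variable {V : Type*} [AddCommGroup V] [Module ℂ V] {ι κ : Type*} [Fintype ι] [Fintype κ]

/-- the semilinear map which fixes the basis -/
def sl (b : Basis ι ℂ V) (τ : ℂ ≃+* ℂ) : V →+ V where
  toFun x := ∑ i, τ (b.repr x i) • b i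
  map_zero' := by simp
  map_add' x y := by
    rw [← Finset.sum_add_distrib]
    refine Finset.sum_congr rfl fun i _ => ?_
    rw [map_add, Finsupp.add_apply, map_add, add_smul]

variable (b : Basis ι ℂ V) (e : Basis κ ℂ V) (τ σ : ℂ ≃+* ℂ)

theorem sl_apply (x : V) : sl b τ x = ∑ i, τ (b.repr x i) • b i := rfl

theorem repr_sl (x : V) (i : ι) : b.repr (sl b τ x) i = τ (b.repr x i) := by
  rw [sl_apply, b.repr_sum_self]

theorem sl_smul (c : ℂ) (x : V) : sl b τ (c • x) = τ c • sl b τ x := by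
  rw [sl_apply, sl_apply, Finset.smul_sum]
  refine Finset.sum_congr rfl fun i _ => ?_
  rw [map_smul, Finsupp.smul_apply, smul_eq_mul, map_mul, mul_smul]

theorem sl_basis (i : ι) : sl b τ (b i) = b i := by
  classical
  refine b.ext_elem fun j => ?_
  rw [repr_sl, b.repr_self, Finsupp.single_apply]
  split <;> simp

theorem sl_comp (x : V) : sl b τ (sl b σ x) = sl b (σ.trans τ) x := by
  refine b.ext_elem fun j => ?_
  rw [repr_sl, repr_sl, repr_sl]
  rfl

theorem sl_refl (x : V) : sl b (RingEquiv.refl ℂ) x = x := by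
  refine b.ext_elem fun j => ?_
  rw [repr_sl]
  rfl

theorem sl_symm (x : V) : sl b τ.symm (sl b τ x) = x := by
  rw [sl_comp, RingEquiv.self_trans_symm, sl_refl]

theorem sl_symm' (x : V) : sl b τ (sl b τ.symm x) = x := by
  rw [sl_comp, RingEquiv.symm_trans_self, sl_refl]

theorem sl_inj {x y : V} (h : sl b τ x = sl b τ y) : x = y := by
  rw [← sl_symm b τ x, h, sl_symm]

theorem sl_sum {α : Type*} (s : Finset α) (c : α → ℂ) (v : α → V) :
    sl b τ (∑ i ∈ s, c i • v i) = ∑ i ∈ s, τ (c i) • sl b τ (v i) := by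
  rw [map_sum]
  exact Finset.sum_congr rfl fun i _ => sl_smul b τ _ _

/-- the image of a basis -/
def mv : Basis κ ℂ V :=
  Basis.mk (v := fun k => sl b τ (e k)) (by
    rw [Fintype.linearIndependent_iff]
    intro g hg k
    have h1 : sl b τ (∑ i, τ.symm (g i) • e i) = 0 := by
      rw [sl_sum, ← hg]
      refine Finset.sum_congr rfl fun i _ => ?_
      rw [RingEquiv.apply_symm_apply]
    have h2 : ∑ i, τ.symm (g i) • e i = 0 := by
      apply sl_inj b τ
      rw [h1, map_zero]
    have h3 := Fintype.linearIndependent_iff.1 e.linearIndependent _ h2 k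
    have h4 := congrArg τ h3
    rwa [RingEquiv.apply_symm_apply, map_zero] at h4) (by
    intro x _
    have h1 : x = ∑ i, τ (e.repr (sl b τ.symm x) i) • sl b τ (e i) := by
      rw [← sl_sum, e.sum_repr, sl_symm']
    rw [h1]
    exact Submodule.sum_mem _ fun i _ =>
      Submodule.smul_mem _ _ (Submodule.subset_span ⟨i, rfl⟩))

theorem mv_apply (k : κ) : mv b e τ k = sl b τ (e k) := by
  rw [mv, Basis.mk_apply]

/-- the operator which maps `β(e k)` to `α(e k)` -/
def P (α β : ℂ ≃+* ℂ) : V ≃ₗ[ℂ] V := (mv b e β).equiv (mv b e α) (Equiv.refl κ)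

theorem P_basis (α β : ℂ ≃+* ℂ) (k : κ) : P b e α β (sl b β (e k)) = sl b α (e k) := by
  rw [← mv_apply, ← mv_apply, P, Basis.equiv_apply, Equiv.refl_apply]

/-- the coordinates of `x` are in `F` -/
def InF (F : Subfield ℂ) (x : V) : Prop := ∀ k, e.repr x k ∈ F

variable {e}

theorem InF.add {F : Subfield ℂ} {x y : V} (hx : InF e F x) (hy : InF e F y) :
    InF e F (x + y) := fun k => by
  rw [map_add, Finsupp.add_apply]
  exact F.add_mem (hx k) (hy k)

theorem InF.smul {F : Subfield ℂ} {c : ℂ} (hc : c ∈ F) {x : V} (hx : InF e F x) :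
    InF e F (c • x) := fun k => by
  rw [map_smul, Finsupp.smul_apply, smul_eq_mul]
  exact F.mul_mem hc (hx k)

theorem InF.zero {F : Subfield ℂ} : InF e F (0 : V) := fun k => by
  rw [map_zero, Finsupp.zero_apply]
  exact F.zero_mem

theorem InF.sum {F : Subfield ℂ} {α : Type*} {s : Finset α} {v : α → V}
    (h : ∀ i ∈ s, InF e F (v i)) : InF e F (∑ i ∈ s, v i) := by
  classical
  induction s using Finset.induction_on with
  | empty => rw [Finset.sum_empty]; exact InF.zero
  | insert a s ha ih =>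
    rw [Finset.sum_insert ha]
    exact (h a (Finset.mem_insert_self a s)).add
      (ih fun i hi => h i (Finset.mem_insert_of_mem hi))

theorem InF.basis {F : Subfield ℂ} (k : κ) : InF e F (e k) := fun i => by
  classical
  rw [e.repr_self, Finsupp.single_apply]
  split
  · exact F.one_mem
  · exact F.zero_mem

variable (e)

theorem sl_eq_of_inF {F : Subfield ℂ} (hτ : ∀ x ∈ F, τ x = x) {x : V} (hx : InF e F x) :
    sl e τ x = x := by
  refine e.ext_elem fun k => ?_
  rw [repr_sl, hτ _ (hx k)]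

theorem P_inF {F : Subfield ℂ} {α β : ℂ ≃+* ℂ} (h : ∀ x ∈ F, α x = β x) {x : V}
    (hx : InF e F x) : P b e α β (sl b β x) = sl b α x := by
  have h1 : x = ∑ k, e.repr x k • e k := (e.sum_repr x).symm
  rw [h1, sl_sum, sl_sum, map_sum]
  refine Finset.sum_congr rfl fun k _ => ?_
  rw [map_smul, P_basis, h _ (hx k)]

/-- uniqueness of the period operator -/
theorem eq_of_basis {V' : Type*} [AddCommGroup V'] [Module ℂ V'] (β : ℂ ≃+* ℂ)
    {f g : V →ₗ[ℂ] V'} (h : ∀ k, f (sl b β (e k)) = g (sl b β (e k))) : f = g :=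
  (mv b e β).ext fun k => by rw [mv_apply]; exact h k

theorem P_sl (α β : ℂ ≃+* ℂ) (x : V) :
    P b e (α.trans τ) (β.trans τ) (sl b τ x) = sl b τ (P b e α β x) := by
  have h1 : x = ∑ k, (mv b e β).repr x k • mv b e β k := ((mv b e β).sum_repr x).symm
  rw [h1, sl_sum, map_sum, map_sum, map_sum]
  refine Finset.sum_congr rfl fun k _ => ?_
  rw [map_smul, map_smul, sl_smul, mv_apply, P_basis, sl_comp, sl_comp, P_basis]

theorem P_self (α : ℂ ≃+* ℂ) : P b e α α = LinearEquiv.refl ℂ V := by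
  apply LinearEquiv.toLinearMap_injective
  refine eq_of_basis b e α fun k => ?_
  exact P_basis b e α α k

/-- The period operator and the semilinear maps. -/
theorem P_one_sl (x : V) : P b e τ (RingEquiv.refl ℂ) (sl e τ x) = sl b τ x := by
  have h1 : x = ∑ k, e.repr x k • e k := (e.sum_repr x).symm
  rw [h1, sl_sum, sl_sum, map_sum]
  refine Finset.sum_congr rfl fun k _ => ?_
  have h2 := P_basis b e τ (RingEquiv.refl ℂ) k
  rw [sl_refl] at h2
  rw [map_smul, sl_basis, h2]

end sl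

section desc

variable {V : Type*} [AddCommGroup V] [Module ℂ V] {ι : Type*} [Fintype ι]
  (b : Basis ι ℂ V)

/-- A subspace which is stable under the semilinear maps is spanned by its rational vectors. -/
theorem desc (F : Subfield ℂ) (N : Submodule ℂ V)
    (h : ∀ τ : ℂ ≃+* ℂ, (∀ x ∈ F, τ x = x) → ∀ x ∈ N, sl b τ x ∈ N) :
    N ≤ Submodule.span ℂ {x | x ∈ N ∧ InF b F x} := by
  have h1 := Pool.Agent.TH119.MX.defOver_of_aut (F := F)
    (N.map (b.equivFun : V →ₗ[ℂ] ι → ℂ)) (by
      rintro τ hτ _ ⟨x, hx, rfl⟩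
      refine ⟨sl b τ x, h τ hτ x hx, ?_⟩
      funext i
      exact repr_sl b τ x i)
  intro x hx
  have h2 := h1 ⟨x, hx, rfl⟩
  have h3 := Submodule.mem_map_of_mem (f := (b.equivFun.symm : (ι → ℂ) →ₗ[ℂ] V)) h2
  rw [Submodule.map_span] at h3
  have h4 : (b.equivFun.symm : (ι → ℂ) →ₗ[ℂ] V) ((b.equivFun : V →ₗ[ℂ] ι → ℂ) x) = x :=
    b.equivFun.symm_apply_apply x
  rw [h4] at h3
  refine Submodule.span_mono ?_ h3
  rintro _ ⟨w, ⟨⟨y, hy, rfl⟩, hw⟩, rfl⟩
  have h5 : (b.equivFun.symm : (ι → ℂ) →ₗ[ℂ] V) ((b.equivFun : V →ₗ[ℂ] ι → ℂ) y) = y :=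
    b.equivFun.symm_apply_apply y
  rw [h5]
  exact ⟨hy, hw⟩

/-- A vector which is fixed by the semilinear maps is rational. -/
theorem inF_of_fixed (F : Subfield ℂ) {x : V}
    (h : ∀ τ : ℂ ≃+* ℂ, (∀ x ∈ F, τ x = x) → sl b τ x = x) : InF b F x := by
  intro i
  by_contra hi
  obtain ⟨σ, h1, h2⟩ := Pool.Agent.TH119.MX.exists_move hi
  apply h2
  rw [← repr_sl, h σ h1]

/-- A number with a finite orbit under the automorphisms over an algebraically closed field is in
this field. -/
theorem mem_of_finite_orbit (F : Subfield ℂ) [IsAlgClosed F] {z : ℂ}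
    (h : {w | ∃ σ : ℂ ≃+* ℂ, (∀ x ∈ F, σ x = x) ∧ σ z = w}.Finite) : z ∈ F := by
  classical
  set O := h.toFinset with hO
  have hmem : ∀ w, w ∈ O ↔ ∃ σ : ℂ ≃+* ℂ, (∀ x ∈ F, σ x = x) ∧ σ z = w := fun w => by
    rw [hO, Set.Finite.mem_toFinset]; rfl
  let p : Polynomial ℂ := ∏ w ∈ O, (Polynomial.X - Polynomial.C w)
  have hp : ∀ σ : ℂ ≃+* ℂ, (∀ x ∈ F, σ x = x) → p.map (σ : ℂ →+* ℂ) = p := by
    intro σ hσ
    rw [Polynomial.map_prod]
    refine Finset.prod_bij' (fun w _ => σ w) (fun w _ => σ.symm w) ?_ ?_ ?_ ?_ ?_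
    · intro w hw
      obtain ⟨τ, h1, rfl⟩ := (hmem w).1 hw
      exact (hmem _).2 ⟨τ.trans σ, fun x hx => by
        rw [RingEquiv.coe_trans, Function.comp_apply, h1 x hx, hσ x hx], rfl⟩
    · intro w hw
      obtain ⟨τ, h1, rfl⟩ := (hmem w).1 hw
      refine (hmem _).2 ⟨τ.trans σ.symm, fun x hx => ?_, rfl⟩
      rw [RingEquiv.coe_trans, Function.comp_apply, h1 x hx]
      conv_lhs => rw [← hσ x hx]
      exact σ.symm_apply_apply x
    · intro w _; exact σ.symm_apply_apply w
    · intro w _; exact σ.apply_symm_apply w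
    · intro w _
      rw [Polynomial.map_sub, Polynomial.map_X, Polynomial.map_C]
      rfl
  have hc : ∀ n, p.coeff n ∈ F := by
    intro n
    by_contra hn
    obtain ⟨σ, h1, h2⟩ := Pool.Agent.TH119.MX.exists_move hn
    apply h2
    conv_rhs => rw [← hp σ h1]
    rw [Polynomial.coeff_map]
    rfl
  have hlift : p ∈ Polynomial.lifts F.subtype := by
    rw [Polynomial.lifts_iff_coeff_lifts]
    intro n
    exact ⟨⟨p.coeff n, hc n⟩, rfl⟩
  obtain ⟨q, hq⟩ := hlift
  have hpz : p.eval z = 0 := by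
    rw [Polynomial.eval_prod]
    refine Finset.prod_eq_zero ((hmem z).2 ⟨RingEquiv.refl ℂ, fun x _ => rfl, rfl⟩) ?_
    simp
  have hp0 : p ≠ 0 := Finset.prod_ne_zero_iff.2 fun w _ => Polynomial.X_sub_C_ne_zero w
  have hq0 : q ≠ 0 := by
    rintro rfl
    apply hp0
    rw [← hq]
    exact map_zero (Polynomial.mapRingHom F.subtype)
  have hq' : p = q.map F.subtype := by rw [← hq]; rfl
  have hspl := IsAlgClosed.splits q
  have hroots : p.roots = q.roots.map F.subtype := by
    rw [hq']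
    exact hspl.roots_map F.subtype
  have hz : z ∈ p.roots := (Polynomial.mem_roots hp0).2 hpz
  rw [hroots, Multiset.mem_map] at hz
  obtain ⟨a, _, rfl⟩ := hz
  exact a.2

end desc

end

end Pool.Agent.N179.DB
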